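import Pool.Agent.CYG.Def

set_option autoImplicit false

/-!
# CYL/P: the class of the `l`-leg sector and the matrices on it

`Kc L l` is the type of the class states, `Tc v U` the complex matrix of `T(v; U)` on the class, `Bc v U` its real part,
`ex u` the extension by zero of a vector on the class, `chF` the indicator function of the `Chi`-states, `tv U psi v` the
eigenvalue of `T(v; U)` read off from a probability `psi`.

`tc_expand`: what planarity (part P2) gives for functions supported on the `Chi`-states: on the class, `T` is its matrix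
on the class.
-/

namespace Pool.Agent.CYL

open Pool.Agent.BEX

/-- the states of the class -/
abbrev Kc (L l : ℕ) : Type := {m : Sts L l // Cls m}

noncomputable instance (L l : ℕ) : Fintype (Kc L l) := by
  classical
  exact inferInstance

noncomputable instance (L l : ℕ) : DecidableEq (Kc L l) := Classical.decEq _

/-- the complex matrix of `T(v; U)` on the class -/
noncomputable def Tc {L l : ℕ} (v : ℂ) (U : Fin L → ℂ) : Matrix (Kc L l) (Kc L l) ℂ :=
  Matrix.of fun m' m => Tf v U (Pi.single m'.1 1) m.1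

/-- its real part -/
noncomputable def Bc {L l : ℕ} (v : ℂ) (U : Fin L → ℂ) : Matrix (Kc L l) (Kc L l) ℝ :=
  Matrix.of fun m' m => (Tf v U (Pi.single m'.1 1) m.1).re

/-- extension by zero -/
noncomputable def ex {L l : ℕ} (u : Kc L l → ℝ) (m : Sts L l) : ℝ := by
  classical
  exact if h : Cls m then u ⟨m, h⟩ else 0

/-- the indicator function of the `Chi`-states -/
noncomputable def chF {L l : ℕ} (m : Sts L l) : ℂ := if Chi m then 1 else 0

/-- the eigenvalue of `T(v; U)` on the probability `psi` -/
noncomputable def tv {L l : ℕ} (U : Fin L → ℂ) (psi : Sts L l → ℝ) (v : ℂ) : ℂ :=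
  ∑ m, (psi m : ℂ) * Tf v U chF m

/-- Planarity (part P2): functions supported on the `Chi`-states and zero on the class stay so, and `Sup` is preserved. -/
structure Pla (L l : ℕ) : Prop where
  sup : ∀ (v : ℂ) (U : Fin L → ℂ) (F : Sts L l → ℂ), Sup F → Sup (Tf v U F)
  cls : ∀ (v : ℂ) (U : Fin L → ℂ) (F : Sts L l → ℂ), Sup F → (∀ m, Cls m → F m = 0) →
    ∀ m, Cls m → Tf v U F m = 0

/-- The matrix on the class is real and nonnegative. -/
def Nn {L l : ℕ} (v : ℂ) (U : Fin L → ℂ) : Prop := ∀ m' m : Kc L l, Tc v U m' m = ((Bc v U m' m : ℝ) : ℂ) ∧ 0 ≤ Bc v U m' m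

theorem Tc_apply {L l : ℕ} (v : ℂ) (U : Fin L → ℂ) (m' m : Kc L l) :
    Tc v U m' m = Tf v U (Pi.single m'.1 1) m.1 := rfl

theorem Bc_apply {L l : ℕ} (v : ℂ) (U : Fin L → ℂ) (m' m : Kc L l) :
    Bc v U m' m = (Tf v U (Pi.single m'.1 1) m.1).re := rfl

theorem ex_of {L l : ℕ} (u : Kc L l → ℝ) {m : Sts L l} (h : Cls m) : ex u m = u ⟨m, h⟩ := by
  unfold ex; exact dif_pos h

theorem ex_not {L l : ℕ} (u : Kc L l → ℝ) {m : Sts L l} (h : ¬ Cls m) : ex u m = 0 := by
  unfold ex; exact dif_neg h

@[simp] theorem ex_val {L l : ℕ} (u : Kc L l → ℝ) (m : Kc L l) : ex u m.1 = u m := ex_of u m.2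

end Pool.Agent.CYL
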