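import Pool.Agent.CYG.P.Cl

/-!
# CYL, part PF: arcless states

An arcless state whose legs are in cyclic order is in the class; there is one for `l ≤ L`; so the class is not
empty.
-/

set_option autoImplicit false

namespace Pool.Agent.CYL

open Pool.Agent.BEX

variable {L l : ℕ}

/-- in an arcless state an occupied site is joined to a point at infinity -/
theorem Arcless.inr_of {m : Sts L l} (h : Arcless m) {i : Fin L}
    (hi : m (Sum.inl i) ≠ Sum.inl i) : ∃ j, m (Sum.inl i) = Sum.inr j := by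
  rcases hx : m (Sum.inl i) with k | j
  · have h1 := h.2 i k hx
    rw [← h1] at hx
    exact absurd hx hi
  · exact ⟨j, rfl⟩

theorem Arcless.jnd {m : Sts L l} (h : Arcless m) {i k : Fin L} (hj : Jnd m i k) :
    i ≠ k ∧ (∃ j, m (Sum.inl i) = Sum.inr j) ∧ ∃ j, m (Sum.inl k) = Sum.inr j := by
  obtain ⟨h1, h2 | ⟨j, j', -, h3, h4⟩⟩ := hj
  · exact absurd (h.2 i k h2) h1
  · exact ⟨h1, ⟨j, h3⟩, ⟨j', h4⟩⟩

theorem Arcless.g1 {m : Sts L l} (h : Arcless m) : G1 m := by
  intro i j k n hij hjk _ h1 _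
  exact absurd (h.2 i k h1) (hij.trans hjk).ne

theorem Arcless.g2 {m : Sts L l} (h : Arcless m) : G2 m := by
  intro i k h1 a b _ _ hia hak
  exact absurd (h.2 i k h1) (hia.trans hak).ne

/-- an arcless state is in the class if its legs are in cyclic order -/
theorem Arcless.nc {m : Sts L l} (h : Arcless m) (h3 : G3 m) : NC m := ⟨h.g1, h.g2, h3⟩

theorem Arcless.cls {m : Sts L l} (h : Arcless m) (h3 : G3 m) : Cls m := ⟨h.1, h.nc h3⟩

/-- the legs are in increasing order -/
theorem g3_of_mono {m : Sts L l} (h : ∀ (j j' : Fin l) (a b : Fin L), j < j' → m (Sum.inl a) = Sum.inr j →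
    m (Sum.inl b) = Sum.inr j' → a < b) : G3 m := by
  intro j₁ j₂ j₃ h12 h23 a b c ha hb hc
  exact Or.inl ⟨h j₁ j₂ a b h12 ha hb, h j₂ j₃ b c h23 hb hc⟩

/-- two legs are always in cyclic order -/
theorem g3_of_le_two {m : Sts L l} (hl : l ≤ 2) : G3 m := by
  intro j₁ j₂ j₃ h12 h23
  exfalso
  have h1 : (j₁ : ℕ) < j₂ := h12
  have h2 : (j₂ : ℕ) < j₃ := h23
  have h3 := j₃.isLt
  omega

/-- underlying function of the standard arcless state -/
def stdf (h : l ≤ L) : Lb L l → Lb L l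
  | Sum.inl i => if hi : i.val < l then Sum.inr ⟨i.val, hi⟩ else Sum.inl i
  | Sum.inr j => Sum.inl (Fin.castLE h j)

/-- the standard arcless state: the through-legs are at the sites `0, .., l-1` -/
def stdm (h : l ≤ L) : Sts L l := ⟨stdf h, by
  rintro (i | j)
  · by_cases hi : i.val < l
    · simp [stdf, hi]
    · simp [stdf, hi]
  · simp [stdf]⟩

theorem stdm_inr (h : l ≤ L) (j : Fin l) : stdm h (Sum.inr j) = Sum.inl (Fin.castLE h j) := rfl

theorem stdm_inl_lt (h : l ≤ L) {i : Fin L} (hi : i.val < l) :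
    stdm h (Sum.inl i) = Sum.inr ⟨i.val, hi⟩ := dif_pos hi

theorem stdm_inl_ge (h : l ≤ L) {i : Fin L} (hi : ¬ i.val < l) :
    stdm h (Sum.inl i) = Sum.inl i := dif_neg hi

theorem arcless_stdm (h : l ≤ L) : Arcless (stdm h) := by
  refine ⟨fun j => ⟨Fin.castLE h j, stdm_inr h j⟩, fun i k hik => ?_⟩
  by_cases hi : i.val < l
  · rw [stdm_inl_lt h hi] at hik
    exact absurd hik (by simp)
  · rw [stdm_inl_ge h hi] at hik
    exact Sum.inl_injective hik

theorem g3_stdm (h : l ≤ L) : G3 (stdm h) := by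
  refine g3_of_mono fun j j' a b hjj ha hb => ?_
  have key : ∀ (x : Fin L) (i : Fin l), stdm h (Sum.inl x) = Sum.inr i → (x : ℕ) = i := by
    intro x i hx
    have h1 := congrArg (stdm h) hx
    rw [(stdm h).inv, stdm_inr] at h1
    exact congrArg Fin.val (Sum.inl_injective h1)
  have h1 := key a j ha
  have h2 := key b j' hb
  have h3 : (j : ℕ) < j' := hjj
  show (a : ℕ) < b
  omega

theorem exists_arcless (h : l ≤ L) : ∃ m : Sts L l, Arcless m ∧ Cls m :=
  ⟨stdm h, arcless_stdm h, (arcless_stdm h).cls (g3_stdm h)⟩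

theorem nonempty_Kc (h : l ≤ L) : Nonempty (Kc L l) :=
  ⟨⟨stdm h, (arcless_stdm h).cls (g3_stdm h)⟩⟩

end Pool.Agent.CYL
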