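import Pool.Agent.CYG.P.Psi
import Pool.Agent.CYL.P.Crs

set_option autoImplicit false

/-!
# CYL, part PF: mirror symmetry (P6)

`rvE` reflects the sites. `Tf_mir`: the mirror image of `T(v; U)` is `T(3λ - v; -U reversed)`. For antisymmetric
rapidities (`U (rev i) = - U i`: the family `Uw (2 p) w` and `U = 0`) the unique nonnegative eigenvector is invariant,
`q(-u) = (-1)^(L + l) q(u)` and `t(3λ - v) = t(v)`.
-/

namespace Pool.Agent.CYL

open Complex Finset
open Pool.Agent.BEX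

variable {L l : ℕ}

/-- the reflection of the sites (and of the points at infinity, to preserve the cyclic order) -/
def rvE (L l : ℕ) : Lb L l ≃ Lb L l := Equiv.sumCongr Fin.revPerm Fin.revPerm

@[simp] theorem rvE_inl (i : Fin L) : rvE L l (Sum.inl i) = Sum.inl i.rev := rfl

@[simp] theorem rvE_inr (j : Fin l) : rvE L l (Sum.inr j) = Sum.inr j.rev := rfl

@[simp] theorem rvE_rvE (x : Lb L l) : rvE L l (rvE L l x) = x := by
  rcases x with i | j
  · simp
  · simp

theorem rvE_symm : (rvE L l).symm = rvE L l := by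
  ext x
  rw [Equiv.symm_apply_eq, rvE_rvE]

theorem rl_rv_apply (m : Sts L l) (x : Lb L l) : (rl (rvE L l) m) x = rvE L l (m (rvE L l x)) := by
  rw [rl_apply, rvE_symm]

@[simp] theorem rl_rv_rl_rv (m : Sts L l) : rl (rvE L l) (rl (rvE L l) m) = m := by
  apply St.ext'
  intro x
  rw [rl_rv_apply, rl_rv_apply, rvE_rvE, rvE_rvE]

theorem lns_rv (L l : ℕ) : (lns L l).map (rvE L l) = (lns L l).reverse := by
  unfold lns
  rw [← List.map_reverse, List.finRange_reverse, List.map_map, List.map_map]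
  rfl

theorem lns_nd (L l : ℕ) : (lns L l).Nodup := by
  unfold lns
  exact (List.nodup_finRange L).map Sum.inl_injective

/-- The mirror image of the transfer matrix. -/
theorem Tf_mir (v : ℂ) (U : Fin L → ℂ) (F : Sts L l → ℂ) (m : Sts L l) :
    Tf v U F (rl (rvE L l) m) =
      Tf (3 * lam - v) (fun i => - U i.rev) (fun n => F (rl (rvE L l) n)) m := by
  have h1 : (fun x => (-rap (l := l) U) (rvE L l x)) = rap (fun i => - U i.rev) := by
    funext x
    rcases x with i | j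
    · rfl
    · simp [rap]
  unfold Tf
  rw [Tt_crossing _ (lns_nd L l), ← lns_rv, Tt_rl, h1]

theorem chi_rv {m : Sts L l} (h : Chi m) : Chi (rl (rvE L l) m) := by
  intro j
  obtain ⟨i, hi⟩ := h j.rev
  exact ⟨i.rev, by rw [rl_rv_apply, rvE_inr, hi, rvE_inl]⟩

theorem chi_rv_iff {m : Sts L l} : Chi (rl (rvE L l) m) ↔ Chi m :=
  ⟨fun h => by simpa using chi_rv h, chi_rv⟩

theorem arc_rv {m : Sts L l} {i k : Fin L} (h : (rl (rvE L l) m) (Sum.inl i) = Sum.inl k) :
    m (Sum.inl i.rev) = Sum.inl k.rev := by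
  rw [rl_rv_apply, rvE_inl] at h
  rw [← rvE_rvE (m (Sum.inl i.rev)), h, rvE_inl]

theorem leg_rv {m : Sts L l} {i : Fin L} {j : Fin l} (h : (rl (rvE L l) m) (Sum.inl i) = Sum.inr j) :
    m (Sum.inl i.rev) = Sum.inr j.rev := by
  rw [rl_rv_apply, rvE_inl] at h
  rw [← rvE_rvE (m (Sum.inl i.rev)), h, rvE_inr]

theorem cls_rv {m : Sts L l} (h : Cls m) : Cls (rl (rvE L l) m) := by
  refine ⟨chi_rv h.1, ?_, ?_, ?_⟩
  · intro i j k n hij hjk hkn e1 e2
    have f1 := arc_rv e1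
    have f2 := arc_rv e2
    exact h.2.1 n.rev k.rev j.rev i.rev (Fin.rev_lt_rev.2 hkn) (Fin.rev_lt_rev.2 hjk) (Fin.rev_lt_rev.2 hij)
      (by rw [← f2, m.inv]) (by rw [← f1, m.inv])
  · rintro i k e a b ⟨ja, ha⟩ ⟨jb, hb⟩ h1 h2
    have f := arc_rv e
    have g := h.2.2.1 k.rev i.rev (by rw [← f, m.inv]) a.rev b.rev ⟨_, leg_rv ha⟩ ⟨_, leg_rv hb⟩
      (Fin.rev_lt_rev.2 h2) (Fin.rev_lt_rev.2 h1)
    exact ⟨Fin.rev_lt_rev.1 g.2, Fin.rev_lt_rev.1 g.1⟩
  · intro j₁ j₂ j₃ h1 h2 a b c ha hb hc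
    have g := h.2.2.2 j₃.rev j₂.rev j₁.rev (Fin.rev_lt_rev.2 h2) (Fin.rev_lt_rev.2 h1) c.rev b.rev a.rev
      (leg_rv hc) (leg_rv hb) (leg_rv ha)
    simp only [Fin.rev_lt_rev] at g
    tauto

theorem cls_rv_iff {m : Sts L l} : Cls (rl (rvE L l) m) ↔ Cls m :=
  ⟨fun h => by simpa using cls_rv h, cls_rv⟩

theorem sup_rv {F : Sts L l → ℂ} (h : Sup F) : Sup (fun n => F (rl (rvE L l) n)) :=
  fun _ hm => h _ fun hc => hm (chi_rv_iff.1 hc)

theorem sum_rv {M : Type*} [AddCommMonoid M] (f : Sts L l → M) :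
    ∑ n, f (rl (rvE L l) n) = ∑ n, f n := Equiv.sum_comp (rl (rvE L l)) f

/-- The mirror image of a joint eigenvector, for antisymmetric rapidities. -/
theorem IsPsi.mir {U : Fin L → ℂ} {psi : Sts L l → ℝ} {t : ℂ → ℂ} (hU : ∀ i, U i.rev = - U i)
    (h : IsPsi U psi t) : IsPsi U (fun m => psi (rl (rvE L l) m)) (fun v => t (3 * lam - v)) := by
  have hU' : (fun i => - U i.rev) = U := by
    funext i
    rw [hU, neg_neg]
  refine ⟨fun m => h.nonneg _, fun m hm => h.supp _ fun hc => hm (cls_rv_iff.1 hc), ?_, ?_⟩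
  · rw [sum_rv psi]
    exact h.sum
  · intro v F hF
    have h1 : ∀ m, Tf v U F m = Tf (3 * lam - v) U (fun n => F (rl (rvE L l) n)) (rl (rvE L l) m) := by
      intro m
      rw [Tf_mir, hU', sub_sub_cancel]
      simp
    have h2 := h.eig (3 * lam - v) _ (sup_rv hF)
    rw [← sum_rv fun m => (psi m : ℂ) * Tf (3 * lam - v) U (fun n => F (rl (rvE L l) n)) m,
      ← sum_rv fun m => (psi m : ℂ) * F (rl (rvE L l) m)] at h2
    simp only [rl_rv_rl_rv] at h2
    rw [← h2]
    exact Finset.sum_congr rfl fun m _ => by rw [h1 m]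

theorem Oa_rv (al : Fin L → ℂ) (m : Sts L l) : Oa al (rl (rvE L l) m) = Oa (fun i => al i.rev) m := by
  unfold Oa
  by_cases h : Chi m
  · rw [if_pos (chi_rv h), if_pos h, ← Equiv.prod_comp (Fin.revPerm : Fin L ≃ Fin L)]
    refine Finset.prod_congr rfl fun i _ => ?_
    rw [Fin.revPerm_apply]
    have h1 : ((rl (rvE L l) m) (Sum.inl i.rev) = Sum.inl i.rev) ↔ (m (Sum.inl i) = Sum.inl i) := by
      rw [rl_rv_apply, rvE_inl, Fin.rev_rev]
      constructor
      · intro h2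
        rw [← rvE_rvE (m (Sum.inl i)), h2, rvE_inl, Fin.rev_rev]
      · intro h2
        rw [h2, rvE_inl]
    simp only [h1]
  · rw [if_neg fun hc => h (chi_rv_iff.1 hc), if_neg h]

/-- Parity of the number of the empty sites. -/
theorem card_empty {m : Sts L l} (h : Chi m) :
    ((-1 : ℂ)) ^ (Finset.univ.filter fun i : Fin L => m (Sum.inl i) = Sum.inl i).card = (-1) ^ (L + l) := by
  classical
  -- non fixed labels are even in number
  have h1 : ∑ x : Lb L l, (if m x = x then (0 : ZMod 2) else 1) = 0 := by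
    refine Finset.sum_involution (fun x _ => m x) ?_ ?_ ?_ ?_
    · intro x _
      by_cases hx : m x = x
      · simp [hx]
      · have : ¬ (x = m x) := fun h => hx h.symm
        simp only [hx, if_false, St.inv, this]
        decide
    · intro x _ hx hx'
      simp [hx'] at hx
    · intro x _
      exact Finset.mem_univ _
    · intro x _
      exact m.inv x
  -- the fixed labels are sites
  have h2 : ∀ j : Fin l, ¬ (m (Sum.inr j) = Sum.inr j) := by
    intro j hj
    obtain ⟨i, hi⟩ := h j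
    rw [hj] at hi
    cases hi
  rw [Fintype.sum_sum_type] at h1
  have h3 : ∑ j : Fin l, (if m (Sum.inr j) = Sum.inr j then (0 : ZMod 2) else 1) = (l : ZMod 2) := by
    rw [Finset.sum_congr rfl fun j _ => if_neg (h2 j)]
    simp
  have h4 : ∑ i : Fin L, (if m (Sum.inl i) = Sum.inl i then (0 : ZMod 2) else 1) =
      (L : ZMod 2) - ((Finset.univ.filter fun i : Fin L => m (Sum.inl i) = Sum.inl i).card : ZMod 2) := by
    have : ∀ i : Fin L, (if m (Sum.inl i) = Sum.inl i then (0 : ZMod 2) else 1) =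
        1 - (if m (Sum.inl i) = Sum.inl i then (1 : ZMod 2) else 0) := by
      intro i
      split_ifs <;> simp
    rw [Finset.sum_congr rfl fun i _ => this i, Finset.sum_sub_distrib, Finset.sum_boole]
    simp
  rw [h3, h4] at h1
  have h5 : ((Finset.univ.filter fun i : Fin L => m (Sum.inl i) = Sum.inl i).card : ZMod 2) = ((L + l : ℕ) : ZMod 2) := by
    push_cast
    linear_combination -h1
  rw [ZMod.natCast_eq_natCast_iff] at h5
  rw [neg_one_pow_eq_pow_mod_two, neg_one_pow_eq_pow_mod_two (n := L + l)]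
  congr 1

theorem Oa_neg (al : Fin L → ℂ) (m : Sts L l) : Oa (fun i => - al i) m = (-1) ^ (L + l) * Oa al m := by
  unfold Oa
  by_cases h : Chi m
  · rw [if_pos h, if_pos h, ← card_empty h, ← Finset.prod_const, Finset.prod_filter, ← Finset.prod_mul_distrib]
    refine Finset.prod_congr rfl fun i _ => ?_
    split_ifs <;> ring
  · rw [if_neg h, if_neg h, mul_zero]

/-- `q(-u) = (-1)^(L + l) q(u)` for a mirror invariant vector. -/
theorem qf_mir {U : Fin L → ℂ} {psi : Sts L l → ℝ} (hU : ∀ i, U i.rev = - U i)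
    (h : ∀ m, psi (rl (rvE L l) m) = psi m) (u : ℂ) :
    qf U psi (-u) = (-1) ^ (L + l) * qf U psi u := by
  unfold qf
  rw [← sum_rv, Finset.mul_sum]
  refine Finset.sum_congr rfl fun m _ => ?_
  unfold Os
  rw [h, Oa_rv]
  have h1 : (fun i : Fin L => sin (-u - U i.rev)) = fun i => - sin (u - U i) := by
    funext i
    rw [hU, ← sin_neg]
    congr 1
    ring
  rw [h1, Oa_neg]
  ring

/-- `q` is real on the real axis, for real rapidities. -/
theorem qf_conj_real {U : Fin L → ℂ} (psi : Sts L l → ℝ) (hU : ∀ i, (starRingEnd ℂ) (U i) = U i) (u : ℂ) :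
    (starRingEnd ℂ) (qf U psi u) = qf U psi ((starRingEnd ℂ) u) := by
  unfold qf Os Oa
  rw [map_sum]
  refine Finset.sum_congr rfl fun m _ => ?_
  rw [map_mul, Complex.conj_ofReal]
  congr 1
  split_ifs with h
  · rw [map_prod]
    refine Finset.prod_congr rfl fun i _ => ?_
    split_ifs
    · rw [← Complex.sin_conj, map_sub, hU]
    · unfold bb
      exact Complex.conj_ofReal _
  · exact map_zero _

theorem Uw_rev (p : ℕ) (w : ℝ) (i : Fin (2 * p)) : Uw (2 * p) w i.rev = - Uw (2 * p) w i := by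
  unfold Uw
  rw [Fin.val_rev]
  have hi := i.2
  rcases Nat.mod_two_eq_zero_or_one (i : ℕ) with h | h
  · rw [if_pos h, if_neg (show ¬ (2 * p - ((i : ℕ) + 1)) % 2 = 0 by omega)]
  · rw [if_pos (show (2 * p - ((i : ℕ) + 1)) % 2 = 0 by omega), if_neg (show ¬ (i : ℕ) % 2 = 0 by omega), neg_neg]

theorem Uw_conj (L : ℕ) (w : ℝ) (i : Fin L) : (starRingEnd ℂ) (Uw L w i) = Uw L w i := by
  unfold Uw
  split_ifs
  · exact Complex.conj_ofReal _
  · rw [map_neg, Complex.conj_ofReal]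

section Main

variable [Nonempty (Kc L l)]

/-- antisymmetric rapidities: the eigenvector is mirror invariant, `q(-u) = (-1)^(L + l) q(u)`, `t(3λ - v) = t(v)` -/
theorem IsPsi.par (hpl : Pla L l) {v : ℂ} {U : Fin L → ℂ} (hR : RealPrim l v U) (hU : ∀ i, U i.rev = - U i)
    {psi : Sts L l → ℝ} {t : ℂ → ℂ} (h : IsPsi U psi t) :
    (∀ m, psi (rl (rvE L l) m) = psi m) ∧ (∀ u, qf U psi (-u) = (-1) ^ (L + l) * qf U psi u) ∧
      ∀ v, t (3 * lam - v) = t v := by
  obtain ⟨h1, h2⟩ := (h.mir hU).unique hpl hR h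
  have h3 : ∀ m, psi (rl (rvE L l) m) = psi m := fun m => congrFun h1 m
  exact ⟨h3, qf_mir hU h3, fun v => congrFun h2 v⟩

end Main

/-- mirror symmetry for the staggered family -/
theorem qf_par {p : ℕ} [Nonempty (Kc (2 * p) l)] (hpl : Pla (2 * p) l) (hF : FamPrim (2 * p) l) {w : ℝ} (h0 : 0 ≤ w)
    (h1 : w < Real.pi / 8) {psi : Sts (2 * p) l → ℝ} {t : ℂ → ℂ} (h : IsPsi (Uw (2 * p) w) psi t) (u : ℂ) :
    qf (Uw (2 * p) w) psi (-u) = (-1) ^ (2 * p + l) * qf (Uw (2 * p) w) psi u :=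
  (h.par hpl (hF.vW h0 h1) (Uw_rev p w)).2.1 u

/-- crossing symmetry of the eigenvalue for the staggered family -/
theorem t_par {p : ℕ} [Nonempty (Kc (2 * p) l)] (hpl : Pla (2 * p) l) (hF : FamPrim (2 * p) l) {w : ℝ} (h0 : 0 ≤ w)
    (h1 : w < Real.pi / 8) {psi : Sts (2 * p) l → ℝ} {t : ℂ → ℂ} (h : IsPsi (Uw (2 * p) w) psi t) (v : ℂ) :
    t (3 * lam - v) = t v :=
  (h.par hpl (hF.vW h0 h1) (Uw_rev p w)).2.2 v

end Pool.Agent.CYL
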