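import Pool.Agent.CYG.P.Psi
import Pool.Agent.CYG.P.Mv

/-!
# CYL, part PF, item P3: primitivity, abstract part

`isPrimitive_of_diag`, `isPrimitive_of_pow` : criteria for Mathlib's `Matrix.IsPrimitive`.
`PosOp k v U` : `T(v; U)` maps nonnegative functions to nonnegative functions, and `T(v; U) ^ k`
realises the identity and all moves `Stp` with positive weights.
`realPrim_of_pos` : then `RealPrim l v U` (planarity `Pla` and reachability by moves given).
-/

set_option autoImplicit false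

namespace Pool.Agent.CYL

open Complex Finset Matrix
open Pool.Agent.BEX
open scoped ComplexOrder

section Abs

variable {ι : Type*} [Fintype ι] [DecidableEq ι]

theorem pow_succ_pos_of_diag {A : Matrix ι ι ℝ} (h0 : ∀ i j, 0 ≤ A i j) (hd : ∀ i, 0 < A i i)
    {n : ℕ} {b a : ι} (h : 0 < (A ^ n) b a) : 0 < (A ^ (n + 1)) b a := by
  rw [pow_succ, mul_apply]
  refine Finset.sum_pos' (fun j _ => mul_nonneg (pow_nonneg_entry h0 n b j) (h0 j a))
    ⟨a, Finset.mem_univ a, mul_pos h (hd a)⟩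

theorem pow_pos_of_le {A : Matrix ι ι ℝ} (h0 : ∀ i j, 0 ≤ A i j) (hd : ∀ i, 0 < A i i)
    {n m : ℕ} (hnm : n ≤ m) {b a : ι} (h : 0 < (A ^ n) b a) : 0 < (A ^ m) b a := by
  induction m, hnm using Nat.le_induction with
  | base => exact h
  | succ k _ ih => exact pow_succ_pos_of_diag h0 hd ih

/-- a nonnegative matrix with positive diagonal and strongly connected graph is primitive -/
theorem isPrimitive_of_diag {A : Matrix ι ι ℝ} (h0 : ∀ i j, 0 ≤ A i j) (hd : ∀ i, 0 < A i i)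
    (hr : ∀ a b, Relation.ReflTransGen (fun a b => 0 < A b a) a b) : A.IsPrimitive := by
  have h1 : ∀ a b, ∃ n, 0 < (A ^ n) b a := by
    intro a b
    induction hr a b with
    | refl => exact ⟨0, by simp⟩
    | @tail b c _ hbc ih =>
      obtain ⟨n, hn⟩ := ih
      refine ⟨n + 1, ?_⟩
      rw [pow_succ', mul_apply]
      exact Finset.sum_pos' (fun j _ => mul_nonneg (h0 c j) (pow_nonneg_entry h0 n j a))
        ⟨b, Finset.mem_univ b, mul_pos hbc hn⟩
  choose f hf using h1
  refine ⟨h0, (∑ p : ι × ι, f p.1 p.2) + 1, Nat.succ_pos _, fun b a => ?_⟩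
  refine pow_pos_of_le h0 hd ?_ (hf a b)
  exact le_trans (Finset.single_le_sum (f := fun p : ι × ι => f p.1 p.2)
    (fun _ _ => Nat.zero_le _) (Finset.mem_univ (a, b))) (Nat.le_succ _)

/-- a nonnegative matrix with a primitive power is primitive -/
theorem isPrimitive_of_pow {A : Matrix ι ι ℝ} (h0 : ∀ i j, 0 ≤ A i j) {k : ℕ} (hk : 0 < k)
    (h : (A ^ k).IsPrimitive) : A.IsPrimitive := by
  obtain ⟨n, hn, hpos⟩ := h.exists_pos_pow
  exact ⟨h0, k * n, Nat.mul_pos hk hn, fun i j => by rw [pow_mul]; exact hpos i j⟩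

end Abs

section Iter

variable {L l : ℕ}

theorem iter_Tc (hpl : Pla L l) (v : ℂ) (U : Fin L → ℂ) (n : ℕ) {F : Sts L l → ℂ} (hF : Sup F) :
    Sup ((Tf v U)^[n] F) ∧ ∀ j : Kc L l, ((Tf v U)^[n] F) j.1 =
      ∑ i : Kc L l, F i.1 * ((Tc v U ^ n : Matrix (Kc L l) (Kc L l) ℂ)) i j := by
  induction n with
  | zero =>
    refine ⟨hF, fun j => ?_⟩
    simp [Matrix.one_apply]
  | succ n ih =>
    obtain ⟨h1, h2⟩ := ih
    rw [Function.iterate_succ_apply']
    refine ⟨hpl.sup v U _ h1, fun j => ?_⟩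
    rw [Tf_eq_sum]
    have h3 : ∑ m', ((Tf v U)^[n] F) m' * Tm v U m' j.1 =
        ∑ i : Kc L l, ((Tf v U)^[n] F) i.1 * Tc v U i j := by
      symm
      refine sum_Kc (fun m' => ((Tf v U)^[n] F) m' * Tm v U m' j.1) fun m hm => ?_
      by_cases hc : Chi m
      · rw [hpl.tm_cls v U m j.1 j.2 hc hm, mul_zero]
      · rw [h1 m hc, zero_mul]
    rw [h3]
    calc ∑ i : Kc L l, ((Tf v U)^[n] F) i.1 * Tc v U i j
        = ∑ i : Kc L l, ∑ h : Kc L l,
            F h.1 * ((Tc v U ^ n : Matrix (Kc L l) (Kc L l) ℂ) h i * Tc v U i j) := by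
          refine Finset.sum_congr rfl fun i _ => ?_
          rw [h2 i, Finset.sum_mul]
          exact Finset.sum_congr rfl fun h _ => by ring
      _ = ∑ h : Kc L l, F h.1 * ((Tc v U ^ (n + 1) : Matrix (Kc L l) (Kc L l) ℂ)) h j := by
          rw [Finset.sum_comm]
          refine Finset.sum_congr rfl fun h _ => ?_
          rw [pow_succ, mul_apply, Finset.mul_sum]

theorem iter_single (hpl : Pla L l) (v : ℂ) (U : Fin L → ℂ) (n : ℕ) (i j : Kc L l) :
    ((Tf v U)^[n] (Pi.single i.1 1)) j.1 = ((Tc v U ^ n : Matrix (Kc L l) (Kc L l) ℂ)) i j := by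
  rw [(iter_Tc hpl v U n (Sup_single i.2.1)).2 j]
  rw [Finset.sum_eq_single i]
  · rw [Pi.single_eq_same, one_mul]
  · intro h _ hne
    rw [Pi.single_apply, if_neg, zero_mul]
    exact fun h' => hne (Subtype.ext h')
  · intro h
    exact absurd (Finset.mem_univ i) h

theorem Bc_pow {v : ℂ} {U : Fin L → ℂ} (h : Nn (l := l) v U) (n : ℕ) :
    ((Bc (l := l) v U) ^ n).map (Complex.ofReal) = Tc v U ^ n := by
  induction n with
  | zero =>
    rw [pow_zero, pow_zero]
    exact Matrix.map_one _ Complex.ofReal_zero Complex.ofReal_one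
  | succ n ih =>
    rw [pow_succ, pow_succ, ← ih, ← Bc_map h]
    ext i j
    simp only [Matrix.map_apply, mul_apply]
    push_cast
    rfl

/-- `T(v; U)` is nonnegative; its `k`-th power realises the identity and the moves -/
structure PosOp {L : ℕ} (l k : ℕ) (v : ℂ) (U : Fin L → ℂ) : Prop where
  nonneg : ∀ F : Sts L l → ℂ, (∀ m, 0 ≤ F m) → ∀ m, 0 ≤ Tf v U F m
  step : ∀ F : Sts L l → ℂ, (∀ m, 0 ≤ F m) → ∀ m m', (m = m' ∨ Stp m m') → 0 < F m' →
    0 < ((Tf v U)^[k] F) m

theorem PosOp.nn {k : ℕ} {v : ℂ} {U : Fin L → ℂ} (h : PosOp l k v U) : Nn (l := l) v U := by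
  intro m' m
  have h1 : 0 ≤ Tf v U (Pi.single m'.1 1) m.1 := by
    refine h.nonneg _ (fun n => ?_) _
    rw [Pi.single_apply]
    split_ifs
    · exact zero_le_one
    · exact le_refl _
  obtain ⟨h2, h3⟩ := Complex.nonneg_iff.1 h1
  refine ⟨?_, h2⟩
  rw [Tc_apply, Bc_apply]
  apply Complex.ext
  · simp
  · simp [← h3]

theorem PosOp.iter_nonneg {k : ℕ} {v : ℂ} {U : Fin L → ℂ} (h : PosOp l k v U)
    {F : Sts L l → ℂ} (hF : ∀ m, 0 ≤ F m) (n : ℕ) : ∀ m, 0 ≤ ((Tf v U)^[n] F) m := by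
  induction n with
  | zero => exact hF
  | succ n ih =>
    rw [Function.iterate_succ_apply']
    exact h.nonneg _ ih

/-- primitivity from positivity of the moves -/
theorem realPrim_of_pos (hpl : Pla L l) {k : ℕ} (hk : 0 < k) {v : ℂ} {U : Fin L → ℂ}
    (h : PosOp l k v U)
    (hr : ∀ m m' : Sts L l, Cls m → Cls m' → Relation.ReflTransGen Stp m m') :
    RealPrim l v U := by
  refine ⟨h.nn, ?_⟩
  have hnn : ∀ i j : Kc L l, 0 ≤ Bc v U i j := fun i j => (h.nn i j).2
  have hs : ∀ i : Kc L l, ∀ m, 0 ≤ (Pi.single i.1 1 : Sts L l → ℂ) m := by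
    intro i m
    rw [Pi.single_apply]
    split_ifs
    · exact zero_le_one
    · exact le_refl _
  -- positivity after enough steps
  have h1 : ∀ i : Kc L l, ∀ m : Sts L l, Relation.ReflTransGen Stp m i.1 →
      ∃ n, 0 < ((Tf v U)^[k * n] (Pi.single i.1 1)) m := by
    intro i m hm
    induction hm using Relation.ReflTransGen.head_induction_on with
    | refl => exact ⟨0, by simp⟩
    | head hab _ ih =>
      obtain ⟨n, hn⟩ := ih
      refine ⟨n + 1, ?_⟩
      rw [mul_add, mul_one, add_comm, Function.iterate_add_apply]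
      exact h.step _ (h.iter_nonneg (hs i) _) _ _ (Or.inr hab) hn
  have h2 : ∀ (i : Kc L l) (m : Sts L l) (n n' : ℕ), n ≤ n' →
      0 < ((Tf v U)^[k * n] (Pi.single i.1 1)) m → 0 < ((Tf v U)^[k * n'] (Pi.single i.1 1)) m := by
    intro i m n n' hnn'
    induction n', hnn' using Nat.le_induction with
    | base => exact fun h => h
    | succ n' _ ih =>
      intro h3
      rw [mul_add, mul_one, add_comm, Function.iterate_add_apply]
      exact h.step _ (h.iter_nonneg (hs i) _) _ _ (Or.inl rfl) (ih h3)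
  have h3 : ∀ p : Kc L l × Kc L l, ∃ n, 0 < ((Tf v U)^[k * n] (Pi.single p.1.1 1)) p.2.1 :=
    fun p => h1 p.1 p.2.1 (hr _ _ p.2.2 p.1.2)
  choose f hf using h3
  refine ⟨hnn, k * ((∑ p, f p) + 1), Nat.mul_pos hk (Nat.succ_pos _), fun i j => ?_⟩
  have h4 := h2 i j.1 (f (i, j)) ((∑ p, f p) + 1)
    (le_trans (Finset.single_le_sum (f := f) (fun _ _ => Nat.zero_le _)
      (Finset.mem_univ (i, j))) (Nat.le_succ _)) (hf (i, j))
  rw [iter_single hpl, ← Bc_pow h.nn, Matrix.map_apply] at h4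
  exact_mod_cast h4

end Iter

end Pool.Agent.CYL
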