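import Pool.Agent.BEX.ACapRt
import Pool.Agent.BEX.ACyc
import Pool.Agent.BEX.AFix3
import Pool.Agent.CYG.P.Mv
import Pool.Agent.CYG.P.Prim

/-!
# CYL, part P, item P3: positivity of `T(v; U)` when all `v - U i` are real and in `[lam, 2 lam]`

All weights are nonnegative, only `w8` (at `2 lam`) and `w9` (at `lam`) can vanish. The operator is nonnegative, its
diagonal entries and its entries at the moves `Stp` are positive (one step). The seam is treated by `Tt_cyc`.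
-/

set_option autoImplicit false

namespace Pool.Agent.CYL

open Complex Finset
open Pool.Agent.BEX
open scoped ComplexOrder

namespace PA

/-- All weights are nonnegative, the first four are positive. -/
structure Wa (u : ℂ) : Prop where
  k : 0 < kk u
  h2 : 0 < w2 u
  h4 : 0 < w4 u
  h6 : 0 < w6 u
  h8 : 0 ≤ w8 u
  h9 : 0 ≤ w9 u

theorem sin_pos_of {y : ℝ} (h0 : 0 < y) (h1 : y < Real.pi) : (0 : ℂ) < sin (y : ℂ) := by
  rw [← ofReal_sin]
  exact_mod_cast Real.sin_pos_of_pos_of_lt_pi h0 h1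

theorem sin_nn_of {y : ℝ} (h0 : 0 ≤ y) (h1 : y ≤ Real.pi) : (0 : ℂ) ≤ sin (y : ℂ) := by
  rw [← ofReal_sin]
  exact_mod_cast Real.sin_nonneg_of_nonneg_of_le_pi h0 h1

theorem wa_of {x : ℝ} (h1 : Real.pi / 8 ≤ x) (h2 : x ≤ Real.pi / 4) : Wa (x : ℂ) := by
  have hp := Real.pi_pos
  have e2 : sin (2 * lam) = sin ((Real.pi / 4 : ℝ) : ℂ) := by
    congr 1; unfold lam; push_cast; ring
  have e2x : sin (2 * lam + (x : ℂ)) = sin ((Real.pi / 4 + x : ℝ) : ℂ) := by
    congr 1; unfold lam; push_cast; ring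
  have e3x : sin (3 * lam + (x : ℂ)) = sin ((3 * Real.pi / 8 + x : ℝ) : ℂ) := by
    congr 1; unfold lam; push_cast; ring
  have e3m : sin (3 * lam - (x : ℂ)) = sin ((3 * Real.pi / 8 - x : ℝ) : ℂ) := by
    congr 1; unfold lam; push_cast; ring
  have e2m : sin (2 * lam - (x : ℂ)) = sin ((Real.pi / 4 - x : ℝ) : ℂ) := by
    congr 1; unfold lam; push_cast; ring
  have e1m : -(sin (x : ℂ) * sin (lam - (x : ℂ))) = sin (x : ℂ) * sin ((x - Real.pi / 8 : ℝ) : ℂ) := by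
    rw [show lam - (x : ℂ) = -((x - Real.pi / 8 : ℝ) : ℂ) by unfold lam; push_cast; ring, sin_neg]
    ring
  refine ⟨?_, ?_, ?_, ?_, ?_, ?_⟩
  · unfold kk
    rw [e2x, e3x]
    exact mul_pos (sin_pos_of (by linarith) (by linarith)) (sin_pos_of (by linarith) (by linarith))
  · unfold w2
    rw [e2, e3m]
    exact mul_pos (sin_pos_of (by linarith) (by linarith)) (sin_pos_of (by linarith) (by linarith))
  · unfold w4
    rw [e2]
    exact mul_pos (sin_pos_of (by linarith) (by linarith)) (sin_pos_of (by linarith) (by linarith))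
  · unfold w6
    rw [e3m]
    exact mul_pos (sin_pos_of (by linarith) (by linarith)) (sin_pos_of (by linarith) (by linarith))
  · unfold w8
    rw [e2m, e3m]
    exact mul_nonneg (sin_nn_of (by linarith) (by linarith)) (sin_pos_of (by linarith) (by linarith)).le
  · unfold w9
    rw [e1m]
    exact mul_nonneg (sin_pos_of (by linarith) (by linarith)).le (sin_nn_of (by linarith) (by linarith))

section loc

variable {κ : Type*} [DecidableEq κ]

theorem Rt_nn {u : ℂ} (hu : Wa u) (p q : κ) {G : St κ → ℂ} (hG : ∀ m, 0 ≤ G m) (m : St κ) :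
    0 ≤ Rt p q u G m := by
  have a := hu.k.le
  have b := hu.h2.le
  have c := hu.h4.le
  have d := hu.h6.le
  have e := hu.h8
  have f := hu.h9
  unfold Rt
  split_ifs
  · exact add_nonneg (mul_nonneg a (hG _)) (mul_nonneg c (hG _))
  · exact add_nonneg (mul_nonneg d (hG _)) (mul_nonneg b (hG _))
  · exact add_nonneg (mul_nonneg d (hG _)) (mul_nonneg b (hG _))
  · exact mul_nonneg e (hG _)
  · exact add_nonneg (add_nonneg (mul_nonneg e (hG _)) (mul_nonneg f (hG _))) (mul_nonneg c (hG _))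

/-- the first line empty, nothing happens -/
theorem Rt_id {u : ℂ} (hu : Wa u) (p q : κ) {G : St κ → ℂ} (hG : ∀ m, 0 ≤ G m) (m : St κ) (hp : m p = p)
    (h : 0 < G m) : 0 < Rt p q u G m := by
  unfold Rt
  rw [if_pos hp]
  split_ifs
  · exact add_pos_of_pos_of_nonneg (mul_pos hu.k h) (mul_nonneg hu.h4.le (hG _))
  · exact add_pos_of_pos_of_nonneg (mul_pos hu.h6 h) (mul_nonneg hu.h2.le (hG _))

theorem Rt_turn1 {u : ℂ} (hu : Wa u) (p q : κ) {G : St κ → ℂ} (hG : ∀ m, 0 ≤ G m) (m : St κ) (hp : m p = p)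
    (hq : m q ≠ q) (h : 0 < G (m.sw p q)) : 0 < Rt p q u G m := by
  unfold Rt
  rw [if_pos hp, if_neg hq]
  exact add_pos_of_nonneg_of_pos (mul_nonneg hu.h6.le (hG _)) (mul_pos hu.h2 h)

theorem Rt_turn2 {u : ℂ} (hu : Wa u) (p q : κ) {G : St κ → ℂ} (hG : ∀ m, 0 ≤ G m) (m : St κ) (hp : m p ≠ p)
    (hq : m q = q) (h : 0 < G (m.sw p q)) : 0 < Rt p q u G m := by
  unfold Rt
  rw [if_neg hp, if_pos hq]
  exact add_pos_of_nonneg_of_pos (mul_nonneg hu.h6.le (hG _)) (mul_pos hu.h2 h)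

theorem Rt_cup {u : ℂ} (hu : Wa u) (p q : κ) {G : St κ → ℂ} (hG : ∀ m, 0 ≤ G m) (m : St κ) (hp : m p = p)
    (hq : m q = q) (h : 0 < G (m.jn p q)) : 0 < Rt p q u G m := by
  unfold Rt
  rw [if_pos hp, if_pos hq]
  exact add_pos_of_nonneg_of_pos (mul_nonneg hu.k.le (hG _)) (mul_pos hu.h4 h)

theorem Rt_cap {u : ℂ} (hu : Wa u) (p q : κ) {G : St κ → ℂ} (hG : ∀ m, 0 ≤ G m) (m : St κ) (hp : m p ≠ p)
    (hq : m q ≠ q) (hpq : m p ≠ q) (h : 0 < G (m.cp p q)) : 0 < Rt p q u G m := by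
  unfold Rt
  rw [if_neg hp, if_neg hq, if_neg hpq]
  exact add_pos_of_nonneg_of_pos (add_nonneg (mul_nonneg hu.h8 (hG _)) (mul_nonneg hu.h9 (hG _)))
    (mul_pos hu.h4 h)

theorem sw_symm (p q : κ) (m : St κ) : m.sw p q = m.sw q p := by
  rw [sw_eq_cj, sw_eq_cj, Equiv.swap_comm]

/-- a hop in two turns -/
theorem hop_id {a p q : κ} (hap : a ≠ p) (hpq : p ≠ q) {m : St κ} (ha : m a = a) (hq : m q = q) :
    (m.sw a p).sw a q = m.sw p q := by
  rw [sw_symm a p, sw_sw_fix hap.symm hpq ha hq]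

/-- a cup and a turn -/
theorem cup_id {a p q : κ} (hap : a ≠ p) (haq : a ≠ q) (hpq : p ≠ q) {m : St κ} (ha : m a = a) (hp : m p = p)
    (hq : m q = q) : (m.jn a p).sw a q = m.jn p q := by
  refine St.ext' fun x => ?_
  have e1 : ∀ y, (m.jn a p) y = if y = a then p else if y = p then a else m y :=
    fun y => St.jn_apply _ _ _ _ ha hp
  rw [St.sw_ap, St.jn_apply m p q x hp hq]
  simp only [e1]
  have h1 : ∀ y, m y = a → y = a := fun y h => m.inj (h.trans ha.symm)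
  have h2 : ∀ y, m y = p → y = p := fun y h => m.inj (h.trans hp.symm)
  have h3 : ∀ y, m y = q → y = q := fun y h => m.inj (h.trans hq.symm)
  grind

/-- a turn and a cap -/
theorem cap_id {a p q : κ} (hap : a ≠ p) (haq : a ≠ q) (hpq : p ≠ q) {m : St κ} (ha : m a = a) (hp : m p ≠ p)
    (hq : m q ≠ q) (h : m p ≠ q) : (m.sw a p) a ≠ a ∧ (m.sw a p) q ≠ q ∧ (m.sw a p) a ≠ q ∧
      (m.sw a p).cp a q = m.cp p q := by
  have e1 : (m.sw a p) a = m p := by
    rw [sw_symm]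
    exact sw_at_right hp ha
  have hpa : m p ≠ a := fun h' => hap (by rw [← m.inv p, h', ha])
  have hqa : m q ≠ a := fun h' => haq (by rw [← m.inv q, h', ha])
  have hqp : m q ≠ p := fun h' => h (by rw [← h', m.inv])
  have e2 : (m.sw a p) q = m q := by
    rw [sw_symm]
    exact sw_at_ne' hpq.symm haq.symm hqp hqa
  have e3 : (m.sw a p) p = p := by
    rw [sw_symm]
    exact sw_at_left ha
  refine ⟨by rw [e1]; exact hpa, by rw [e2]; exact hq, by rw [e1]; exact h, ?_⟩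
  refine St.ext' fun x => ?_
  rw [St.cp_apply _ a q x (by rw [e1]; exact hpa) (by rw [e2]; exact hq), St.cp_apply m p q x hp hq, e1, e2]
  by_cases h1 : x = a
  · subst h1
    rw [if_pos rfl, if_neg hap, if_neg haq, if_neg hpa.symm, if_neg hqa.symm, ha]
  rw [if_neg h1]
  by_cases h2 : x = p
  · subst h2
    rw [if_pos rfl, if_neg hpq, if_neg hp.symm, if_neg hqp.symm, e3]
  rw [if_neg h2]
  by_cases h3 : x = q
  · rw [if_pos h3, if_pos h3]
  rw [if_neg h3, if_neg h3]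
  by_cases h4 : x = m p
  · rw [if_pos h4, if_pos h4]
  rw [if_neg h4, if_neg h4]
  by_cases h5 : x = m q
  · rw [if_pos h5, if_pos h5]
  rw [if_neg h5, if_neg h5]
  rw [sw_symm]
  refine sw_at_ne' h2 h1 (fun h' => h4 ?_) (fun h' => h1 ?_)
  · rw [← h', m.inv]
  · rw [← m.inv x, h', ha]

end loc

section gen

variable {ι : Type*} [DecidableEq ι]

theorem Fo_nn {v : ℂ} {U : ι → ℂ} (l : List ι) (hl : ∀ i ∈ l, Wa (v - U i))
    {G : St (Option (Option ι)) → ℂ} (hG : ∀ m, 0 ≤ G m) (m : St (Option (Option ι))) : 0 ≤ Fo l v U G m := by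
  induction l generalizing m with
  | nil => exact hG m
  | cons i l ih =>
    rw [Fo_cons]
    exact Rt_nn (hl i List.mem_cons_self) _ _ (ih fun j hj => hl j (List.mem_cons_of_mem _ hj)) m

theorem Fo_id {v : ℂ} {U : ι → ℂ} (l : List ι) (hl : ∀ i ∈ l, Wa (v - U i))
    {G : St (Option (Option ι)) → ℂ} (hG : ∀ m, 0 ≤ G m) (m : St (Option (Option ι))) (hm : m ax = ax)
    (h : 0 < G m) : 0 < Fo l v U G m := by
  induction l with
  | nil => exact h
  | cons i l ih =>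
    rw [Fo_cons]
    exact Rt_id (hl i List.mem_cons_self) _ _ (Fo_nn l (fun j hj => hl j (List.mem_cons_of_mem _ hj)) hG) m hm
      (ih fun j hj => hl j (List.mem_cons_of_mem _ hj))

theorem Fo_append (l₁ l₂ : List ι) (v : ℂ) (U : ι → ℂ) (G : St (Option (Option ι)) → ℂ) :
    Fo (l₁ ++ l₂) v U G = Fo l₁ v U (Fo l₂ v U G) := by
  unfold Fo
  rw [List.foldr_append]

theorem capF_nn [Fintype ι] {F : St ι → ℂ} (hF : ∀ m, 0 ≤ F m) (M : St (Option (Option ι))) : 0 ≤ capF F M := by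
  unfold capF
  split_ifs
  · exact hF _
  · exact le_rfl
  · exact le_rfl
  · exact le_rfl
  · exact hF _

theorem Tt_nn [Fintype ι] {v : ℂ} {U : ι → ℂ} (l : List ι) (hl : ∀ i ∈ l, Wa (v - U i)) {F : St ι → ℂ}
    (hF : ∀ m, 0 ≤ F m) (m : St ι) : 0 ≤ Tt l v U F m := by
  rw [Tt_eq]
  exact add_nonneg (Fo_nn l hl (capF_nn hF) _) (Fo_nn l hl (capF_nn hF) _)

theorem Tt_id [Fintype ι] {v : ℂ} {U : ι → ℂ} (l : List ι) (hl : ∀ i ∈ l, Wa (v - U i)) {F : St ι → ℂ}
    (hF : ∀ m, 0 ≤ F m) (m : St ι) (h : 0 < F m) : 0 < Tt l v U F m := by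
  rw [Tt_eq]
  refine add_pos_of_pos_of_nonneg (Fo_id l hl (capF_nn hF) _ (ext0_ax m) ?_) (Fo_nn l hl (capF_nn hF) _)
  rw [capF_ext0]
  exact h

/-- The three moves at two labels. -/
def Mr (a b : ι) (m m' : St ι) : Prop :=
  (m a ≠ a ∧ m b = b ∧ m' = m.sw a b) ∨ (m a = a ∧ m b = b ∧ m' = m.jn a b) ∨
    (m a ≠ a ∧ m b ≠ b ∧ m a ≠ b ∧ m' = m.cp a b)

theorem Tt_mv [Fintype ι] {v : ℂ} {U : ι → ℂ} (l₁ l₂ : List ι) {p q : ι} (hpq : p ≠ q)
    (hl : ∀ i ∈ l₁ ++ p :: q :: l₂, Wa (v - U i)) {F : St ι → ℂ} (hF : ∀ m, 0 ≤ F m) (m m' : St ι)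
    (hm : Mr p q m m') (h : 0 < F m') : 0 < Tt (l₁ ++ p :: q :: l₂) v U F m := by
  have hl1 : ∀ i ∈ l₁, Wa (v - U i) := fun i hi => hl i (by simp [hi])
  have hl2 : ∀ i ∈ l₂, Wa (v - U i) := fun i hi => hl i (by simp [hi])
  have hl3 : ∀ i ∈ q :: l₂, Wa (v - U i) := fun i hi => hl i (by
    rcases List.mem_cons.1 hi with h | h <;> simp [h])
  have hl4 : ∀ i ∈ p :: q :: l₂, Wa (v - U i) := fun i hi => hl i (List.mem_append_right _ hi)
  have hp : Wa (v - U p) := hl4 p List.mem_cons_self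
  have hq : Wa (v - U q) := hl3 q List.mem_cons_self
  have hc := capF_nn hF
  rw [Tt_eq]
  refine add_pos_of_pos_of_nonneg ?_ (Fo_nn _ hl hc _)
  rw [Fo_append]
  refine Fo_id l₁ hl1 (Fo_nn _ hl4 hc) _ (ext0_ax m) ?_
  rw [Fo_cons, Fo_cons]
  have n3 := Fo_nn _ hl3 hc
  rw [Fo_cons] at n3
  have n2 := Fo_nn _ hl2 hc
  have f2 : 0 < Fo l₂ v U (capF F) (ext0 m') := Fo_id l₂ hl2 hc _ (ext0_ax m') (by rw [capF_ext0]; exact h)
  have hap : (ax : Option (Option ι)) ≠ lb p := by simp [ax, lb]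
  have haq : (ax : Option (Option ι)) ≠ lb q := by simp [ax, lb]
  have hpq' : (lb p : Option (Option ι)) ≠ lb q := fun e => hpq (lb_inj e)
  have e0 : ∀ i, (ext0 m) (lb i) = lb i ↔ m i = i := by
    intro i
    rw [ext0_lb]
    exact ⟨fun e => lb_inj e, fun e => by rw [e]⟩
  rcases hm with ⟨a1, a2, rfl⟩ | ⟨a1, a2, rfl⟩ | ⟨a1, a2, a3, rfl⟩
  · have b1 : (ext0 m) (lb p) ≠ lb p := fun e => a1 ((e0 p).1 e)
    have b2 : (ext0 m) (lb q) = lb q := (e0 q).2 a2
    refine Rt_turn1 hp _ _ n3 _ (ext0_ax m) b1 ?_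
    have c1 : ((ext0 m).sw ax (lb p)) ax = ext0 m (lb p) := by
      rw [sw_symm]
      exact sw_at_right b1 (ext0_ax m)
    have c2 : ((ext0 m).sw ax (lb p)) (lb q) = lb q := by
      rw [sw_symm, sw_at_ne' hpq'.symm haq.symm, b2]
      · rw [b2]; exact hpq'.symm
      · rw [b2]; exact haq.symm
    refine Rt_turn2 hq _ _ n2 _ ?_ c2 ?_
    · rw [c1, ext0_lb]
      simp [ax, lb]
    · rw [hop_id hap hpq' (ext0_ax m) b2]
      have e : (ext0 m).sw (lb p) (lb q) = ext0 (m.sw p q) := by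
        rw [ext0_eq, ext0_eq, Phi_sw]
      rw [e]
      exact f2
  · have b1 : (ext0 m) (lb p) = lb p := (e0 p).2 a1
    have b2 : (ext0 m) (lb q) = lb q := (e0 q).2 a2
    refine Rt_cup hp _ _ n3 _ (ext0_ax m) b1 ?_
    have c1 : ((ext0 m).jn ax (lb p)) ax = lb p := by
      rw [St.jn_apply _ _ _ _ (ext0_ax m) b1, if_pos rfl]
    have c2 : ((ext0 m).jn ax (lb p)) (lb q) = lb q := by
      rw [St.jn_apply _ _ _ _ (ext0_ax m) b1, if_neg haq.symm, if_neg hpq'.symm, b2]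
    refine Rt_turn2 hq _ _ n2 _ (by rw [c1]; exact hap.symm) c2 ?_
    rw [cup_id hap haq hpq' (ext0_ax m) b1 b2]
    have e : (ext0 m).jn (lb p) (lb q) = ext0 (m.jn p q) := by
      rw [ext0_eq, ext0_eq, Phi_jn]
    rw [e]
    exact f2
  · have b1 : (ext0 m) (lb p) ≠ lb p := fun e => a1 ((e0 p).1 e)
    have b2 : (ext0 m) (lb q) ≠ lb q := fun e => a2 ((e0 q).1 e)
    have b3 : (ext0 m) (lb p) ≠ lb q := by
      rw [ext0_lb]
      exact fun e => a3 (lb_inj e)
    obtain ⟨c1, c2, c3, c4⟩ := cap_id hap haq hpq' (ext0_ax m) b1 b2 b3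
    refine Rt_turn1 hp _ _ n3 _ (ext0_ax m) b1 ?_
    refine Rt_cap hq _ _ n2 _ c1 c2 c3 ?_
    rw [c4]
    have e : (ext0 m).cp (lb p) (lb q) = ext0 (m.cp p q) := by
      rw [ext0_eq, ext0_eq, Phi_cp]
    rw [e]
    exact f2

end gen

variable {L l : ℕ}

theorem lns_nodup' (L l : ℕ) : (lns L l).Nodup := by
  unfold lns
  exact (List.nodup_finRange L).map Sum.inl_injective

theorem mem_lns {x : Lb L l} (h : x ∈ lns L l) : ∃ i, x = Sum.inl i := by
  unfold lns at h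
  obtain ⟨i, -, rfl⟩ := List.mem_map.1 h
  exact ⟨i, rfl⟩

/-- the list of the lines around two neighbours that are not at the seam -/
theorem lns_split {i : ℕ} (hi : i + 1 < L) : ∃ l₁ l₂, lns L l =
    l₁ ++ Sum.inl (⟨i, by omega⟩ : Fin L) :: Sum.inl ⟨i + 1, hi⟩ :: l₂ := by
  refine ⟨(lns L l).take i, (lns L l).drop (i + 2), ?_⟩
  have hlen : (lns L l).length = L := by simp [lns]
  have h1 : i < (lns L l).length := by omega
  have h2 : i + 1 < (lns L l).length := by omega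
  conv_lhs => rw [← List.take_append_drop i (lns L l)]
  rw [List.drop_eq_getElem_cons h1, List.drop_eq_getElem_cons h2]
  congr 2
  · simp [lns]
  · congr 1
    simp [lns]

/-- the rotated list, for the seam -/
theorem lns_seam (hL : 2 ≤ L) : ∃ l₁ l₂, lns L l = Sum.inl (⟨0, by omega⟩ : Fin L) :: l₂ ∧
    l₂ ++ [Sum.inl (⟨0, by omega⟩ : Fin L)] =
      l₁ ++ Sum.inl (⟨L - 1, by omega⟩ : Fin L) :: Sum.inl ⟨0, by omega⟩ :: [] := by
  have hlen : (lns L l).length = L := by simp [lns]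
  have h0 : lns L l = Sum.inl (⟨0, by omega⟩ : Fin L) :: (lns L l).drop 1 := by
    have h1 : 0 < (lns L l).length := by omega
    have h2 := List.drop_eq_getElem_cons h1
    rw [List.drop_zero] at h2
    rw [h2]
    congr 1
    simp [lns]
  refine ⟨((lns L l).drop 1).take (L - 2), (lns L l).drop 1, h0, ?_⟩
  have hlast : (lns L l).drop 1 = ((lns L l).drop 1).take (L - 2) ++ [Sum.inl (⟨L - 1, by omega⟩ : Fin L)] := by
    conv_lhs => rw [← List.take_append_drop (L - 2) ((lns L l).drop 1)]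
    congr 1
    rw [List.drop_drop]
    have h3 : 1 + (L - 2) < (lns L l).length := by omega
    rw [List.drop_eq_getElem_cons h3, List.drop_eq_nil_of_le (by omega)]
    congr 1
    simp only [lns, List.getElem_map, List.getElem_finRange]
    congr 1
    apply Fin.ext
    simp
    omega
  conv_lhs => rw [hlast]
  simp

end PA

open PA in
/-- Positivity of `T(v; U)`. -/
theorem posA {L : ℕ} (l : ℕ) (hL : 2 ≤ L) {v : ℝ} {U : Fin L → ℂ} {r : Fin L → ℝ} (hU : ∀ i, U i = (r i : ℂ))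
    (h1 : ∀ i, Real.pi / 8 ≤ v - r i) (h2 : ∀ i, v - r i ≤ Real.pi / 4) : PosOp l 1 (v : ℂ) U := by
  have hw : ∀ i, Wa ((v : ℂ) - U i) := by
    intro i
    have := wa_of (h1 i) (h2 i)
    rw [hU]
    push_cast at this
    exact this
  have hl : ∀ x ∈ lns L l, Wa ((v : ℂ) - rap U x) := by
    intro x hx
    obtain ⟨i, rfl⟩ := mem_lns hx
    exact hw i
  refine ⟨fun F hF m => Tt_nn _ hl hF m, fun F hF m m' hmm hpos => ?_⟩
  rw [Function.iterate_one]
  rcases hmm with rfl | hst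
  · exact Tt_id _ hl hF m hpos
  have key : ∃ i : Fin L, Mr (Sum.inl i : Lb L l) (Sum.inl (ad i 1)) m m' := by
    rcases hst with ⟨i, h1, h2⟩ | ⟨i, h0, h1, h2⟩ | ⟨i, h0, h1, h2, h3⟩
    · exact ⟨i, Or.inl ⟨h1, h2, rfl⟩⟩
    · exact ⟨i, Or.inr (Or.inl ⟨h1, h2, rfl⟩)⟩
    · exact ⟨i, Or.inr (Or.inr ⟨h1, h2, h3, rfl⟩)⟩
  obtain ⟨i, hi⟩ := key
  by_cases hs : i.val + 1 < L
  · have had : ad i 1 = ⟨i.val + 1, hs⟩ := by
      apply Fin.ext
      rw [ad_val, Nat.mod_eq_of_lt hs]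
    obtain ⟨l₁, l₂, he⟩ := lns_split (l := l) hs
    rw [had] at hi
    rw [he] at hl
    unfold Tf
    rw [he]
    refine Tt_mv l₁ l₂ (fun e => ?_) hl hF m m' hi hpos
    have := congrArg Fin.val (Sum.inl.inj e)
    simp at this
  · have hiL : i.val = L - 1 := by have := i.isLt; omega
    have hi0 : i = ⟨L - 1, by omega⟩ := Fin.ext hiL
    have had : ad i 1 = ⟨0, by omega⟩ := by
      apply Fin.ext
      rw [ad_val, hiL, Nat.sub_add_cancel (by omega), Nat.mod_self]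
    obtain ⟨l₁, l₂, he, he'⟩ := lns_seam (l := l) hL
    rw [had] at hi
    have hi' : Mr (Sum.inl (⟨L - 1, by omega⟩ : Fin L) : Lb L l) (Sum.inl (⟨0, by omega⟩ : Fin L)) m m' := by
      rw [← hi0]
      exact hi
    have hn := lns_nodup' L l
    rw [he] at hn hl
    unfold Tf
    rw [he, Tt_cyc _ _ hn, he']
    refine Tt_mv l₁ [] (fun e => ?_) ?_ hF m m' hi' hpos
    · have := congrArg Fin.val (Sum.inl.inj e)
      simp at this
      omega
    · intro x hx
      rw [← he'] at hx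
      apply hl
      rcases List.mem_append.1 hx with h | h
      · exact List.mem_cons_of_mem _ h
      · rw [List.mem_singleton] at h
        rw [h]
        exact List.mem_cons_self

end Pool.Agent.CYL
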