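import Pool.Agent.CYG.P.RchL
import Pool.Agent.CYG.P.PosA
import Pool.Agent.CYG.P.Planar

/-!
# CYL, part P, item P3: the states of the class are connected by the moves (every `l < L`)
-/

namespace Pool.Agent.CYL

open Pool.Agent.BEX Finset
open scoped ComplexOrder

variable {L l : ℕ}

/-! ### Step 3: from the arcless states to the class -/

theorem Jnd.symm {m : Sts L l} {i k : Fin L} (h : Jnd m i k) : Jnd m k i := by
  refine ⟨h.1.symm, ?_⟩
  rcases h.2 with h | ⟨j, j', hne, h1, h2⟩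
  · left; rw [← h]; simp
  · right; exact ⟨j', j, hne.symm, h2, h1⟩

/-- no crossing of an arc with an arc or with a pair of through-sites -/
theorem nj {m : Sts L l} (h : NC m) {i j k n : Fin L} (hij : i < j) (hjk : j < k) (hkn : k < n) (a : Jnd m i k)
    (b : Jnd m j n) (c : m (Sum.inl i) = Sum.inl k ∨ m (Sum.inl j) = Sum.inl n) : False := by
  rcases a.2 with a1 | ⟨ja, jb, -, a1, a2⟩
  · rcases b.2 with b1 | ⟨jc, jd, -, b1, b2⟩
    · exact h.1 i j k n hij hjk hkn a1 b1
    · have := (h.2.1 i k a1 j n ⟨jc, b1⟩ ⟨jd, b2⟩ hij hjk).2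
      exact absurd (hkn.trans this) (lt_irrefl _)
  · rcases b.2 with b1 | ⟨jc, jd, -, b1, b2⟩
    · have := (h.2.1 j n b1 k i ⟨jb, a2⟩ ⟨ja, a1⟩ hjk hkn).1
      exact absurd (hij.trans this) (lt_irrefl _)
    · rcases c with c | c
      · rw [a1] at c
        exact absurd c (by simp)
      · rw [b1] at c
        exact absurd c (by simp)

/-- no crossing, cyclic form -/
theorem nc_cyc {m : Sts L l} (h : NC m) (i : Fin L) {a b c : ℕ} (ha : 0 < a) (hab : a < b) (hbc : b < c)
    (hc : c < L) (h1 : Jnd m i (ad i b)) (h2 : Jnd m (ad i a) (ad i c))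
    (hx : m (Sum.inl i) = Sum.inl (ad i b) ∨ m (Sum.inl (ad i a)) = Sum.inl (ad i c)) : False := by
  have hx' : m (Sum.inl (ad i b)) = Sum.inl i ∨ m (Sum.inl (ad i c)) = Sum.inl (ad i a) := by
    rcases hx with hx | hx
    · left
      rw [← hx, m.inv]
    · right
      rw [← hx, m.inv]
  have hi := i.isLt
  have val : ∀ n < L, (ad i n).val = i.val + n ∨ ((ad i n).val + L = i.val + n) := by
    intro n hn
    rw [ad_val]
    by_cases h : i.val + n < L
    · left; exact Nat.mod_eq_of_lt h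
    · right
      rw [Nat.mod_eq_sub_mod (by omega), Nat.mod_eq_of_lt (by omega)]
      omega
  have va := val a (by omega)
  have vb := val b (by omega)
  have vc := val c hc
  have la := (ad i a).isLt
  have lb := (ad i b).isLt
  have lc := (ad i c).isLt
  by_cases wc : (ad i c).val = i.val + c
  · refine nj h (i := i) (j := ad i a) (k := ad i b) (n := ad i c) ?_ ?_ ?_ h1 h2 hx
    · rw [Fin.lt_def]; omega
    · rw [Fin.lt_def]; omega
    · rw [Fin.lt_def]; omega
  by_cases wb : (ad i b).val = i.val + b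
  · refine nj h (i := ad i c) (j := i) (k := ad i a) (n := ad i b) ?_ ?_ ?_ h2.symm h1
      (by rcases hx with hx | hx <;> [exact Or.inr hx; (left; rw [← hx, m.inv])])
    · rw [Fin.lt_def]; omega
    · rw [Fin.lt_def]; omega
    · rw [Fin.lt_def]; omega
  by_cases wa : (ad i a).val = i.val + a
  · refine nj h (i := ad i b) (j := ad i c) (k := i) (n := ad i a) ?_ ?_ ?_ h1.symm h2.symm hx'
    · rw [Fin.lt_def]; omega
    · rw [Fin.lt_def]; omega
    · rw [Fin.lt_def]; omega
  · refine nj h (i := ad i a) (j := ad i b) (k := ad i c) (n := i) ?_ ?_ ?_ h2 h1.symm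
      (by rcases hx with hx | hx <;> [(right; rw [← hx, m.inv]); exact Or.inl hx])
    · rw [Fin.lt_def]; omega
    · rw [Fin.lt_def]; omega
    · rw [Fin.lt_def]; omega

/-- an innermost arc -/
theorem exists_inn {m : Sts L l} (h : NC m) (hne : (AE m).Nonempty) :
    ∃ (i : Fin L) (d : ℕ), 0 < d ∧ d < L ∧ m (Sum.inl i) = Sum.inl (ad i d) ∧
      ∀ e : ℕ, 0 < e → e < d → m (Sum.inl (ad i e)) = Sum.inl (ad i e) := by
  classical
  have hex : ∃ d : ℕ, 0 < d ∧ d < L ∧ ∃ i : Fin L, m (Sum.inl i) = Sum.inl (ad i d) ∧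
      ∀ e : ℕ, 0 < e → e < d → ∀ j, m (Sum.inl (ad i e)) ≠ Sum.inr j := by
    obtain ⟨x, hx⟩ := hne
    obtain ⟨y, hyx, hxy⟩ := mem_AE.1 hx
    obtain ⟨d, hd, hd0, rfl⟩ := exists_ad_ne hyx.symm
    by_cases hc : ∀ e : ℕ, 0 < e → e < d → ∀ j, m (Sum.inl (ad x e)) ≠ Sum.inr j
    · exact ⟨d, hd0, hd, x, hxy, hc⟩
    · push Not at hc
      obtain ⟨e, he0, hed, j, hj⟩ := hc
      refine ⟨L - d, by omega, by omega, ad x d, ?_, ?_⟩
      · rw [ad_ad, show d + (L - d) = 0 + L by omega, ad_add_L, ad_zero, ← hxy]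
        simp
      · intro f hf0 hf j' hj'
        rw [ad_ad] at hj'
        have hjj : j ≠ j' := by
          rintro rfl
          have := m.inj (hj.trans hj'.symm)
          have := ad_inj (by omega) (by omega) (Sum.inl_injective this)
          omega
        refine nc_cyc h x he0 hed (show d < d + f by omega) (by omega) ⟨hyx.symm, Or.inl hxy⟩ ?_ (Or.inl hxy)
        exact ⟨ad_ne (by omega) (by omega) (by omega), Or.inr ⟨j, j', hjj, hj, hj'⟩⟩
  obtain ⟨hd0, hdL, i, hi, hthr⟩ := Nat.find_spec hex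
  have hmin : ∀ d' < Nat.find hex, ¬ (0 < d' ∧ d' < L ∧ ∃ i : Fin L, m (Sum.inl i) = Sum.inl (ad i d') ∧
      ∀ e : ℕ, 0 < e → e < d' → ∀ j, m (Sum.inl (ad i e)) ≠ Sum.inr j) := fun d' h' => Nat.find_min hex h'
  generalize Nat.find hex = d at hd0 hdL hi hthr hmin
  refine ⟨i, d, hd0, hdL, hi, ?_⟩
  have hid : m (Sum.inl (ad i d)) = Sum.inl i := by rw [← hi]; simp
  intro e he0 hed
  rcases tri m (ad i e) with h1 | ⟨j, hj⟩ | h1
  · exact h1
  · exact absurd hj (hthr e he0 hed j)
  · exfalso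
    obtain ⟨w, hw, hew⟩ := mem_AE.1 h1
    obtain ⟨f, hf, rfl⟩ := exists_ad i w
    have hfe : m (Sum.inl (ad i f)) = Sum.inl (ad i e) := by rw [← hew]; simp
    have hf0 : 0 < f := by
      rcases Nat.eq_zero_or_pos f with h2 | h2
      · subst h2
        rw [ad_zero, hi] at hfe
        have := ad_inj hdL (by omega) (Sum.inl_injective hfe)
        omega
      · exact h2
    have hfd : f ≠ d := by
      rintro rfl
      rw [hid] at hfe
      have h3 : ad i 0 = ad i e := by rw [ad_zero]; exact Sum.inl_injective hfe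
      have := ad_inj (by omega) (by omega) h3
      omega
    have hfe' : f ≠ e := by
      rintro rfl
      exact hw rfl
    rcases lt_or_gt_of_ne hfd with h2 | h2
    · -- a smaller arc
      rcases lt_or_gt_of_ne hfe' with h3 | h3
      · refine hmin (e - f) (by omega) ⟨by omega, by omega, ad i f, ?_, ?_⟩
        · rw [ad_ad, show f + (e - f) = e by omega]; exact hfe
        · intro g hg0 hg j
          rw [ad_ad]
          exact hthr (f + g) (by omega) (by omega) j
      · refine hmin (f - e) (by omega) ⟨by omega, by omega, ad i e, ?_, ?_⟩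
        · rw [ad_ad, show e + (f - e) = f by omega]; exact hew
        · intro g hg0 hg j
          rw [ad_ad]
          exact hthr (e + g) (by omega) (by omega) j
    · exact nc_cyc h i he0 hed h2 hf ⟨(ad_ne_self hdL hd0).symm, Or.inl hi⟩ ⟨hw.symm, Or.inl hew⟩ (Or.inl hi)

/-- Step 3: every state of the class is reached from an arcless state. -/
theorem of_arcless (m : Sts L l) (hm : Cls m) : ∃ a, Arcless a ∧ Cls a ∧ Relation.ReflTransGen Stp a m := by
  classical
  induction hn : (AE m).card using Nat.strong_induction_on generalizing m with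
  | _ n ih =>
  by_cases h0 : AE m = ∅
  · exact ⟨m, arcless_of_AE hm.1 h0, hm, Relation.ReflTransGen.refl⟩
  obtain ⟨i, d, hd0, hdL, hi, hemp⟩ := exists_inn hm.2 (Finset.nonempty_iff_ne_empty.2 h0)
  set k : Fin L := ad i d with hk
  have hki : k ≠ i := ad_ne_self hdL hd0
  have hik' : m (Sum.inl k) = Sum.inl i := by rw [← hi]; simp
  have g1 : m (Sum.inl i) ≠ Sum.inl i := by rw [hi]; exact inl_ne hki
  have g2 : m (Sum.inl k) ≠ Sum.inl k := by rw [hik']; exact inl_ne hki.symm
  set m0 : Sts L l := m.cp (Sum.inl i) (Sum.inl k) with hm0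
  have ap0 : ∀ z, m0 z = if z = Sum.inl i then Sum.inl i else if z = Sum.inl k then Sum.inl k else m z := by
    intro z
    rw [hm0, rch_cp_ap g1 g2, hi, hik']
    split_ifs <;> rfl
  have ap0n : ∀ z, z ≠ Sum.inl i → z ≠ Sum.inl k → m0 z = m z := by
    intro z h1 h2
    rw [ap0, if_neg h1, if_neg h2]
  have ap0i : m0 (Sum.inl i) = Sum.inl i := by rw [ap0, if_pos rfl]
  have ap0k : m0 (Sum.inl k) = Sum.inl k := by rw [ap0, if_neg (inl_ne hki), if_pos rfl]
  have hC0 : Chi m0 := by
    intro j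
    obtain ⟨x, hx⟩ := hm.1 j
    exact ⟨x, by rw [ap0n _ (by simp) (by simp), hx]⟩
  have hcore : ∀ x y : Fin L, x ≠ y → m0 (Sum.inl x) = Sum.inl y → m (Sum.inl x) = Sum.inl y := by
    intro x y hxy h
    rw [ap0] at h
    split_ifs at h with h1 h2
    · exact absurd ((Sum.inl_injective h1).trans (Sum.inl_injective h)) hxy
    · exact absurd ((Sum.inl_injective h2).trans (Sum.inl_injective h)) hxy
    · exact h
  have hcore2 : ∀ (x : Fin L) (j : Fin l), m0 (Sum.inl x) = Sum.inr j → m (Sum.inl x) = Sum.inr j := by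
    intro x j h
    rw [ap0] at h
    split_ifs at h with h1 h2
    exact h
  have hN0 : NC m0 := by
    refine ⟨?_, ?_, ?_⟩
    · intro a b c d hab hbc hcd e1 e2
      exact hm.2.1 a b c d hab hbc hcd (hcore a c (hab.trans hbc).ne e1) (hcore b d (hbc.trans hcd).ne e2)
    · rintro a b e c d ⟨jc, hc⟩ ⟨jd, hd⟩ h1 h2
      exact hm.2.2.1 a b (hcore a b (h1.trans h2).ne e) c d ⟨jc, hcore2 _ _ hc⟩ ⟨jd, hcore2 _ _ hd⟩ h1 h2
    · intro j₁ j₂ j₃ h1 h2 a b c ha hb hc
      exact hm.2.2.2 j₁ j₂ j₃ h1 h2 a b c (hcore2 _ _ ha) (hcore2 _ _ hb) (hcore2 _ _ hc)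
  have hsub : AE m0 ⊂ AE m := by
    rw [Finset.ssubset_iff_of_subset]
    · refine ⟨i, mem_AE.2 ⟨k, hki, hi⟩, fun h => ?_⟩
      obtain ⟨y, hy, hiy⟩ := mem_AE.1 h
      rw [ap0i] at hiy
      exact hy (Sum.inl_injective hiy).symm
    · intro x hx
      obtain ⟨y, hy, hxy⟩ := mem_AE.1 hx
      exact mem_AE.2 ⟨y, hy, hcore x y hy.symm hxy⟩
  obtain ⟨a, ha, hac, hra⟩ := ih _ (by rw [← hn]; exact Finset.card_lt_card hsub) m0 ⟨hC0, hN0⟩ rfl
  -- cup
  have hL2 : 1 < L := by omega
  have hi1 : ad i 1 ≠ i := ad_ne_self hL2 (by omega)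
  have hemp1 : m0 (Sum.inl (ad i 1)) = Sum.inl (ad i 1) := by
    by_cases h : d = 1
    · rw [hk, h] at ap0k; exact ap0k
    · have h1 : ad i 1 ≠ k := ad_ne (by omega) hdL (by omega)
      rw [ap0n _ (inl_ne hi1) (inl_ne h1)]
      exact hemp 1 (by omega) (by omega)
  have hcup := Stp.cup (m := m0) i hi1 ap0i hemp1
  set m3 : Sts L l := m0.jn (Sum.inl i) (Sum.inl (ad i 1)) with hm3
  have ap3 : ∀ z, m3 z = if z = Sum.inl i then Sum.inl (ad i 1) else
      if z = Sum.inl (ad i 1) then Sum.inl i else m0 z := fun z => rch_jn_ap ap0i hemp1 z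
  have ap3i : m3 (Sum.inl i) = Sum.inl (ad i 1) := by rw [ap3, if_pos rfl]
  have ap31 : m3 (Sum.inl (ad i 1)) = Sum.inl i := by rw [ap3, if_neg (inl_ne hi1), if_pos rfl]
  have hrange : ∀ e : ℕ, 0 < e → e ≤ d - 1 →
      m3 (Sum.inl (ad (ad i 1) e)) = Sum.inl (ad (ad i 1) e) := by
    intro e he0 he
    rw [ad_ad]
    have h1 : ad i (1 + e) ≠ i := ad_ne_self (by omega) (by omega)
    have h2 : ad i (1 + e) ≠ ad i 1 := ad_ne (by omega) (by omega) (by omega)
    rw [ap3, if_neg (inl_ne h1), if_neg (inl_ne h2)]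
    by_cases h : 1 + e = d
    · rw [h]; exact ap0k
    · have h3 : ad i (1 + e) ≠ k := ad_ne (by omega) hdL h
      rw [ap0n _ (inl_ne h1) (inl_ne h3)]
      exact hemp (1 + e) (by omega) (by omega)
  have hsl := slide m3 (ad i 1) (by rw [ap31]; exact inl_ne hi1.symm) (d - 1) (by omega) hrange
  rw [ad_ad, show 1 + (d - 1) = d by omega, ← hk] at hsl
  have hfin : m3.sw (Sum.inl (ad i 1)) (Sum.inl k) = m := by
    by_cases h : d = 1
    · have e : ad i 1 = k := by rw [hk, h]
      rw [e, sw_self]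
      refine St.ext' fun z => ?_
      rw [ap3, e]
      split_ifs with h1 h2
      · rw [h1, hi]
      · rw [h2, hik']
      · exact ap0n z h1 h2
    · have e1 : ad i 1 ≠ k := ad_ne (by omega) hdL (by omega)
      have hk3 : m3 (Sum.inl k) = Sum.inl k := by
        rw [ap3, if_neg (inl_ne hki), if_neg (inl_ne e1.symm), ap0k]
      have hm1 : m (Sum.inl (ad i 1)) = Sum.inl (ad i 1) := hemp 1 (by omega) (by omega)
      refine St.ext' fun z => ?_
      by_cases z1 : z = Sum.inl (ad i 1)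
      · rw [z1, sw_at_left hk3, hm1]
      by_cases z2 : z = Sum.inl k
      · rw [z2, sw_at_right (by rw [ap31]; exact inl_ne hi1.symm) hk3, ap31, hik']
      by_cases z3 : z = Sum.inl i
      · rw [z3, sw_at_ne (inl_ne hi1.symm) (inl_ne hki.symm), ap3i, Equiv.swap_apply_left, hi]
      have e2 : m3 z = m z := by
        rw [ap3, if_neg z3, if_neg z1, ap0n z z3 z2]
      rw [sw_at_ne' z1 z2 _ _, e2]
      · rw [e2]; intro h'; exact z1 (m.inj (h'.trans hm1.symm))
      · rw [e2]; intro h'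
        apply z3
        have := congrArg m.1 h'
        rwa [show m.1 (m z) = z from m.inv _, show m.1 (Sum.inl k) = m (Sum.inl k) from rfl, hik'] at this
  rw [hfin] at hsl
  exact ⟨a, ha, hac, (hra.tail hcup).trans hsl⟩

/-- a move has a positive entry in `T(3λ/2; 0)` -/
theorem stp_pos (hL : 2 ≤ L) {m m' : Sts L l} (h : Stp m m') :
    Tm (((3 * Real.pi / 16 : ℝ) : ℂ)) (fun _ : Fin L => (0 : ℂ)) m' m ≠ 0 := by
  have hpi := Real.pi_pos
  have hp := posA (L := L) l hL (v := 3 * Real.pi / 16) (U := fun _ : Fin L => (0 : ℂ))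
    (r := fun _ => 0) (fun i => by simp) (fun i => by linarith) (fun i => by linarith)
  have h1 := hp.step (Pi.single m' 1) (fun n => by
    rw [Pi.single_apply]
    split_ifs
    · exact zero_le_one
    · exact le_refl _) m m' (Or.inr h) (by rw [Pi.single_eq_same]; exact zero_lt_one)
  rw [Function.iterate_one] at h1
  exact h1.ne'

/-- the moves preserve the class -/
theorem stp_cls (hL : 2 ≤ L) {m m' : Sts L l} (h : Stp m m') (hm : Cls m) (hm' : Chi m') : Cls m' := by
  by_contra hc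
  exact stp_pos hL h (pla_Tm _ _ m m' hm hm' hc)

theorem stp_chi (hL : 2 ≤ L) {m m' : Sts L l} (h : Stp m m') (hm' : Chi m') : Chi m := by
  by_contra hc
  exact stp_pos hL h (chi_Tm _ _ m m' hc hm')

theorem reach_cls (hL : 2 ≤ L) {m a : Sts L l} (h : Relation.ReflTransGen Stp m a) (ha : Chi a) :
    Chi m ∧ (Cls m → Cls a) := by
  induction h with
  | refl => exact ⟨ha, fun h => h⟩
  | tail _ h2 ih =>
    have h3 := stp_chi hL h2 ha
    exact ⟨(ih h3).1, fun h => stp_cls hL h2 ((ih h3).2 h) ha⟩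

/-- **P3, combinatorial part**: any two states of the class are connected by the moves. -/
theorem rch (hl : 1 ≤ l) (hL : l < L) {m m' : Sts L l} (hm : Cls m) (hm' : Cls m') :
    Relation.ReflTransGen Stp m m' := by
  obtain ⟨a, ha, hr⟩ := to_arcless (by omega) m hm.1
  obtain ⟨a', ha', hac', hr'⟩ := of_arcless m' hm'
  have hac := (reach_cls (by omega) hr ha.1).2 hm
  exact (hr.trans (Lift.arcless_reach hl hL ha hac.2.2.2 ha' hac'.2.2.2)).trans hr'

end Pool.Agent.CYL
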