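import Pool.Agent.CYG.P.FusB
import Pool.Agent.CYG.P.FusA
import Pool.Agent.CYG.P.FusD

/-!
# CYL, part P (P8): the fusion limit (field `fus` of `Family`), from P8(b) (`hT`) and P8(c) (`hQ`)
-/

namespace Pool.Agent.CYL

open Pool.Agent.BEX Complex Filter Topology
open scoped ComplexOrder

variable {p l : ℕ}

theorem qf_full {psi0 : Sts l l → ℝ} (h1 : ∀ m, ¬ Cls m → psi0 m = 0) (u : ℂ) :
    qf (fun _ => 0) psi0 u = bb ^ l * ∑ m, (psi0 m : ℂ) := by
  unfold qf
  rw [Finset.mul_sum]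
  refine Finset.sum_congr rfl fun m _ => ?_
  by_cases hm : Cls m
  · unfold Os Oa
    rw [if_pos hm.1]
    have h3 : ∀ i : Fin l, m (Sum.inl i) ≠ Sum.inl i := by
      -- all sites are through-sites
      choose f hf using hm.1
      have hinj : Function.Injective f := by
        intro a b hab
        have h4 := hf a
        rw [hab, ← hf b] at h4
        exact Sum.inr.inj (m.inj h4)
      have hsurj := Finite.injective_iff_surjective.1 hinj
      intro i hi
      obtain ⟨j, rfl⟩ := hsurj i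
      have h5 : m (Sum.inl (f j)) = Sum.inr j := by rw [← hf j, m.inv]
      rw [h5] at hi
      simp at hi
    rw [Finset.prod_congr rfl fun i _ => if_neg (h3 i)]
    simp
    ring
  · rw [h1 m hm]
    simp

theorem fus_of' (hl : 1 ≤ l) (hp : l ≤ p) (hpla : Pla (2 * p) l)
    {psi : ℝ → Sts (2 * p) l → ℝ} {t : ℝ → ℂ → ℂ}
    (hI : ∀ w, 0 ≤ w → w < Real.pi / 8 → IsPsi (Uw (2 * p) w) (psi w) (t w))
    (hpos : ∀ w, 0 ≤ w → w < Real.pi / 8 → ∀ m, Cls m → 0 < psi w m)
    (hnn : ∀ w, Real.pi / 16 ≤ w → w < Real.pi / 8 → Nn (l := l) (w : ℂ) (Uw (2 * p) w))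
    (psi0 : Sts p l → ℝ) (h1 : ∀ m, ¬ Cls m → psi0 m = 0) (h2 : ∑ m, psi0 m = 1)
    (hu : l < p → ∀ y : Sts p l → ℝ, (∀ m, 0 ≤ y m) → (∀ m, ¬ Cls m → y m = 0) → ∑ m, y m = 1 →
      (∃ τ : ℂ, ∀ F : Sts p l → ℂ, Sup F →
        ∑ m, (y m : ℂ) * Tf lam (fun _ => 0) F m = τ * ∑ m, (y m : ℂ) * F m) → y = psi0)
    (hT : ∀ (F : Sts p l → ℂ) (m : Sts p l), Tf lam (fun _ => 0) F m = kk lam ^ p * Dd (Shf (Dt F)) m)
    (hQ : ∀ (u : ℂ) (m : Sts p l), Dd (Shf (Os (Uw (2 * p) (Real.pi / 8)) u)) m =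
      sin u ^ p * Os (fun _ => 0) u m) :
    ∃ (ws : ℕ → ℝ) (psis : Sts (2 * p) l → ℝ) (ts : ℂ → ℂ) (c : ℝ), 0 < c ∧
    (∀ n, 0 ≤ ws n ∧ ws n < Real.pi / 8) ∧ Filter.Tendsto ws Filter.atTop (nhds (Real.pi / 8)) ∧
    (∀ m, Filter.Tendsto (fun n => psi (ws n) m) Filter.atTop (nhds (psis m))) ∧
    IsPsi (Uw (2 * p) (Real.pi / 8)) psis ts ∧ (∀ v, Filter.Tendsto (fun n => t (ws n) v) Filter.atTop (nhds (ts v))) ∧
    (0 < (ts lam).re ∧ (ts lam).im = 0) ∧
    ∀ u : ℂ, qf (Uw (2 * p) (Real.pi / 8)) psis u = (c : ℂ) * sin u ^ p * qf (fun _ => 0) psi0 u := by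
  obtain ⟨ws, psis, a1, a2, a3, a4, a5, a6, a7⟩ := fus_lim hpla hI hpos hnn
  obtain ⟨m0, b1, b2⟩ := exists_diag hl hp
  have hp0 : 0 < p := by omega
  set ts := tv (Uw (2 * p) (Real.pi / 8)) psis with hts
  have htpos : 0 < (ts lam).re := lt_of_lt_of_le b2 (a7 m0 b1)
  -- the eigenvalue as a positive complex number
  have hLam : 0 < ts lam := by
    rw [Complex.lt_def]
    exact ⟨htpos, a6.symm⟩
  have he := a4.eig lam
  have hS : ∀ F : Sts (2 * p) l → ℂ, Sup F →
      ts lam * ∑ m, (psis m : ℂ) * F m = cfu p * ∑ m', (yv psis m' : ℂ) * Dd (Shf F) m' :=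
    fun F hF => yv_eig hp0 a4.nonneg he hF
  have hy0 : ∀ m, 0 ≤ yv psis m := yv_nonneg a4.nonneg
  have hys : ∀ m, ¬ Cls m → yv psis m = 0 := yv_supp hp0 a4.nonneg a4.supp he
  set Y : ℝ := ∑ m, yv psis m with hY
  have hY0 : 0 ≤ Y := Finset.sum_nonneg fun m _ => hy0 m
  have hYpos : 0 < Y := by
    rcases hY0.lt_or_eq with h | h
    · exact h
    · exfalso
      have h3 : ∀ m, yv psis m = 0 := fun m =>
        (Finset.sum_eq_zero_iff_of_nonneg fun m _ => hy0 m).1 h.symm m (Finset.mem_univ m)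
      have h4 := hS chF (fun m hm => if_neg hm)
      rw [Finset.sum_eq_zero (s := Finset.univ) (f := fun m' => (yv psis m' : ℂ) * Dd (Shf chF) m')
        (fun m _ => by rw [h3 m]; simp), mul_zero] at h4
      have h5 : ∑ m, (psis m : ℂ) * chF m = 1 := by
        have h6 : ∀ m, (psis m : ℂ) * (chF m) = ((psis m : ℝ) : ℂ) := by
          intro m
          unfold chF
          split_ifs with hm
          · rw [mul_one]
          · rw [mul_zero, a4.supp m (fun hc => hm hc.1), Complex.ofReal_zero]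
        rw [Finset.sum_congr rfl fun m _ => h6 m, ← Complex.ofReal_sum, a4.sum, Complex.ofReal_one]
      rw [h5, mul_one] at h4
      exact hLam.ne' h4
  -- the identification
  have hid : ∀ u : ℂ, ∑ m, (yv psis m : ℂ) * Os (fun _ => 0) u m = (Y : ℂ) * qf (fun _ => 0) psi0 u := by
    intro u
    rcases hp.lt_or_eq with hlp | hlp
    · have h3 := hu hlp (fun m => yv psis m / Y) (fun m => div_nonneg (hy0 m) hY0)
        (fun m hm => by rw [hys m hm, zero_div]) (by rw [← Finset.sum_div, ← hY, div_self hYpos.ne'])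
        ⟨kk lam ^ p * ts lam / cfu p, fun F hF => by
          have h4 := yv_hom hp0 a4.nonneg he hT hF
          have h5 : ∀ G : Sts p l → ℂ, ∑ m, ((yv psis m / Y : ℝ) : ℂ) * G m =
              (1 / (Y : ℂ)) * ∑ m, (yv psis m : ℂ) * G m := by
            intro G
            rw [Finset.mul_sum]
            refine Finset.sum_congr rfl fun m _ => ?_
            push_cast
            ring
          rw [h5, h5, h4]
          ring⟩
      unfold qf
      rw [← h3, Finset.mul_sum]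
      refine Finset.sum_congr rfl fun m _ => ?_
      have : (Y : ℂ) ≠ 0 := by exact_mod_cast hYpos.ne'
      push_cast
      field_simp
    · subst hlp
      have h3 := qf_full hys u
      unfold qf at h3
      rw [h3, qf_full h1 u, ← Complex.ofReal_sum, ← Complex.ofReal_sum, ← hY, h2]
      push_cast
      ring
  refine ⟨ws, psis, ts, (cfu p).re * Y / (ts lam).re, ?_, fun n => ⟨le_trans (by positivity) (a1 n).1, (a1 n).2⟩,
    a2, a3, a4, a5, ⟨htpos, a6⟩, ?_⟩
  · have := (Complex.lt_def.1 (cfu_pos p)).1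
    rw [zero_re] at this
    positivity
  · intro u
    have h3 := hS (Os (Uw (2 * p) (Real.pi / 8)) u) (fun m hm => if_neg hm)
    have h4 : ∑ m', (yv psis m' : ℂ) * Dd (Shf (Os (Uw (2 * p) (Real.pi / 8)) u)) m' =
        sin u ^ p * ((Y : ℂ) * qf (fun _ => 0) psi0 u) := by
      rw [← hid u, Finset.mul_sum]
      refine Finset.sum_congr rfl fun m _ => ?_
      rw [hQ]
      ring
    rw [h4] at h3
    have e1 : ((cfu p).re : ℂ) = cfu p := by
      apply Complex.ext
      · rw [ofReal_re]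
      · rw [ofReal_im]
        exact (Complex.lt_def.1 (cfu_pos p)).2
    have e2 : ((ts lam).re : ℂ) = ts lam := by
      apply Complex.ext
      · rw [ofReal_re]
      · rw [ofReal_im]
        exact a6.symm
    unfold qf at h3 ⊢
    rw [Complex.ofReal_div, Complex.ofReal_mul, e1, e2]
    have := hLam.ne'
    field_simp
    linear_combination h3

end Pool.Agent.CYL
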