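import Pool.Agent.CYG.P.Psi

/-!
# CYL, part PF: the eigenvalue is continuous in the spectral parameter
-/

set_option autoImplicit false

namespace Pool.Agent.CYL

open Finset
open Pool.Agent.BEX

/-- the eigenvalue is continuous in `v` -/
theorem IsPsi.continuous_t {L l : ℕ} {U : Fin L → ℂ} {psi : Sts L l → ℝ} {t : ℂ → ℂ}
    (h : IsPsi U psi t) : Continuous t := by
  rw [h.t_eq]
  unfold tv
  exact continuous_finsetSum _ fun m _ =>
    continuous_const.mul (continuous_Tf_param continuous_id continuous_const chF m)

/-- joint continuity in a parameter -/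
theorem continuousOn_tW' {L l : ℕ} [Nonempty (Kc L l)] (hpl : Pla L l) (hc : Comm L l)
    (h : FamPrim L l) :
    ContinuousOn (fun x : ℝ × ℂ => tW L l x.1 x.2) (Set.Ico 0 (Real.pi / 8) ×ˢ Set.univ) := by
  unfold tW tv
  refine continuousOn_finsetSum _ fun m _ => ContinuousOn.mul ?_ ?_
  · refine Complex.continuous_ofReal.comp_continuousOn ?_
    exact (continuousOn_psiW hpl hc h m).comp continuousOn_fst fun x hx => hx.1
  · exact (continuous_Tf_param continuous_snd ((continuous_Uw L).comp continuous_fst)
      _ _).continuousOn

end Pool.Agent.CYL
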