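import Pool.Agent.CYG.P.Planar
import Pool.Agent.CYG.P.Arc
import Pool.Agent.CYG.P.TCont

set_option autoImplicit false

/-!
# CYL/P: the homogeneous system, for every number `l` of legs
-/

namespace Pool.Agent.CYL

open Pool.Agent.BEX Complex

/-- The homogeneous system has a positive common eigenvector. -/
theorem hom_of {L l : ℕ} (hL : l < L) (hc : Comm L l) (hR : RealPrim l lam (fun _ : Fin L => 0)) :
    ∃ (psi : Sts L l → ℝ) (t : ℂ → ℂ), IsPsi (fun _ : Fin L => 0) psi t ∧ ∀ m, Cls m → 0 < psi m := by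
  have : Nonempty (Kc L l) := nonempty_Kc hL.le
  exact ⟨_, _, (isPsi_psiOf pla hc hR).1, fun m hm => psiOf_pos hR hm⟩

/-- It is unique. -/
theorem hom_unique_of {L l : ℕ} (hL : l < L)
    (hR : RealPrim l lam (fun _ : Fin L => 0)) {psi psi' : Sts L l → ℝ} {t t' : ℂ → ℂ}
    (h : IsPsi (fun _ : Fin L => 0) psi t) (h' : IsPsi (fun _ : Fin L => 0) psi' t') : psi = psi' ∧ t = t' := by
  have : Nonempty (Kc L l) := nonempty_Kc hL.le
  exact h.unique pla hR h'

end Pool.Agent.CYL
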