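import Pool.Agent.BEX.ACapRt
import Pool.Agent.BEX.AFix3
import Pool.Agent.CYG.P.Mv
import Pool.Agent.CYG.P.Prim

/-!
# CYL, part P, item P3: positivity of `T(w; U)`, `U = (w, -w, w, -w, ..)`, `lam / 2 ≤ w < lam`

At the even sites (numbers from `0`) the R-matrix is a multiple of the exchange of the two lines, at the odd sites all
weights are positive. `posB_nonneg`: the operator is nonnegative; `posB_pos`: its `L`-th power has positive diagonal
entries and positive entries at all the moves `Stp`.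
-/

set_option autoImplicit false
set_option linter.unusedVariables false
set_option linter.unusedSectionVars false

namespace Pool.Agent.CYL

open Complex Finset
open Pool.Agent.BEX
open scoped ComplexOrder

namespace PB

/-! ### weights -/

theorem sin_pos_of {y : ℝ} (h0 : 0 < y) (h1 : y < Real.pi) : (0 : ℂ) < sin (y : ℂ) := by
  rw [← ofReal_sin]
  exact_mod_cast Real.sin_pos_of_pos_of_lt_pi h0 h1

/-- All weights are positive (`w9` nonnegative). -/
structure Wt (u : ℂ) : Prop where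
  k : 0 < kk u
  h2 : 0 < w2 u
  h4 : 0 < w4 u
  h6 : 0 < w6 u
  h8 : 0 < w8 u
  h9 : 0 ≤ w9 u

theorem wt_of {x : ℝ} (h1 : Real.pi / 8 ≤ x) (h2 : x < Real.pi / 4) : Wt (x : ℂ) := by
  have hp := Real.pi_pos
  have e2 : sin (2 * lam) = sin ((Real.pi / 4 : ℝ) : ℂ) := by
    congr 1; unfold lam; push_cast; ring
  have e2x : sin (2 * lam + (x : ℂ)) = sin ((Real.pi / 4 + x : ℝ) : ℂ) := by
    congr 1; unfold lam; push_cast; ring
  have e3x : sin (3 * lam + (x : ℂ)) = sin ((3 * Real.pi / 8 + x : ℝ) : ℂ) := by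
    congr 1; unfold lam; push_cast; ring
  have m3x : sin (3 * lam - (x : ℂ)) = sin ((3 * Real.pi / 8 - x : ℝ) : ℂ) := by
    congr 1; unfold lam; push_cast; ring
  have m2x : sin (2 * lam - (x : ℂ)) = sin ((Real.pi / 4 - x : ℝ) : ℂ) := by
    congr 1; unfold lam; push_cast; ring
  have m1x : sin (lam - (x : ℂ)) = sin ((Real.pi / 8 - x : ℝ) : ℂ) := by
    congr 1; unfold lam; push_cast; ring
  have p2 : (0 : ℂ) < sin (2 * lam) := by rw [e2]; exact sin_pos_of (by linarith) (by linarith)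
  have p2x : (0 : ℂ) < sin (2 * lam + (x : ℂ)) := by
    rw [e2x]; exact sin_pos_of (by linarith) (by linarith)
  have p3x : (0 : ℂ) < sin (3 * lam + (x : ℂ)) := by
    rw [e3x]; exact sin_pos_of (by linarith) (by linarith)
  have q3x : (0 : ℂ) < sin (3 * lam - (x : ℂ)) := by
    rw [m3x]; exact sin_pos_of (by linarith) (by linarith)
  have q2x : (0 : ℂ) < sin (2 * lam - (x : ℂ)) := by
    rw [m2x]; exact sin_pos_of (by linarith) (by linarith)
  have px : (0 : ℂ) < sin (x : ℂ) := sin_pos_of (by linarith) (by linarith)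
  have n1x : sin (lam - (x : ℂ)) ≤ 0 := by
    rw [m1x, ← ofReal_sin]
    have : Real.sin (Real.pi / 8 - x) ≤ 0 :=
      Real.sin_nonpos_of_nonpos_of_neg_pi_le (by linarith) (by linarith)
    exact_mod_cast this
  refine ⟨?_, ?_, ?_, ?_, ?_, ?_⟩
  · unfold kk; exact mul_pos p2x p3x
  · unfold w2; exact mul_pos p2 q3x
  · unfold w4; exact mul_pos p2 px
  · unfold w6; exact mul_pos px q3x
  · unfold w8; exact mul_pos q2x q3x
  · unfold w9
    rw [← mul_neg]
    exact mul_nonneg px.le (neg_nonneg.2 n1x)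

theorem w2_zero_pos : 0 < w2 0 := by
  have hp := Real.pi_pos
  unfold w2
  rw [sub_zero]
  have e2 : sin (2 * lam) = sin ((Real.pi / 4 : ℝ) : ℂ) := by
    congr 1; unfold lam; push_cast; ring
  have e3 : sin (3 * lam) = sin ((3 * Real.pi / 8 : ℝ) : ℂ) := by
    congr 1; unfold lam; push_cast; ring
  rw [e2, e3]
  exact mul_pos (sin_pos_of (by linarith) (by linarith)) (sin_pos_of (by linarith) (by linarith))

/-! ### one crossing -/

section One

variable {κ : Type*} [DecidableEq κ]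

theorem sw_join {p q : κ} {m : St κ} (h : m p = q) : m.sw p q = m := by
  have h' : m q = p := by rw [← h]; simp
  refine St.ext' fun x => ?_
  show Equiv.swap p q (m (Equiv.swap p q x)) = m x
  by_cases h1 : x = p
  · subst h1
    rw [Equiv.swap_apply_left, h', Equiv.swap_apply_left, h]
  by_cases h2 : x = q
  · subst h2
    rw [Equiv.swap_apply_right, h, Equiv.swap_apply_right, h']
  rw [Equiv.swap_apply_of_ne_of_ne h1 h2, Equiv.swap_apply_of_ne_of_ne]
  · intro e; exact h2 (m.inj (e.trans h'.symm))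
  · intro e; exact h1 (m.inj (e.trans h.symm))

theorem sw_emp {p q : κ} {m : St κ} (hp : m p = p) (hq : m q = q) : m.sw p q = m := by
  rw [sw_eq_cj]; exact cj_swap_fix hp hq

theorem Rt_zero (p q : κ) (G : St κ → ℂ) (m : St κ) : Rt p q 0 G m = w2 0 * G (m.sw p q) := by
  have z4 : w4 0 = 0 := by simp [w4]
  have z6 : w6 0 = 0 := by simp [w6]
  have z9 : w9 0 = 0 := by simp [w9]
  have z8 : w8 0 = w2 0 := by simp [w8, w2]
  have zk : kk 0 = w2 0 := by simp [kk, w2]
  unfold Rt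
  split_ifs with h1 h2 h3 h4
  · rw [z4, zk, sw_emp h1 h2]; ring
  · rw [z6]; ring
  · rw [z6]; ring
  · rw [z8, sw_join h4]
  · rw [z8, z9, z4]; ring

theorem Rt_nn {u : ℂ} (hu : u = 0 ∨ Wt u) (p q : κ) {G : St κ → ℂ} (hG : ∀ m, 0 ≤ G m) (m : St κ) :
    0 ≤ Rt p q u G m := by
  rcases hu with rfl | hu
  · rw [Rt_zero]; exact mul_nonneg w2_zero_pos.le (hG _)
  · have a := hu.k.le
    have b := hu.h2.le
    have c := hu.h4.le
    have d := hu.h6.le
    have e := hu.h8.le
    have f := hu.h9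
    unfold Rt
    split_ifs
    · exact add_nonneg (mul_nonneg a (hG _)) (mul_nonneg c (hG _))
    · exact add_nonneg (mul_nonneg d (hG _)) (mul_nonneg b (hG _))
    · exact add_nonneg (mul_nonneg d (hG _)) (mul_nonneg b (hG _))
    · exact mul_nonneg e (hG _)
    · exact add_nonneg (add_nonneg (mul_nonneg e (hG _)) (mul_nonneg f (hG _))) (mul_nonneg c (hG _))

theorem Rt_sw_pos {u : ℂ} (hu : u = 0 ∨ Wt u) (p q : κ) {G : St κ → ℂ} (hG : ∀ m, 0 ≤ G m)
    (m : St κ) (h : 0 < G (m.sw p q)) : 0 < Rt p q u G m := by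
  rcases hu with rfl | hu
  · rw [Rt_zero]; exact mul_pos w2_zero_pos h
  · unfold Rt
    split_ifs with h1 h2 h3 h4
    · rw [sw_emp h1 h2] at h
      exact add_pos_of_pos_of_nonneg (mul_pos hu.k h) (mul_nonneg hu.h4.le (hG _))
    · exact add_pos_of_nonneg_of_pos (mul_nonneg hu.h6.le (hG _)) (mul_pos hu.h2 h)
    · exact add_pos_of_nonneg_of_pos (mul_nonneg hu.h6.le (hG _)) (mul_pos hu.h2 h)
    · rw [sw_join h4] at h
      exact mul_pos hu.h8 h
    · exact add_pos_of_pos_of_nonneg (add_pos_of_pos_of_nonneg (mul_pos hu.h8 h)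
        (mul_nonneg hu.h9 (hG _))) (mul_nonneg hu.h4.le (hG _))

theorem Rt_stay_pos {u : ℂ} (hu : Wt u) (p q : κ) {G : St κ → ℂ} (hG : ∀ m, 0 ≤ G m)
    (m : St κ) (hp : m p ≠ p) (hq : m q = q) (h : 0 < G m) : 0 < Rt p q u G m := by
  unfold Rt
  rw [if_neg hp, if_pos hq]
  exact add_pos_of_pos_of_nonneg (mul_pos hu.h6 h) (mul_nonneg hu.h2.le (hG _))

theorem Rt_jn_pos {u : ℂ} (hu : Wt u) (p q : κ) {G : St κ → ℂ} (hG : ∀ m, 0 ≤ G m)
    (m : St κ) (hp : m p = p) (hq : m q = q) (h : 0 < G (m.jn p q)) : 0 < Rt p q u G m := by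
  unfold Rt
  rw [if_pos hp, if_pos hq]
  exact add_pos_of_nonneg_of_pos (mul_nonneg hu.k.le (hG _)) (mul_pos hu.h4 h)

theorem Rt_cp_pos {u : ℂ} (hu : Wt u) (p q : κ) {G : St κ → ℂ} (hG : ∀ m, 0 ≤ G m)
    (m : St κ) (hp : m p ≠ p) (hq : m q ≠ q) (hpq : m p ≠ q) (h : 0 < G (m.cp p q)) :
    0 < Rt p q u G m := by
  unfold Rt
  rw [if_neg hp, if_neg hq, if_neg hpq]
  exact add_pos_of_nonneg_of_pos (add_nonneg (mul_nonneg hu.h8.le (hG _))
    (mul_nonneg hu.h9 (hG _))) (mul_pos hu.h4 h)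

end One

/-! ### the permutations of the labels -/

section Perm

variable {L l : ℕ}

/-- rotation of the sites -/
def rot (L : ℕ) : Equiv.Perm (Fin L) where
  toFun j := ad j 1
  invFun j := ad j (L - 1)
  left_inv j := by
    have hL : 0 < L := lt_of_le_of_lt (Nat.zero_le _) j.isLt
    show ad (ad j 1) (L - 1) = j
    rw [ad_ad, show 1 + (L - 1) = 0 + L by omega, ad_add_L, ad_zero]
  right_inv j := by
    have hL : 0 < L := lt_of_le_of_lt (Nat.zero_le _) j.isLt
    show ad (ad j (L - 1)) 1 = j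
    rw [ad_ad, show L - 1 + 1 = 0 + L by omega, ad_add_L, ad_zero]

/-- rotation of the labels -/
def ta (L l : ℕ) : Equiv.Perm (Lb L l) := Equiv.sumCongr (rot L) (Equiv.refl _)

@[simp] theorem ta_inl (i : Fin L) : ta L l (Sum.inl i) = Sum.inl (ad i 1) := rfl

@[simp] theorem ta_inr (j : Fin l) : ta L l (Sum.inr j) = Sum.inr j := rfl

theorem ta_pow_inl (n : ℕ) (i : Fin L) : (ta L l ^ n) (Sum.inl i) = Sum.inl (ad i n) := by
  induction n with
  | zero => simp
  | succ n ih => rw [pow_succ', Equiv.Perm.mul_apply, ih, ta_inl, ad_ad]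

theorem ta_pow_inr (n : ℕ) (j : Fin l) : (ta L l ^ n) (Sum.inr j) = Sum.inr j := by
  induction n with
  | zero => simp
  | succ n ih => rw [pow_succ', Equiv.Perm.mul_apply, ih, ta_inr]

theorem ta_pow_L : ta L l ^ L = 1 := by
  apply Equiv.ext
  rintro (i | j)
  · rw [ta_pow_inl]
    have := ad_add_L i 0
    rw [Nat.zero_add, ad_zero] at this
    rw [this]; rfl
  · rw [ta_pow_inr]; rfl

theorem rl_mul {κ : Type*} (σ τ : Equiv.Perm κ) (m : St κ) : rl (σ * τ) m = rl σ (rl τ m) := rfl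

theorem rl_one {κ : Type*} (m : St κ) : rl (1 : Equiv.Perm κ) m = m := rfl

/-- the permutation of the labels after the crossing of `k` sites -/
def sg (L l : ℕ) : ℕ → Equiv.Perm (Option (Option (Lb L l)))
  | 0 => 1
  | k + 1 => if h : k < L then Equiv.swap ax (lb (Sum.inl ⟨k, h⟩)) * sg L l k else sg L l k

theorem sg_succ {k : ℕ} (h : k < L) :
    sg L l (k + 1) = Equiv.swap ax (lb (Sum.inl ⟨k, h⟩)) * sg L l k := by
  rw [sg, dif_pos h]

theorem lb_inl_ne {i j : Fin L} (h : i ≠ j) :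
    (lb (Sum.inl i) : Option (Option (Lb L l))) ≠ lb (Sum.inl j) :=
  fun e => h (Sum.inl_injective (lb_inj e))

theorem lb_inr_ne {i : Fin L} {j : Fin l} :
    (lb (Sum.inr j) : Option (Option (Lb L l))) ≠ lb (Sum.inl i) := by
  intro e
  have := lb_inj e
  cases this

theorem sg_ax' (k : ℕ) (hk : k ≤ L) : sg L l k ax' = ax' := by
  induction k with
  | zero => rfl
  | succ k ih =>
    rw [sg_succ (by omega), Equiv.Perm.mul_apply, ih (by omega),
      Equiv.swap_apply_of_ne_of_ne (by simp) (by simp)]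

theorem sg_inr (k : ℕ) (hk : k ≤ L) (j : Fin l) : sg L l k (lb (Sum.inr j)) = lb (Sum.inr j) := by
  induction k with
  | zero => rfl
  | succ k ih =>
    rw [sg_succ (by omega), Equiv.Perm.mul_apply, ih (by omega),
      Equiv.swap_apply_of_ne_of_ne (by simp) lb_inr_ne]

theorem sg_ax (k : ℕ) (hk : k ≤ L) (h0 : 0 < k) :
    sg L l k ax = lb (Sum.inl ⟨0, by omega⟩) := by
  induction k with
  | zero => omega
  | succ k ih =>
    rw [sg_succ (by omega), Equiv.Perm.mul_apply]
    rcases Nat.eq_zero_or_pos k with h | h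
    · subst h
      change Equiv.swap ax _ ax = _
      rw [Equiv.swap_apply_left]
    · rw [ih (by omega) h, Equiv.swap_apply_of_ne_of_ne (by simp)]
      apply lb_inl_ne
      intro e
      have := congrArg Fin.val e
      simp at this
      omega

theorem sg_gt (k : ℕ) (hk : k ≤ L) (j : Fin L) (hj : k ≤ j.val) :
    sg L l k (lb (Sum.inl j)) = lb (Sum.inl j) := by
  induction k with
  | zero => rfl
  | succ k ih =>
    rw [sg_succ (by omega), Equiv.Perm.mul_apply, ih (by omega) (by omega),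
      Equiv.swap_apply_of_ne_of_ne (by simp)]
    apply lb_inl_ne
    intro e
    have := congrArg Fin.val e
    simp at this
    omega

theorem sg_eq (j : Fin L) : sg L l (j.val + 1) (lb (Sum.inl j)) = ax := by
  rw [sg_succ j.isLt, Equiv.Perm.mul_apply, sg_gt _ j.isLt.le j le_rfl]
  exact Equiv.swap_apply_right _ _

theorem sg_lt (k : ℕ) (hk : k ≤ L) (j : Fin L) (hj : j.val + 1 < k) :
    sg L l k (lb (Sum.inl j)) = lb (Sum.inl ⟨j.val + 1, by omega⟩) := by
  induction k with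
  | zero => omega
  | succ k ih =>
    rw [sg_succ (by omega), Equiv.Perm.mul_apply]
    rcases Nat.lt_or_ge (j.val + 1) k with h | h
    · rw [ih (by omega) h, Equiv.swap_apply_of_ne_of_ne (by simp)]
      apply lb_inl_ne
      intro e
      have := congrArg Fin.val e
      simp at this
      omega
    · have hk' : k = j.val + 1 := by omega
      subst hk'
      rw [sg_eq j, Equiv.swap_apply_left]

/-- the last site -/
theorem sg_last (hL : 0 < L) : sg L l L (lb (Sum.inl ⟨L - 1, by omega⟩)) = ax := by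
  have := sg_eq (l := l) (⟨L - 1, by omega⟩ : Fin L)
  have e : (⟨L - 1, by omega⟩ : Fin L).val + 1 = L := by
    show L - 1 + 1 = L
    omega
  rw [e] at this
  exact this

theorem sg_ne_last (x : Lb L l) (hL : 0 < L) (hx : x ≠ Sum.inl ⟨L - 1, by omega⟩) :
    sg L l L (lb x) = lb (ta L l x) := by
  rcases x with j | j
  · have hj : j.val + 1 < L := by
      have h1 := j.isLt
      have h2 : j.val ≠ L - 1 := by
        intro e
        apply hx
        congr 1
        exact Fin.ext e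
      omega
    rw [sg_lt L le_rfl j hj, ta_inl]
    congr 2
    apply Fin.ext
    rw [ad_val, Nat.mod_eq_of_lt hj]
  · rw [sg_inr L le_rfl]; rfl

theorem ta_last (hL : 0 < L) :
    ta L l (Sum.inl ⟨L - 1, by omega⟩) = Sum.inl ⟨0, hL⟩ := by
  rw [ta_inl]
  congr 1
  apply Fin.ext
  rw [ad_val]
  show (L - 1 + 1) % L = 0
  rw [Nat.sub_add_cancel hL, Nat.mod_self]

end Perm

/-! ### closing the auxiliary line -/

section Cap

variable {L l : ℕ}

/-- the state with the auxiliary ends empty (`e = false`) or joined (`e = true`) -/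
def Ee (e : Bool) (m : Sts L l) : St (Option (Option (Lb L l))) := if e then ext1 m else ext0 m

theorem ext1_ax {ι : Type*} [DecidableEq ι] (m : St ι) : ext1 m ax = ax' := by
  unfold ext1
  rw [St.jn_apply _ _ _ _ rfl rfl]; simp

theorem ext1_ax' {ι : Type*} [DecidableEq ι] (m : St ι) : ext1 m ax' = ax := by
  unfold ext1
  rw [St.jn_apply _ _ _ _ rfl rfl]; simp

theorem ext1_lb {ι : Type*} [DecidableEq ι] (m : St ι) (i : ι) : ext1 m (lb i) = lb (m i) := by
  unfold ext1
  rw [St.jn_apply _ _ _ _ rfl rfl]; simp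

theorem cap_fin (hL : 0 < L) (F : Sts L l → ℂ) (m : Sts L l) :
    ∃ e : Bool, capF F (rl (sg L l L) (Ee e m)) = F (rl (ta L l) m) := by
  set la : Lb L l := Sum.inl ⟨L - 1, by omega⟩ with hla
  have s1 : sg L l L (lb la) = ax := sg_last hL
  have s2 : sg L l L ax = lb (ta L l la) := by rw [sg_ax L le_rfl hL, hla, ta_last hL]
  have s3 : sg L l L ax' = ax' := sg_ax' L le_rfl
  have s4 : ∀ x, x ≠ la → sg L l L (lb x) = lb (ta L l x) := fun x hx => sg_ne_last x hL hx
  by_cases hm : m la = la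
  · refine ⟨false, ?_⟩
    have hM : rl (sg L l L) (Ee false m) = ext0 (rl (ta L l) m) := by
      refine St.ext' fun y => ?_
      obtain ⟨x, rfl⟩ := (sg L l L).surjective y
      rw [rl_apply, Equiv.symm_apply_apply]
      change sg L l L (ext0 m x) = _
      rcases oo_cases x with rfl | rfl | ⟨z, rfl⟩
      · rw [ext0_ax, s2, ext0_lb, rl_apply, Equiv.symm_apply_apply, hm]
      · rw [ext0_ax', s3, ext0_ax']
      · rw [ext0_lb]
        by_cases hz : z = la
        · subst hz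
          rw [hm, s1, ext0_ax]
        · have hz' : m z ≠ la := fun h => hz (m.inj (h.trans hm.symm))
          rw [s4 _ hz', s4 _ hz, ext0_lb, rl_apply, Equiv.symm_apply_apply]
    rw [hM, capF_ext0]
  · refine ⟨true, ?_⟩
    set M := rl (sg L l L) (Ee true m) with hMdef
    have hMv : ∀ x, M (sg L l L x) = sg L l L (ext1 m x) := by
      intro x
      rw [hMdef, rl_apply, Equiv.symm_apply_apply]
      rfl
    have v1 : M ax = lb (ta L l (m la)) := by
      have := hMv (lb la)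
      rw [s1, ext1_lb, s4 _ hm] at this
      exact this
    have v2 : M ax' = lb (ta L l la) := by
      have := hMv ax'
      rw [s3, ext1_ax', s2] at this
      exact this
    have a1 : M ax ≠ ax := by rw [v1]; simp
    have a2 : M ax' ≠ ax' := by rw [v2]; simp
    have a3 : M ax ≠ ax' := by rw [v1]; simp
    rw [capF_cp F M a1 a2 a3]
    congr 1
    have hE : M.cp ax ax' = ext0 (rl (ta L l) m) := by
      refine St.ext' fun y => ?_
      rcases oo_cases y with rfl | rfl | ⟨z, rfl⟩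
      · rw [(cp_ax a1 a2).1, ext0_ax]
      · rw [(cp_ax a1 a2).2, ext0_ax']
      · obtain ⟨x, rfl⟩ := (ta L l).surjective z
        rw [ext0_lb, rl_apply, Equiv.symm_apply_apply, St.cp_apply _ _ _ _ a1 a2, v1, v2,
          if_neg (by simp), if_neg (by simp)]
        by_cases hx : x = m la
        · subst hx
          rw [if_pos rfl, m.inv]
        · have hx' : lb (ta L l x) ≠ (lb (ta L l (m la)) : Option (Option (Lb L l))) :=
            fun e => hx ((ta L l).injective (lb_inj e))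
          rw [if_neg hx']
          by_cases hx2 : x = la
          · subst hx2
            rw [if_pos rfl]
          · have hx3 : lb (ta L l x) ≠ (lb (ta L l la) : Option (Option (Lb L l))) :=
              fun e => hx2 ((ta L l).injective (lb_inj e))
            rw [if_neg hx3, ← s4 _ hx2, hMv, ext1_lb, s4]
            intro e
            apply hx
            rw [← e, m.inv]
    rw [hE, res_ext0]

theorem Ee_sw (e : Bool) (m : Sts L l) (p q : Lb L l) :
    Ee e (m.sw p q) = (Ee e m).sw (lb p) (lb q) := by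
  unfold Ee
  cases e
  · simp only [Bool.false_eq_true, if_false, ext0_eq, Phi_sw]
  · simp only [if_true, ext1_eq, Phi_sw]

theorem Ee_jn (e : Bool) (m : Sts L l) (p q : Lb L l) :
    Ee e (m.jn p q) = (Ee e m).jn (lb p) (lb q) := by
  unfold Ee
  cases e
  · simp only [Bool.false_eq_true, if_false, ext0_eq, Phi_jn]
  · simp only [if_true, ext1_eq, Phi_jn]

theorem Ee_cp (e : Bool) (m : Sts L l) (p q : Lb L l) :
    Ee e (m.cp p q) = (Ee e m).cp (lb p) (lb q) := by
  unfold Ee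
  cases e
  · simp only [Bool.false_eq_true, if_false, ext0_eq, Phi_cp]
  · simp only [if_true, ext1_eq, Phi_cp]

theorem Ee_lb (e : Bool) (m : Sts L l) (p : Lb L l) : Ee e m (lb p) = lb (m p) := by
  unfold Ee
  cases e
  · simp
  · simp only [if_true, ext1_lb]

end Cap

/-! ### the path of the auxiliary line -/

section Path

variable {L l : ℕ}

/-- the product of the R-matrices over the sites `k, k + 1, .., L - 1` -/
noncomputable def Fk (v : ℂ) (U : Fin L → ℂ) (G : St (Option (Option (Lb L l))) → ℂ) (k : ℕ) :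
    St (Option (Option (Lb L l))) → ℂ := Fo ((lns L l).drop k) v (rap U) G

theorem Fk_succ (v : ℂ) (U : Fin L → ℂ) (G : St (Option (Option (Lb L l))) → ℂ) {k : ℕ}
    (h : k < L) :
    Fk v U G k = Rt ax (lb (Sum.inl ⟨k, h⟩)) (v - U ⟨k, h⟩) (Fk v U G (k + 1)) := by
  unfold Fk
  have h1 : k < (lns L l).length := by simpa [lns] using h
  have h2 : (lns L l).drop k = Sum.inl ⟨k, h⟩ :: (lns L l).drop (k + 1) := by
    rw [List.drop_eq_getElem_cons h1]
    congr 1
    simp [lns]
  rw [h2, Fo_cons]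
  rfl

theorem Fk_last (v : ℂ) (U : Fin L → ℂ) (G : St (Option (Option (Lb L l))) → ℂ) :
    Fk v U G L = G := by
  unfold Fk
  rw [List.drop_eq_nil_of_le (by simp [lns])]
  rfl

variable {v : ℂ} {U : Fin L → ℂ}

theorem Fk_nn (hu : ∀ i, v - U i = 0 ∨ Wt (v - U i)) {G : St (Option (Option (Lb L l))) → ℂ}
    (hG : ∀ M, 0 ≤ G M) : ∀ n k : ℕ, k + n = L → ∀ M, 0 ≤ Fk v U G k M := by
  intro n
  induction n with
  | zero =>
    intro k hk M
    rw [Nat.add_zero] at hk
    subst hk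
    rw [Fk_last]
    exact hG M
  | succ n ih =>
    intro k hk M
    rw [Fk_succ v U G (by omega)]
    exact Rt_nn (hu _) _ _ (ih (k + 1) (by omega)) M

theorem Fk_nn' (hu : ∀ i, v - U i = 0 ∨ Wt (v - U i)) {G : St (Option (Option (Lb L l))) → ℂ}
    (hG : ∀ M, 0 ≤ G M) (k : ℕ) (hk : k ≤ L) (M) : 0 ≤ Fk v U G k M :=
  Fk_nn hu hG (L - k) k (by omega) M

theorem Fk_shift (hu : ∀ i, v - U i = 0 ∨ Wt (v - U i)) {G : St (Option (Option (Lb L l))) → ℂ}
    (hG : ∀ M, 0 ≤ G M) (M0 : St (Option (Option (Lb L l)))) (n j : ℕ) (hj : j + n ≤ L)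
    (h : 0 < Fk v U G (j + n) (rl (sg L l (j + n)) M0)) : 0 < Fk v U G j (rl (sg L l j) M0) := by
  induction n generalizing j with
  | zero => exact h
  | succ n ih =>
    rw [Fk_succ v U G (by omega)]
    apply Rt_sw_pos (hu _) _ _ (Fk_nn' hu hG (j + 1) (by omega))
    have e : (rl (sg L l j) M0).sw ax (lb (Sum.inl ⟨j, by omega⟩)) = rl (sg L l (j + 1)) M0 := by
      rw [sg_succ (by omega), rl_mul]
      rfl
    rw [e]
    apply ih (j + 1) (by omega)
    rw [show j + 1 + n = j + (n + 1) by omega]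
    exact h

theorem capF_nn {F : Sts L l → ℂ} (hF : ∀ m, 0 ≤ F m) (M : St (Option (Option (Lb L l)))) :
    0 ≤ capF F M := by
  unfold capF
  split_ifs
  · exact hF _
  · exact le_rfl
  · exact le_rfl
  · exact le_rfl
  · exact hF _

theorem Tf_eq_Fk (v : ℂ) (U : Fin L → ℂ) (F : Sts L l → ℂ) (m : Sts L l) :
    Tf v U F m = Fk v U (capF F) 0 (Ee false m) + Fk v U (capF F) 0 (Ee true m) := rfl

theorem Tf_nn (hu : ∀ i, v - U i = 0 ∨ Wt (v - U i)) {F : Sts L l → ℂ} (hF : ∀ m, 0 ≤ F m)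
    (m : Sts L l) : 0 ≤ Tf v U F m := by
  rw [Tf_eq_Fk]
  exact add_nonneg (Fk_nn' hu (capF_nn hF) 0 (Nat.zero_le _) _)
    (Fk_nn' hu (capF_nn hF) 0 (Nat.zero_le _) _)

theorem Tf_pos_of (hu : ∀ i, v - U i = 0 ∨ Wt (v - U i)) {F : Sts L l → ℂ} (hF : ∀ m, 0 ≤ F m)
    (m : Sts L l) (e : Bool) (h : 0 < Fk v U (capF F) 0 (Ee e m)) : 0 < Tf v U F m := by
  rw [Tf_eq_Fk]
  have h0 := Fk_nn' hu (capF_nn hF) 0 (Nat.zero_le _) (Ee false m)
  have h1 := Fk_nn' hu (capF_nn hF) 0 (Nat.zero_le _) (Ee true m)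
  cases e
  · exact add_pos_of_pos_of_nonneg h h1
  · exact add_pos_of_nonneg_of_pos h0 h

theorem Tf_shift_pos (hL : 0 < L) (hu : ∀ i, v - U i = 0 ∨ Wt (v - U i)) {F : Sts L l → ℂ}
    (hF : ∀ m, 0 ≤ F m) (m : Sts L l) (h : 0 < F (rl (ta L l) m)) : 0 < Tf v U F m := by
  obtain ⟨e, he⟩ := cap_fin hL F m
  apply Tf_pos_of hu hF m e
  have h1 := Fk_shift hu (capF_nn hF) (Ee e m) L 0 (by omega) (by
    rw [Nat.zero_add, Fk_last, he]
    exact h)
  exact h1

/-- The three moves at two labels. -/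
def Mr (a b : Lb L l) (m m' : Sts L l) : Prop :=
  (m a ≠ a ∧ m b = b ∧ m' = m.sw a b) ∨ (m a = a ∧ m b = b ∧ m' = m.jn a b) ∨
    (m a ≠ a ∧ m b ≠ b ∧ m a ≠ b ∧ m' = m.cp a b)

theorem Mr_rl (σ : Equiv.Perm (Lb L l)) {a b : Lb L l} {m m' : Sts L l} (h : Mr a b m m') :
    Mr (σ a) (σ b) (rl σ m) (rl σ m') := by
  have e : ∀ x, (rl σ m) (σ x) = σ (m x) := by intro x; simp
  rcases h with ⟨h1, h2, rfl⟩ | ⟨h1, h2, rfl⟩ | ⟨h1, h2, h3, rfl⟩
  · refine Or.inl ⟨?_, ?_, rl_sw _ _ _ _⟩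
    · rw [e]; exact fun h => h1 (σ.injective h)
    · rw [e, h2]
  · refine Or.inr (Or.inl ⟨?_, ?_, rl_jn _ _ _ _⟩)
    · rw [e, h1]
    · rw [e, h2]
  · refine Or.inr (Or.inr ⟨?_, ?_, ?_, rl_cp _ _ _ _⟩)
    · rw [e]; exact fun h => h1 (σ.injective h)
    · rw [e]; exact fun h => h2 (σ.injective h)
    · rw [e]; exact fun h => h3 (σ.injective h)

theorem sw_invol {κ : Type*} [DecidableEq κ] (m : St κ) (p q : κ) : (m.sw p q).sw p q = m := by
  refine St.ext' fun x => ?_
  show Equiv.swap p q (Equiv.swap p q (m (Equiv.swap p q (Equiv.swap p q x)))) = m x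
  simp

theorem Tf_move_pos (hu : ∀ i, v - U i = 0 ∨ Wt (v - U i)) {F : Sts L l → ℂ}
    (hF : ∀ m, 0 ≤ F m) (i : ℕ) (hi : i + 1 < L) (hW : Wt (v - U ⟨i + 1, hi⟩)) (m m' : Sts L l)
    (hm : Mr (Sum.inl ⟨i, by omega⟩) (Sum.inl ⟨i + 1, hi⟩) m m') (h : 0 < F (rl (ta L l) m')) :
    0 < Tf v U F m := by
  obtain ⟨e, he⟩ := cap_fin (by omega) F m'
  apply Tf_pos_of hu hF m e
  have h1 : 0 < Fk v U (capF F) (i + 2) (rl (sg L l (i + 2)) (Ee e m')) := by
    apply Fk_shift hu (capF_nn hF) (Ee e m') (L - (i + 2)) (i + 2) (by omega)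
    rw [show i + 2 + (L - (i + 2)) = L by omega, Fk_last, he]
    exact h
  have h2 : 0 < Fk v U (capF F) (i + 1) (rl (sg L l (i + 1)) (Ee e m)) := by
    rw [Fk_succ v U (capF F) hi]
    have hnn := Fk_nn' hu (capF_nn hF) (i + 2) (by omega)
    set a : Lb L l := Sum.inl ⟨i, by omega⟩ with ha
    set b : Lb L l := Sum.inl ⟨i + 1, hi⟩ with hb
    set M := rl (sg L l (i + 1)) (Ee e m) with hM
    have sa : sg L l (i + 1) (lb a) = ax := sg_eq (l := l) (⟨i, by omega⟩ : Fin L)
    have sb : sg L l (i + 1) (lb b) = lb b := sg_gt (i + 1) (by omega) ⟨i + 1, hi⟩ le_rfl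
    have hMa : M ax = sg L l (i + 1) (lb (m a)) := by
      conv_lhs => rw [hM, ← sa, rl_apply, Equiv.symm_apply_apply, Ee_lb]
    have hMb : M (lb b) = sg L l (i + 1) (lb (m b)) := by
      conv_lhs => rw [hM, ← sb, rl_apply, Equiv.symm_apply_apply, Ee_lb]
    have c1 : M ax = ax ↔ m a = a := by
      rw [hMa]
      conv_lhs => rw [← sa]
      constructor
      · intro h
        exact lb_inj ((sg L l (i + 1)).injective h)
      · intro h; rw [h]
    have c2 : M (lb b) = lb b ↔ m b = b := by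
      rw [hMb]
      conv_lhs => rhs; rw [← sb]
      constructor
      · intro h
        exact lb_inj ((sg L l (i + 1)).injective h)
      · intro h; rw [h]
    have c3 : M ax = lb b ↔ m a = b := by
      rw [hMa]
      conv_lhs => rhs; rw [← sb]
      constructor
      · intro h
        exact lb_inj ((sg L l (i + 1)).injective h)
      · intro h; rw [h]
    have hsg : ∀ N : St (Option (Option (Lb L l))), rl (sg L l (i + 2)) N =
        (rl (sg L l (i + 1)) N).sw ax (lb b) := by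
      intro N
      rw [sg_succ (k := i + 1) hi, rl_mul]
      rfl
    rw [hsg] at h1
    rcases hm with ⟨k1, k2, rfl⟩ | ⟨k1, k2, rfl⟩ | ⟨k1, k2, k3, rfl⟩
    · rw [Ee_sw, rl_sw, sa, sb, ← hM, sw_invol] at h1
      exact Rt_stay_pos hW _ _ hnn M (fun h => k1 (c1.1 h)) (c2.2 k2) h1
    · rw [Ee_jn, rl_jn, sa, sb, ← hM, sw_join] at h1
      · exact Rt_jn_pos hW _ _ hnn M (c1.2 k1) (c2.2 k2) h1
      · rw [St.jn_apply _ _ _ _ (c1.2 k1) (c2.2 k2), if_pos rfl]
    · rw [Ee_cp, rl_cp, sa, sb, ← hM, sw_emp] at h1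
      · exact Rt_cp_pos hW _ _ hnn M (fun h => k1 (c1.1 h)) (fun h => k2 (c2.1 h))
          (fun h => k3 (c3.1 h)) h1
      · rw [St.cp_apply _ _ _ _ (fun h => k1 (c1.1 h)) (fun h => k2 (c2.1 h)), if_pos rfl]
      · rw [St.cp_apply _ _ _ _ (fun h => k1 (c1.1 h)) (fun h => k2 (c2.1 h)), if_neg (by simp),
          if_pos rfl]
  exact Fk_shift hu (capF_nn hF) (Ee e m) (i + 1) 0 (by omega) (by rw [Nat.zero_add]; exact h2)

theorem Tf_iter_nn (hu : ∀ i, v - U i = 0 ∨ Wt (v - U i)) {F : Sts L l → ℂ}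
    (hF : ∀ m, 0 ≤ F m) (n : ℕ) : ∀ m, 0 ≤ ((Tf v U)^[n] F) m := by
  induction n with
  | zero => exact hF
  | succ n ih =>
    intro m
    rw [Function.iterate_succ_apply']
    exact Tf_nn hu ih m

theorem Tf_iter_shift (hL : 0 < L) (hu : ∀ i, v - U i = 0 ∨ Wt (v - U i)) {F : Sts L l → ℂ}
    (hF : ∀ m, 0 ≤ F m) (n : ℕ) (m : Sts L l) (h : 0 < F (rl (ta L l ^ n) m)) :
    0 < ((Tf v U)^[n] F) m := by
  induction n generalizing m with
  | zero => exact h
  | succ n ih =>
    rw [Function.iterate_succ_apply']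
    apply Tf_shift_pos hL hu (Tf_iter_nn hu hF n)
    apply ih
    rw [← rl_mul, ← pow_succ]
    exact h

end Path

theorem mr_of_stp {L l : ℕ} {m m' : Sts L l} (h : Stp m m') :
    ∃ i : Fin L, Mr (Sum.inl i) (Sum.inl (ad i 1)) m m' := by
  rcases h with ⟨i, h1, h2⟩ | ⟨i, h0, h1, h2⟩ | ⟨i, h0, h1, h2, h3⟩
  · exact ⟨i, Or.inl ⟨h1, h2, rfl⟩⟩
  · exact ⟨i, Or.inr (Or.inl ⟨h1, h2, rfl⟩)⟩
  · exact ⟨i, Or.inr (Or.inr ⟨h1, h2, h3, rfl⟩)⟩

end PB

open PB in
/-- Positivity of the operators in the second half of the homotopy. -/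
theorem posB {p l : ℕ} (hp : 0 < p) {w : ℝ} (h1 : Real.pi / 16 ≤ w) (h2 : w < Real.pi / 8) :
    PosOp l (2 * p) (w : ℂ) (Uw (2 * p) w) := by
  have hW : Wt ((2 * w : ℝ) : ℂ) := wt_of (by linarith) (by linarith)
  have hodd : ∀ i : Fin (2 * p), i.val % 2 = 1 → Wt ((w : ℂ) - Uw (2 * p) w i) := by
    intro i hi
    unfold Uw
    rw [if_neg (by omega)]
    have : (w : ℂ) - -(w : ℂ) = ((2 * w : ℝ) : ℂ) := by push_cast; ring
    rw [this]
    exact hW
  have hu : ∀ i : Fin (2 * p), (w : ℂ) - Uw (2 * p) w i = 0 ∨ Wt ((w : ℂ) - Uw (2 * p) w i) := by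
    intro i
    by_cases hi : i.val % 2 = 0
    · left
      unfold Uw
      rw [if_pos hi, sub_self]
    · exact Or.inr (hodd i (by omega))
  refine ⟨fun F hF m => Tf_nn hu hF m, ?_⟩
  intro F hF m m' hmm' hpos
  have hL : 0 < 2 * p := by omega
  rcases hmm' with rfl | hst
  · apply Tf_iter_shift hL hu hF
    rw [ta_pow_L, rl_one]
    exact hpos
  · obtain ⟨i, hi⟩ := mr_of_stp hst
    by_cases hev : i.val % 2 = 0
    · have hi1 : i.val + 1 < 2 * p := by have := i.isLt; omega
      have had : ad i 1 = ⟨i.val + 1, hi1⟩ := by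
        apply Fin.ext
        rw [ad_val, Nat.mod_eq_of_lt hi1]
      rw [had] at hi
      have e1 : 2 * p = (2 * p - 1).succ := by omega
      have e2 : (Tf (l := l) (w : ℂ) (Uw (2 * p) w))^[2 * p] F =
          Tf (w : ℂ) (Uw (2 * p) w) ((Tf (w : ℂ) (Uw (2 * p) w))^[2 * p - 1] F) :=
        (congrArg (fun k => (Tf (l := l) (w : ℂ) (Uw (2 * p) w))^[k] F) e1).trans
          (Function.iterate_succ_apply' _ _ _)
      rw [e2]
      apply Tf_move_pos hu (Tf_iter_nn hu hF _) i.val hi1 (hodd _ (by show (i.val + 1) % 2 = 1; omega))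
        m m' hi
      apply Tf_iter_shift hL hu hF
      rw [← rl_mul, ← pow_succ, Nat.sub_add_cancel (by omega), ta_pow_L, rl_one]
      exact hpos
    · have e1 : 2 * p = (2 * p - 2).succ.succ := by omega
      have e2 : (Tf (l := l) (w : ℂ) (Uw (2 * p) w))^[2 * p] F =
          Tf (w : ℂ) (Uw (2 * p) w) (Tf (w : ℂ) (Uw (2 * p) w)
            ((Tf (w : ℂ) (Uw (2 * p) w))^[2 * p - 2] F)) :=
        (congrArg (fun k => (Tf (l := l) (w : ℂ) (Uw (2 * p) w))^[k] F) e1).trans
          ((Function.iterate_succ_apply' _ _ _).trans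
            (congrArg _ (Function.iterate_succ_apply' _ _ _)))
      rw [e2]
      apply Tf_shift_pos hL hu (Tf_nn hu (Tf_iter_nn hu hF _))
      have hi' := Mr_rl (ta (2 * p) l) hi
      rw [ta_inl, ta_inl] at hi'
      set i' : Fin (2 * p) := ad i 1 with hi'def
      have hev' : i'.val % 2 = 0 := by
        rw [hi'def, ad_val]
        have := i.isLt
        rcases Nat.lt_or_ge (i.val + 1) (2 * p) with h | h
        · rw [Nat.mod_eq_of_lt h]; omega
        · have : i.val + 1 = 2 * p := by omega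
          rw [this, Nat.mod_self]
      have hi1 : i'.val + 1 < 2 * p := by have := i'.isLt; omega
      have had : ad i' 1 = ⟨i'.val + 1, hi1⟩ := by
        apply Fin.ext
        rw [ad_val, Nat.mod_eq_of_lt hi1]
      rw [had] at hi'
      apply Tf_move_pos hu (Tf_iter_nn hu hF _) i'.val hi1
        (hodd _ (by show (i'.val + 1) % 2 = 1; omega)) _ _ hi'
      apply Tf_iter_shift hL hu hF
      rw [← rl_mul, ← rl_mul, ← pow_succ, ← pow_succ,
        show 2 * p - 2 + 1 + 1 = 2 * p by omega, ta_pow_L, rl_one]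
      exact hpos

end Pool.Agent.CYL
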