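import Mathlib
import Pool.Agent.CYG.Def
import Pool.Agent.BEX.AYb2
import Pool.Agent.BEX.AFix3

/-!
# CYL, part PF, fusion (P8 of note 3180): splitting and merging of lines, definitions

All operators act on FUNCTIONS of the state (transposed action).
* `Sp p q` : `D`, the line `p` is split into the lines `p`, `q` (`q` is empty before).
* `Mg p q` : `D^T`, the lines `p`, `q` are merged into `p` (`q` is empty afterwards).
* `up`, `dn`: the states on `p` sites as the states on `2 p` sites with empty odd sites.
* `Dd`, `Dt`: the pull backs by `D` and `D^T` (all pairs of sites `2 k`, `2 k + 1`).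
* `Shf`: the pull back by the shift of the sites by one (`i` becomes `i + 1`).
-/

namespace Pool.Agent.CYL

open Complex Finset
open Pool.Agent.BEX

/-- `x_c = w4 (2 lam) / kk (2 lam) = sqrt 2 sin (pi / 8)`. -/
noncomputable def xc : ℂ := ((Real.sqrt 2 * Real.sin (Real.pi / 8) : ℝ) : ℂ)

section loc

variable {ι : Type*} [DecidableEq ι]

/-- Splitting of the line `p` into `p`, `q` (`q` is empty before). -/
noncomputable def Sp (p q : ι) (F : St ι → ℂ) (M : St ι) : ℂ :=
  if M p = p then F M + xc * F (M.jn p q) else xc * (F M + F (M.sw p q))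

/-- Merging of the lines `p`, `q` into `p` (`q` is empty afterwards). -/
noncomputable def Mg (p q : ι) (F : St ι → ℂ) (M : St ι) : ℂ :=
  if M p = p then (if M q = q then F M else xc * F (M.sw p q))
  else if M q = q then xc * F M
  else if M p = q then 0
  else xc * F (M.cp p q)

end loc

section glob

variable {p l : ℕ}

/-- The left site of the pair `k`. -/
def sL (l : ℕ) {p : ℕ} (k : Fin p) : Lb (2 * p) l := Sum.inl ⟨2 * (k : ℕ), by omega⟩

/-- The right site of the pair `k`. -/
def sR (l : ℕ) {p : ℕ} (k : Fin p) : Lb (2 * p) l := Sum.inl ⟨2 * (k : ℕ) + 1, by omega⟩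

/-- The embedding of the labels, site `k` becomes the site `2 k`. -/
def i2 : Lb p l → Lb (2 * p) l := Sum.elim (sL l) Sum.inr

theorem i2_inj : Function.Injective (i2 : Lb p l → Lb (2 * p) l) := by
  rintro (a | a) (b | b) h
  · simp only [i2, Sum.elim_inl, sL, Sum.inl.injEq, Fin.mk.injEq] at h
    exact congrArg Sum.inl (Fin.ext (by omega))
  · simp [i2, sL] at h
  · simp [i2, sL] at h
  · simp only [i2, Sum.elim_inr, Sum.inr.injEq] at h
    exact congrArg Sum.inr h

/-- The state `m` carried by the labels `i2` (the odd sites are empty). -/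
noncomputable def up (m : Sts p l) : Sts (2 * p) l :=
  Phi i2 i2_inj St.emp (fun a => ⟨a, rfl⟩) m

/-- underlying function of `dn` -/
noncomputable def dnf (M : Sts (2 * p) l) (i : Lb p l) : Lb p l := by
  classical
  exact if h : ∃ j, i2 j = M (i2 i) then h.choose else i

theorem dnf_eq {M : Sts (2 * p) l} {i j : Lb p l} (h : M (i2 i) = i2 j) : dnf M i = j := by
  unfold dnf
  have h1 : ∃ j, i2 j = M (i2 i) := ⟨j, h.symm⟩
  rw [dif_pos h1]
  exact i2_inj (h1.choose_spec.trans h)

theorem dnf_inv (M : Sts (2 * p) l) (i : Lb p l) : dnf M (dnf M i) = i := by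
  by_cases h : ∃ j, i2 j = M (i2 i)
  · obtain ⟨j, hj⟩ := h
    rw [dnf_eq hj.symm]
    apply dnf_eq
    rw [hj, M.inv]
  · have h1 : dnf M i = i := by
      unfold dnf
      rw [dif_neg h]
    rw [h1, h1]

/-- The restriction of a state to the labels `i2` (meant for states with empty odd sites). -/
noncomputable def dn (M : Sts (2 * p) l) : Sts p l := ⟨dnf M, dnf_inv M⟩

/-- Pull back by `D`: all sites are split. -/
noncomputable def Dd (G : Sts (2 * p) l → ℂ) (m : Sts p l) : ℂ :=
  ((List.finRange p).foldr (fun k H => Sp (sL l k) (sR l k) H) G) (up m)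

/-- Pull back by `D^T`: all pairs of sites are merged. -/
noncomputable def Dt (F : Sts p l → ℂ) (M : Sts (2 * p) l) : ℂ :=
  ((List.finRange p).foldr (fun k H => Mg (sL l k) (sR l k) H) (fun N => F (dn N))) M

/-- The shift of the sites by one, on the labels. -/
def shE (L l : ℕ) : Lb L l ≃ Lb L l := Equiv.sumCongr (finRotate L) (Equiv.refl (Fin l))

/-- Pull back by the shift of the sites by one. -/
def Shf {L l : ℕ} (G : Sts L l → ℂ) (M : Sts L l) : ℂ := G (rl (shE L l) M)

theorem dn_up (m : Sts p l) : dn (up m) = m := by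
  ext i
  show dnf (up m) i = m i
  apply dnf_eq
  unfold up
  rw [Phi_apply]

end glob

end Pool.Agent.CYL
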