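import Mathlib
import Pool.Agent.CYG.P.Dbl
import Pool.Agent.BEX.AProp
import Pool.Agent.BEX.ACross
import Pool.Agent.BEX.AFar

/-!
# CYL, part PF, fusion: the local identities

* `Rt_zero`: at `X = 0` the R-matrix exchanges the two lines.
* `Rt_two`: on the states with `q` empty, `Rt p q (2 lam)` is a multiple of `Sp p q`.
* `Sp_RR`: splitting the line `q` into `q`, `r` and crossing them with `X = 2 lam`, `X = 0` is the same
  as crossing `q` with `X = lam` and splitting it afterwards.
-/

set_option linter.unusedVariables false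
set_option linter.unusedSectionVars false

namespace Pool.Agent.CYL.Db

open Complex Pool.Agent.BEX

/-! ### values of the weights -/

theorem rel_lam : ∃ c s h : ℂ, cos lam = c ∧ sin lam = s ∧ sin (2 * lam) = h ∧ xc = 2 * h * s ∧
    h ^ 2 = 1 / 2 ∧ 2 * s * c = h ∧ sin (3 * lam) = c ∧ sin (4 * lam) = 1 ∧ sin (5 * lam) = c := by
  refine ⟨_, _, _, rfl, rfl, rfl, ?_, ?_, ?_, sin_3lam, ?_, ?_⟩
  · rw [sin_2lam, ← AOm_lam, ← ofReal_sin]
    unfold xc
    push_cast
    ring
  · rw [sin_2lam, ← ofReal_pow, div_pow, Real.sq_sqrt (by norm_num)]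
    push_cast
    norm_num
  · rw [sin_two_mul]
  · rw [show 4 * lam = ((Real.pi / 2 : ℝ) : ℂ) by unfold lam; push_cast; ring, ← ofReal_sin,
      Real.sin_pi_div_two, ofReal_one]
  · rw [← sin_3lam, show 5 * lam = (Real.pi : ℂ) - 3 * lam by unfold lam; ring, sin_pi_sub]

theorem xc_ne : xc ≠ 0 := by
  have h : 0 < Real.sqrt 2 * Real.sin (Real.pi / 8) :=
    mul_pos (by positivity) (Real.sin_pos_of_pos_of_lt_pi (by positivity) (by linarith [Real.pi_pos]))
  unfold xc
  exact_mod_cast h.ne'

theorem cos_lam_ne : cos lam ≠ 0 := by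
  have h : 0 < Real.cos (Real.pi / 8) :=
    Real.cos_pos_of_mem_Ioo ⟨by linarith [Real.pi_pos], by linarith [Real.pi_pos]⟩
  rw [← AOm_lam, ← ofReal_cos]
  exact_mod_cast h.ne'

theorem kk_1 : kk lam = cos lam := by
  obtain ⟨c, s, h, h1, h2, h3, h4, h5, h6, h7, h8, h9⟩ := rel_lam
  unfold kk
  rw [show 2 * lam + lam = 3 * lam by ring, show 3 * lam + lam = 4 * lam by ring, h7, h8, h1]
  ring

theorem kk_2 : kk (2 * lam) = cos lam := by
  obtain ⟨c, s, h, h1, h2, h3, h4, h5, h6, h7, h8, h9⟩ := rel_lam
  unfold kk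
  rw [show 2 * lam + 2 * lam = 4 * lam by ring, show 3 * lam + 2 * lam = 5 * lam by ring, h8, h9, h1]
  ring

theorem kk_1_ne : kk lam ≠ 0 := by rw [kk_1]; exact cos_lam_ne

theorem kk_2_ne : kk (2 * lam) ≠ 0 := by rw [kk_2]; exact cos_lam_ne

theorem w2_1 : w2 lam = kk lam * xc := by
  obtain ⟨c, s, h, h1, h2, h3, h4, h5, h6, h7, h8, h9⟩ := rel_lam
  rw [kk_1, h1]
  unfold w2
  rw [show 3 * lam - lam = 2 * lam by ring, h3, h4]
  linear_combination (-h) * h6

theorem w4_1 : w4 lam = kk lam * xc ^ 2 := by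
  obtain ⟨c, s, h, h1, h2, h3, h4, h5, h6, h7, h8, h9⟩ := rel_lam
  rw [kk_1, h1]
  unfold w4
  rw [h3, h2, h4]
  linear_combination (-4 * c * s ^ 2) * h5 - s * h6

theorem w6_1 : w6 lam = kk lam * xc ^ 2 := by
  rw [← w4_1]
  unfold w6 w4
  rw [show 3 * lam - lam = 2 * lam by ring]
  ring

theorem w8_1 : w8 lam = kk lam * xc ^ 2 := by
  rw [← w4_1]
  unfold w8 w4
  rw [show 3 * lam - lam = 2 * lam by ring, show 2 * lam - lam = lam by ring]
  ring

theorem w9_1 : w9 lam = 0 := by
  unfold w9
  rw [sub_self, sin_zero, mul_zero, neg_zero]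

theorem w4_2 : w4 (2 * lam) = kk (2 * lam) * xc := by
  obtain ⟨c, s, h, h1, h2, h3, h4, h5, h6, h7, h8, h9⟩ := rel_lam
  rw [kk_2, h1]
  unfold w4
  rw [h3, h4]
  linear_combination (-h) * h6

theorem w2_2 : w2 (2 * lam) = kk (2 * lam) * xc ^ 2 := by
  rw [kk_2, ← kk_1, ← w4_1]
  unfold w2 w4
  rw [show 3 * lam - 2 * lam = lam by ring]

theorem w6_2 : w6 (2 * lam) = kk (2 * lam) * xc ^ 2 := by
  rw [kk_2, ← kk_1, ← w4_1]
  unfold w6 w4
  rw [show 3 * lam - 2 * lam = lam by ring]

theorem w8_2 : w8 (2 * lam) = 0 := by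
  unfold w8
  rw [sub_self, sin_zero, zero_mul]

theorem w9_2 : w9 (2 * lam) = kk (2 * lam) * xc ^ 2 := by
  rw [kk_2, ← kk_1, ← w4_1]
  unfold w9 w4
  rw [show lam - 2 * lam = -lam by ring, sin_neg]
  ring

theorem w2_0 : w2 0 = kk 0 := by
  unfold w2 kk
  rw [sub_zero, add_zero, add_zero]

theorem w8_0 : w8 0 = kk 0 := by
  unfold w8 kk
  rw [sub_zero, sub_zero, add_zero, add_zero]

theorem w4_0 : w4 0 = 0 := by
  unfold w4
  rw [sin_zero, mul_zero]

theorem w6_0 : w6 0 = 0 := by
  unfold w6
  rw [sin_zero, zero_mul]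

theorem w9_0 : w9 0 = 0 := by
  unfold w9
  rw [sin_zero, zero_mul, neg_zero]

/-! ### states -/

variable {ι : Type*} [DecidableEq ι]

open Far

theorem sw_ee {M : St ι} {p q : ι} (h1 : M p = p) (h2 : M q = q) : M.sw p q = M := by
  ext x
  rw [sw_ap']
  have i5 := M.inv x
  grind (splits := 40)

theorem sw_jj {M : St ι} {p q : ι} (h1 : M p = q) : M.sw p q = M := by
  have h2 : M q = p := by rw [← h1]; simp
  ext x
  rw [sw_ap']
  have i5 := M.inv x
  grind (splits := 40)

theorem Rt_zero (p q : ι) (G : St ι → ℂ) (M : St ι) : Rt p q 0 G M = kk 0 * G (M.sw p q) := by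
  unfold Rt
  rw [w2_0, w4_0, w6_0, w8_0, w9_0]
  split_ifs with h1 h2 h3 h4
  · rw [sw_ee h1 h2]; ring
  · ring
  · ring
  · rw [sw_jj h4]
  · ring

/-- On the states with `q` empty `Rt p q (2 lam)` is a multiple of `Sp p q`. -/
theorem Rt_two {p q : ι} (F : St ι → ℂ) {M : St ι} (hq : M q = q) :
    Rt p q (2 * lam) F M = kk (2 * lam) * (if M p = p then 1 else xc) * Sp p q F M := by
  unfold Rt Sp
  rw [w4_2, w6_2, w2_2]
  by_cases hp : M p = p
  · rw [if_pos hp, if_pos hq, if_pos hp, if_pos hp]
    ring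
  · rw [if_neg hp, if_pos hq, if_neg hp, if_neg hp]
    ring

theorem Sp_eq_Rt {p q : ι} (F : St ι → ℂ) {M : St ι} (hq : M q = q) :
    Sp p q F M = (if M p = p then (kk (2 * lam))⁻¹ else (kk (2 * lam) * xc)⁻¹) *
      Rt p q (2 * lam) F M := by
  rw [Rt_two F hq]
  have h1 := kk_2_ne
  have h2 := xc_ne
  split_ifs
  · field_simp
  · field_simp

/-- the local fusion identity -/
theorem Sp_RR {a q r : ι} (haq : a ≠ q) (har : a ≠ r) (hqr : q ≠ r) (G : St ι → ℂ) {M : St ι}
    (hr : M r = r) :
    Sp q r (Rt a q (2 * lam) (Rt a r 0 G)) M =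
      kk (2 * lam) * kk 0 / kk lam * Rt a q lam (Sp q r G) M := by
  have hk := kk_1_ne
  have i0 := M.inv a
  have i1 := M.inv q
  by_cases hq : M q = q
  · by_cases ha : M a = a
    · -- all three lines are empty
      have e1 : (M.jn q r).sw a q = M.jn a r := by
        ext x
        rw [sw_ap', jn_ap hq hr, jn_ap ha hr]
        have i5 := M.inv x
        grind (splits := 40)
      have e2 : (M.jn a q).sw a r = M.jn q r := by
        ext x
        rw [sw_ap', jn_ap ha hq, jn_ap hq hr]
        have i5 := M.inv x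
        grind (splits := 40)
      have e3 : (M.jn q r).sw a r = M.jn a q := by
        ext x
        rw [sw_ap', jn_ap ha hq, jn_ap hq hr]
        have i5 := M.inv x
        grind (splits := 40)
      have e4 : (M.jn a q).sw q r = M.jn a r := by
        ext x
        rw [sw_ap', jn_ap ha hq, jn_ap ha hr]
        have i5 := M.inv x
        grind (splits := 40)
      have e5 : (M.jn a r).sw a r = M.jn a r := sw_jj (by rw [jn_ap ha hr]; simp)
      have f1 : (M.jn q r) a = a := by rw [jn_ap hq hr]; grind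
      have f2 : (M.jn q r) q ≠ q := by rw [jn_ap hq hr]; grind
      have f3 : (M.jn a q) q ≠ q := by rw [jn_ap ha hq]; grind
      have L1 : Rt a q (2 * lam) (Rt a r 0 G) M = kk (2 * lam) * kk 0 * (G M + xc * G (M.jn q r)) := by
        rw [AY.Rt_ee ha hq rfl, Rt_zero, Rt_zero, sw_ee ha hr, e2, w4_2]
        ring
      have L2 : Rt a q (2 * lam) (Rt a r 0 G) (M.jn q r) = kk (2 * lam) * kk 0 *
          (xc ^ 2 * (G (M.jn a q) + G (M.jn a r))) := by
        rw [AY.Rt_eo f1 f2 e1, Rt_zero, Rt_zero, e3, e5, w6_2, w2_2]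
        ring
      have R1 : Rt a q lam (Sp q r G) M = kk lam * (G M + xc * G (M.jn q r) +
          xc ^ 3 * (G (M.jn a q) + G (M.jn a r))) := by
        rw [AY.Rt_ee ha hq rfl, w4_1]
        unfold Sp
        rw [if_pos hq, if_neg f3, e4]
        ring
      unfold Sp at R1 ⊢
      rw [if_pos hq, R1, L1, L2]
      field_simp
    · -- only a is occupied
      have hqa : M a ≠ q := fun h => by rw [h] at i0; exact haq (i0.symm.trans hq)
      have hra : M a ≠ r := fun h => by rw [h] at i0; exact har (i0.symm.trans hr)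
      have f1 : (M.jn q r) a ≠ a := by rw [jn_ap hq hr]; grind
      have f2 : (M.jn q r) q ≠ q := by rw [jn_ap hq hr]; grind
      have f3 : (M.jn q r) a ≠ q := by rw [jn_ap hq hr]; grind
      have e1 : (M.jn q r).cp a q = M.sw a r := by
        ext x
        rw [cp_ap f1 f2, sw_ap']
        simp only [jn_ap hq hr]
        clear f1 f2 f3
        have i5 := M.inv x
        grind (splits := 40)
      have f4 : (M.sw a r) a = a := by rw [sw_ap']; grind
      have f5 : (M.sw a r) q = q := by rw [sw_ap']; grind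
      have e2 : ((M.sw a r).jn a q).sw a r = M.jn q r := by
        ext x
        rw [sw_ap']
        simp only [jn_ap f4 f5, jn_ap hq hr, sw_ap']
        clear f1 f2 f3 f4 f5
        have i5 := M.inv x
        grind (splits := 60)
      have e3 : (M.sw a r).sw a r = M := by
        ext x
        rw [sw_ap', ]
        simp only [sw_ap']
        have i5 := M.inv x
        grind (splits := 40)
      have f6 : (M.sw a q) a = a := by rw [sw_ap']; grind
      have f7 : (M.sw a q) q ≠ q := by rw [sw_ap']; grind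
      have f8 : (M.sw a q) r = r := by rw [sw_ap']; grind
      have e4 : (M.sw a q).sw q r = M.sw a r := by
        ext x
        rw [sw_ap']
        simp only [sw_ap']
        clear f1 f2 f3 f4 f5 f6 f7 f8
        have i5 := M.inv x
        grind (splits := 60)
      have L1 : Rt a q (2 * lam) (Rt a r 0 G) M = kk (2 * lam) * kk 0 *
          (xc ^ 2 * (G (M.sw a r) + G (M.sw a q))) := by
        rw [AY.Rt_oe ha hq rfl, Rt_zero, Rt_zero, sw_ee f6 f8, w6_2, w2_2]
        ring
      have L2 : Rt a q (2 * lam) (Rt a r 0 G) (M.jn q r) = kk (2 * lam) * kk 0 *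
          (xc * G M + xc ^ 2 * G (M.jn q r)) := by
        rw [AY.Rt_oo f1 f2 f3 rfl rfl rfl]
        simp only [Rt_zero]
        rw [e1, e2, e3, w8_2, w9_2, w4_2]
        ring
      have R1 : Rt a q lam (Sp q r G) M = kk lam * (xc ^ 2 * G M + xc ^ 3 * G (M.jn q r) +
          xc ^ 2 * (G (M.sw a q) + G (M.sw a r))) := by
        rw [AY.Rt_oe ha hq rfl, w6_1, w2_1]
        unfold Sp
        rw [if_pos hq, if_neg f7, e4]
        ring
      unfold Sp at R1 ⊢
      rw [if_pos hq, R1, L1, L2]
      field_simp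
      ring
  · have hrq : M q ≠ r := fun h => by rw [h] at i1; exact hqr (i1.symm.trans hr)
    by_cases ha : M a = a
    · -- only q is occupied
      have hqa : M q ≠ a := fun h => by rw [h] at i1; exact haq (ha.symm.trans i1)
      have f1 : (M.sw q r) a = a := by rw [sw_ap']; grind
      have f2 : (M.sw q r) q = q := by rw [sw_ap']; grind
      have f3 : (M.sw a q) q = q := by rw [sw_ap']; grind
      have f4 : (M.sw a q) r = r := by rw [sw_ap']; grind
      have e1 : (M.sw a q).sw a r = M.sw q r := by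
        ext x
        rw [sw_ap']
        simp only [sw_ap']
        clear f1 f2 f3 f4
        have i5 := M.inv x
        grind (splits := 60)
      have e2 : (M.sw q r).sw a r = M.sw a q := by
        ext x
        rw [sw_ap']
        simp only [sw_ap']
        clear f1 f2 f3 f4
        have i5 := M.inv x
        grind (splits := 60)
      have e3 : ((M.sw q r).jn a q).sw a r = (M.sw a q).jn q r := by
        ext x
        rw [sw_ap']
        simp only [jn_ap f1 f2, jn_ap f3 f4, sw_ap']
        clear f1 f2 f3 f4 e1 e2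
        have i5 := M.inv x
        grind (splits := 60)
      have L1 : Rt a q (2 * lam) (Rt a r 0 G) M = kk (2 * lam) * kk 0 *
          (xc ^ 2 * (G M + G (M.sw q r))) := by
        rw [AY.Rt_eo ha hq rfl, Rt_zero, Rt_zero, sw_ee ha hr, e1, w6_2, w2_2]
        ring
      have L2 : Rt a q (2 * lam) (Rt a r 0 G) (M.sw q r) = kk (2 * lam) * kk 0 *
          (G (M.sw a q) + xc * G ((M.sw a q).jn q r)) := by
        rw [AY.Rt_ee f1 f2 rfl, Rt_zero, Rt_zero, e2, e3, w4_2]
        ring
      have R1 : Rt a q lam (Sp q r G) M = kk lam * (xc ^ 3 * (G M + G (M.sw q r)) +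
          xc * G (M.sw a q) + xc ^ 2 * G ((M.sw a q).jn q r)) := by
        rw [AY.Rt_eo ha hq rfl, w6_1, w2_1]
        unfold Sp
        rw [if_neg hq, if_pos f3]
        ring
      unfold Sp at R1 ⊢
      rw [if_neg hq, R1, L1, L2]
      field_simp
      ring
    · have hra : M a ≠ r := fun h => by rw [h] at i0; exact har (i0.symm.trans hr)
      by_cases hj : M a = q
      · -- a and q are joined
        have f1 : (M.sw q r) a ≠ a := by rw [sw_ap']; grind
        have f2 : (M.sw q r) q = q := by rw [sw_ap']; grind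
        have e1 : (M.sw q r).sw a r = M.sw q r := sw_jj (by rw [sw_ap']; grind)
        have e2 : ((M.sw q r).sw a q).sw a r = M := by
          ext x
          rw [sw_ap']
          simp only [sw_ap']
          clear f1 f2 e1
          have i5 := M.inv x
          grind (splits := 60)
        have L1 : Rt a q (2 * lam) (Rt a r 0 G) M = 0 := by
          rw [AY.Rt_jj ha hq hj, w8_2, zero_mul]
        have L2 : Rt a q (2 * lam) (Rt a r 0 G) (M.sw q r) = kk (2 * lam) * kk 0 *
            (xc ^ 2 * (G M + G (M.sw q r))) := by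
          rw [AY.Rt_oe f1 f2 rfl, Rt_zero, Rt_zero, e1, e2, w6_2, w2_2]
          ring
        have R1 : Rt a q lam (Sp q r G) M = kk lam * (xc ^ 3 * (G M + G (M.sw q r))) := by
          rw [AY.Rt_jj ha hq hj, w8_1]
          unfold Sp
          rw [if_neg hq]
          ring
        unfold Sp at R1 ⊢
        rw [if_neg hq, R1, L1, L2]
        field_simp
        ring
      · -- a and q are occupied and not joined
        have f1 : (M.sw q r) a ≠ a := by rw [sw_ap']; grind
        have f2 : (M.sw q r) q = q := by rw [sw_ap']; grind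
        have g1 : (M.cp a q) a = a := by rw [cp_ap ha hq]; grind
        have g2 : (M.cp a q) q = q := by rw [cp_ap ha hq]; grind
        have g3 : (M.cp a q) r = r := by rw [cp_ap ha hq]; grind
        have g4 : (M.sw a q) q ≠ q := by rw [sw_ap']; grind
        have e1 : ((M.cp a q).jn a q).sw a r = (M.cp a q).jn q r := by
          ext x
          rw [sw_ap']
          simp only [jn_ap g1 g2, jn_ap g2 g3]
          generalize M.cp a q = N at g1 g2 g3
          have i5 := N.inv x
          grind (splits := 60)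
        have e2 : ((M.sw q r).sw a q).sw a r = M.sw a q := by
          ext x
          rw [sw_ap']
          simp only [sw_ap']
          clear f1 f2 g1 g2 g3 g4 e1
          have i5 := M.inv x
          grind (splits := 80)
        have e3 : (M.sw a q).sw q r = (M.sw q r).sw a r := by
          ext x
          rw [sw_ap', sw_ap']
          simp only [sw_ap']
          clear f1 f2 g1 g2 g3 g4 e1 e2
          have i5 := M.inv x
          grind (splits := 80)
        have L1 : Rt a q (2 * lam) (Rt a r 0 G) M = kk (2 * lam) * kk 0 *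
            (xc * G (M.cp a q) + xc ^ 2 * G ((M.cp a q).jn q r)) := by
          rw [AY.Rt_oo ha hq hj rfl rfl rfl]
          simp only [Rt_zero]
          rw [e1, sw_ee g1 g3, w8_2, w9_2, w4_2]
          ring
        have L2 : Rt a q (2 * lam) (Rt a r 0 G) (M.sw q r) = kk (2 * lam) * kk 0 *
            (xc ^ 2 * (G ((M.sw q r).sw a r) + G (M.sw a q))) := by
          rw [AY.Rt_oe f1 f2 rfl, Rt_zero, Rt_zero, e2, w6_2, w2_2]
          ring
        have R1 : Rt a q lam (Sp q r G) M = kk lam * (xc ^ 3 * (G (M.sw a q) +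
            G ((M.sw q r).sw a r)) + xc ^ 2 * G (M.cp a q) + xc ^ 3 * G ((M.cp a q).jn q r)) := by
          rw [AY.Rt_oo ha hq hj rfl rfl rfl, w8_1, w9_1, w4_1]
          unfold Sp
          rw [if_neg g4, if_pos g2, e3]
          ring
        unfold Sp at R1 ⊢
        rw [if_neg hq, R1, L1, L2]
        field_simp
        ring

end Pool.Agent.CYL.Db
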