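import Pool.Agent.CYG.P.Cl
import Pool.Agent.CYL.P.PF
import Pool.Agent.BEX.AFix1

/-!
# CYL, part PF: the joint nonnegative eigenvector (P5), uniqueness, normalisation, continuity

`Kc L l` : the states of the class `Cls`; `Ar v U` : real part of the matrix of `T(v; U)` on the
class; `RealPrim v U` : the matrix of `T(v; U)` on the class is real and primitive (P1, P3);
`Planar L l` : the class is stable (P2). `psiOf v U` : Perron-Frobenius eigenvector of `Ar v U`,
extended by zero.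
-/

set_option autoImplicit false

namespace Pool.Agent.CYL

open Complex Finset Matrix
open Pool.Agent.BEX

/-- The matrix of `T(v; U)` on the class is real, nonnegative and primitive. -/
structure RealPrim {L : ℕ} (l : ℕ) (v : ℂ) (U : Fin L → ℂ) : Prop where
  nn : Nn (l := l) v U
  prim : (Bc (l := l) v U).IsPrimitive

/-- The Perron-Frobenius eigenvector of `T(v; U)` on the class, extended by zero. -/
noncomputable def psiOf {L l : ℕ} (v : ℂ) (U : Fin L → ℂ) : Sts L l → ℝ := ex (pfVec (Bc v U))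

section Basic

variable {L l : ℕ}

theorem sum_Kc {M : Type*} [AddCommMonoid M] (f : Sts L l → M) (hf : ∀ m, ¬ Cls m → f m = 0) :
    ∑ i : Kc L l, f i.1 = ∑ m, f m := by
  classical
  have h1 : ∑ i : Kc L l, f i.1 = ∑ m ∈ Finset.univ.filter Cls, f m :=
    (Finset.sum_subtype (Finset.univ.filter Cls) (by simp) f).symm
  rw [h1, Finset.sum_filter]
  refine Finset.sum_congr rfl fun m _ => ?_
  split_ifs with h
  · rfl
  · exact (hf m h).symm

theorem Tf_add (v : ℂ) (U : Fin L → ℂ) (F G : Sts L l → ℂ) :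
    Tf v U (F + G) = Tf v U F + Tf v U G := Tt_add _ _ _ _ _

theorem Tf_smul (v : ℂ) (U : Fin L → ℂ) (c : ℂ) (F : Sts L l → ℂ) :
    Tf v U (c • F) = c • Tf v U F := Tt_smul _ _ _ _ _

/-- `T(v; U)` as a linear map -/
noncomputable def TfL (v : ℂ) (U : Fin L → ℂ) : (Sts L l → ℂ) →ₗ[ℂ] (Sts L l → ℂ) where
  toFun := Tf v U
  map_add' := Tf_add v U
  map_smul' := fun c F => Tf_smul v U c F

theorem Tf_eq_sum (v : ℂ) (U : Fin L → ℂ) (F : Sts L l → ℂ) (m : Sts L l) :
    Tf v U F m = ∑ m', F m' * Tm v U m' m := by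
  have h1 : F = ∑ m', F m' • (Pi.single m' 1 : Sts L l → ℂ) := by
    funext n
    rw [Finset.sum_apply]
    simp [Pi.single_apply]
  have h2 : TfL v U F = ∑ m', F m' • TfL v U (Pi.single m' 1) := by
    conv_lhs => rw [h1]
    rw [map_sum]
    exact Finset.sum_congr rfl fun m' _ => map_smul _ _ _
  have h3 := congrFun h2 m
  rw [Finset.sum_apply] at h3
  exact h3

theorem Tf_Tf_single (v v' : ℂ) (U : Fin L → ℂ) (m' m : Sts L l) :
    Tf v U (Tf v' U (Pi.single m' 1)) m = ∑ n, Tm v' U m' n * Tm v U n m := by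
  rw [Tf_eq_sum]
  rfl

theorem Sup_single {m' : Sts L l} (h : Chi m') : Sup (Pi.single m' 1 : Sts L l → ℂ) := by
  intro m hm
  rw [Pi.single_apply, if_neg]
  rintro rfl
  exact hm h

theorem Pla.tm_sup (hpl : Pla L l) (v : ℂ) (U : Fin L → ℂ) (m' m : Sts L l) (h' : Chi m')
    (h : ¬ Chi m) : Tm v U m' m = 0 :=
  hpl.sup v U _ (Sup_single h') m h

theorem Pla.tm_cls (hpl : Pla L l) (v : ℂ) (U : Fin L → ℂ) (m' m : Sts L l) (h : Cls m)
    (h' : Chi m') (h'' : ¬ Cls m') : Tm v U m' m = 0 := by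
  refine hpl.cls v U _ (Sup_single h') (fun n hn => ?_) m h
  rw [Pi.single_apply, if_neg]
  rintro rfl
  exact h'' hn

theorem Tc_mul_apply (hpl : Pla L l) (v v' : ℂ) (U : Fin L → ℂ) (i j : Kc L l) :
    ((Tc (l := l) v' U * Tc v U : Matrix (Kc L l) (Kc L l) ℂ)) i j = Tf v U (Tf v' U (Pi.single i.1 1)) j.1 := by
  rw [Tf_Tf_single, mul_apply]
  refine sum_Kc (fun n => Tm v' U i.1 n * Tm v U n j.1) fun n hn => ?_
  by_cases h : Chi n
  · rw [hpl.tm_cls v U n j.1 j.2 h hn, mul_zero]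
  · rw [hpl.tm_sup v' U i.1 n i.2.1 h, zero_mul]

theorem Tc_comm (hpl : Pla L l) (hc : Comm L l) (v v' : ℂ) (U : Fin L → ℂ) :
    Tc (l := l) v U * Tc v' U = Tc v' U * Tc v U := by
  ext i j
  rw [Tc_mul_apply hpl, Tc_mul_apply hpl, hc U v' v _ (Sup_single i.2.1)]

theorem Bc_map {v : ℂ} {U : Fin L → ℂ} (h : Nn (l := l) v U) :
    (Bc (l := l) v U).map (Complex.ofReal) = Tc v U := by
  ext i j
  rw [Matrix.map_apply]
  exact (h i j).1.symm

theorem psiOf_of {v : ℂ} {U : Fin L → ℂ} {m : Sts L l} (h : Cls m) :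
    psiOf v U m = pfVec (Bc v U) ⟨m, h⟩ := ex_of _ h

theorem psiOf_Kc {v : ℂ} {U : Fin L → ℂ} (i : Kc L l) :
    psiOf v U i.1 = pfVec (Bc v U) i := ex_val _ i

theorem psiOf_not {v : ℂ} {U : Fin L → ℂ} {m : Sts L l} (h : ¬ Cls m) : psiOf v U m = 0 :=
  ex_not _ h

theorem IsPsi.t_eq {U : Fin L → ℂ} {psi : Sts L l → ℝ} {t : ℂ → ℂ} (h : IsPsi U psi t) :
    t = tv U psi := by
  funext v
  have h1 := h.eig v chF (fun m hm => if_neg hm)
  have h2 : ∑ m, (psi m : ℂ) * (chF m) = 1 := by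
    have h3 : ∀ m, (psi m : ℂ) * (chF m) = ((psi m : ℝ) : ℂ) := by
      intro m
      unfold chF
      split_ifs with hm
      · rw [mul_one]
      · rw [mul_zero, h.supp m (fun hc => hm hc.1), Complex.ofReal_zero]
    rw [Finset.sum_congr rfl fun m _ => h3 m, ← Complex.ofReal_sum, h.sum, Complex.ofReal_one]
  rw [h2, mul_one] at h1
  exact h1.symm

/-- eigenvectors of `T(v; U)` on the class, as vectors on all states -/
theorem eig_iff (hpl : Pla L l) {v s : ℂ} {U : Fin L → ℂ} {psi : Sts L l → ℝ}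
    (hsupp : ∀ m, ¬ Cls m → psi m = 0) :
    (∀ F : Sts L l → ℂ, Sup F → ∑ m, (psi m : ℂ) * Tf v U F m = s * ∑ m, (psi m : ℂ) * F m) ↔
      Tc v U *ᵥ (fun i => (psi i.1 : ℂ)) = s • fun i : Kc L l => (psi i.1 : ℂ) := by
  constructor
  · intro h
    funext i
    have h1 := h (Pi.single i.1 1) (Sup_single i.2.1)
    have h2 : ∑ m, (psi m : ℂ) * (Pi.single i.1 1 : Sts L l → ℂ) m = (psi i.1 : ℂ) := by
      simp [Pi.single_apply]
    rw [h2] at h1
    simp only [Pi.smul_apply, smul_eq_mul]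
    rw [← h1]
    simp only [mulVec, dotProduct]
    refine (sum_Kc (fun m => Tm v U i.1 m * (psi m : ℂ)) fun m hm => ?_).trans ?_
    · rw [hsupp m hm, Complex.ofReal_zero, mul_zero]
    · exact Finset.sum_congr rfl fun m _ => mul_comm _ _
  · intro h F hF
    have h1 : ∀ m, Tf v U F m = ∑ m', F m' * Tm v U m' m := Tf_eq_sum v U F
    simp only [h1, Finset.mul_sum]
    rw [Finset.sum_comm]
    refine Finset.sum_congr rfl fun m' _ => ?_
    by_cases hc : Chi m'
    · by_cases hcl : Cls m'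
      · have h2 := congrFun h ⟨m', hcl⟩
        simp only [mulVec, dotProduct] at h2
        have h3 : ∑ j : Kc L l, Tm v U m' j.1 * (psi j.1 : ℂ) =
            ∑ m, Tm v U m' m * (psi m : ℂ) :=
          sum_Kc (fun m => Tm v U m' m * (psi m : ℂ)) fun m hm => by
            rw [hsupp m hm, Complex.ofReal_zero, mul_zero]
        have h4 : ∑ m, Tm v U m' m * (psi m : ℂ) = s * (psi m' : ℂ) := by
          rw [← h3]
          exact h2
        calc ∑ m, (psi m : ℂ) * (F m' * Tm v U m' m)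
            = F m' * ∑ m, Tm v U m' m * (psi m : ℂ) := by
              rw [Finset.mul_sum]
              exact Finset.sum_congr rfl fun m _ => by ring
          _ = s * ((psi m' : ℂ) * F m') := by
              rw [h4]
              ring
      · rw [hsupp m' hcl, Complex.ofReal_zero, zero_mul, mul_zero]
        refine Finset.sum_eq_zero fun m _ => ?_
        by_cases hm : Cls m
        · rw [hpl.tm_cls v U m' m hm hc hcl, mul_zero, mul_zero]
        · rw [hsupp m hm, Complex.ofReal_zero, zero_mul]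
    · rw [hF m' hc, mul_zero, mul_zero]
      exact Finset.sum_eq_zero fun m _ => by rw [zero_mul, mul_zero]

end Basic

section Main

variable {L l : ℕ} [Nonempty (Kc L l)]

theorem psiOf_pos {v : ℂ} {U : Fin L → ℂ} (hR : RealPrim l v U) {m : Sts L l} (h : Cls m) :
    0 < psiOf v U m := by
  rw [psiOf_of h]
  exact pfVec_pos hR.prim _

theorem psiOf_nonneg {v : ℂ} {U : Fin L → ℂ} (hR : RealPrim l v U) (m : Sts L l) :
    0 ≤ psiOf v U m := by
  by_cases h : Cls m
  · exact (psiOf_pos hR h).le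
  · rw [psiOf_not h]

theorem sum_psiOf {v : ℂ} {U : Fin L → ℂ} (hR : RealPrim l v U) :
    ∑ m : Sts L l, psiOf v U m = 1 := by
  rw [← sum_Kc (fun m => psiOf v U m) fun m hm => psiOf_not hm]
  rw [← sum_pfVec hR.prim]
  exact Finset.sum_congr rfl fun i _ => psiOf_Kc i

/-- P5: the Perron-Frobenius eigenvector is a joint eigenvector -/
theorem isPsi_psiOf (hpl : Pla L l) (hc : Comm L l) {v : ℂ} {U : Fin L → ℂ}
    (hR : RealPrim l v U) :
    IsPsi U (psiOf (l := l) v U) (tv U (psiOf (l := l) v U)) ∧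
      tv U (psiOf (l := l) v U) v = (pfVal (Bc (l := l) v U) : ℂ) := by
  -- eigenvalues for all parameters
  have h1 : ∀ v' : ℂ, ∃ t : ℂ, Tc v' U *ᵥ (fun i => (psiOf v U i.1 : ℂ)) =
      t • fun i : Kc L l => (psiOf v U i.1 : ℂ) := by
    intro v'
    have h2 := pf_comm hR.prim (pfVec_pos hR.prim) (mulVec_pfVec hR.prim) (B := Tc v' U) (by
      rw [Bc_map hR.nn]
      exact Tc_comm hpl hc _ _ _)
    have h3 : (fun i : Kc L l => (psiOf v U i.1 : ℂ)) = fun i => (pfVec (Bc v U) i : ℂ) := by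
      funext i
      rw [psiOf_Kc]
    rw [h3]
    exact h2
  choose t ht using h1
  have hP : IsPsi U (psiOf (l := l) v U) t := by
    refine ⟨psiOf_nonneg hR, fun m hm => psiOf_not hm, sum_psiOf hR, fun v' => ?_⟩
    exact (eig_iff hpl fun m hm => psiOf_not hm).2 (ht v')
  have ht' := hP.t_eq
  refine ⟨ht' ▸ hP, ?_⟩
  rw [← ht']
  -- value at `v`
  have h4 := ht v
  have h5 : (fun i : Kc L l => (psiOf v U i.1 : ℂ)) = fun i => (pfVec (Bc v U) i : ℂ) := by
    funext i
    rw [psiOf_Kc]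
  rw [h5, ← Bc_map hR.nn] at h4
  obtain ⟨i⟩ := ‹Nonempty (Kc L l)›
  have h6 := congrFun h4 i
  have h7 := congrFun (mulVec_pfVec hR.prim) i
  simp only [mulVec, dotProduct, Pi.smul_apply, smul_eq_mul, Matrix.map_apply] at h6 h7
  have h8 : ((pfVal (Bc (l := l) v U) * pfVec (Bc v U) i : ℝ) : ℂ) =
      t v * (pfVec (Bc v U) i : ℂ) := by
    rw [← h6, ← h7]
    push_cast
    rfl
  have h9 : (pfVec (Bc v U) i : ℂ) ≠ 0 := by
    exact_mod_cast (pfVec_pos hR.prim i).ne'
  rw [Complex.ofReal_mul] at h8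
  exact (mul_right_cancel₀ h9 h8).symm

/-- weak uniqueness: a nonnegative vector on the class with sum `1` which is an eigenvector of ONE
`T(v; U)` with `RealPrim v U` is `psiOf v U` -/
theorem psiOf_unique (hpl : Pla L l) {v s : ℂ} {U : Fin L → ℂ} (hR : RealPrim l v U)
    {psi : Sts L l → ℝ} (hnn : ∀ m, 0 ≤ psi m) (hsupp : ∀ m, ¬ Cls m → psi m = 0)
    (hsum : ∑ m, psi m = 1)
    (he : ∀ F : Sts L l → ℂ, Sup F →
      ∑ m, (psi m : ℂ) * Tf v U F m = s * ∑ m, (psi m : ℂ) * F m) :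
    psi = psiOf v U ∧ s = (pfVal (Bc (l := l) v U) : ℂ) := by
  have h1 := (eig_iff hpl hsupp).1 he
  rw [← Bc_map hR.nn] at h1
  have hsum' : ∑ i : Kc L l, psi i.1 = 1 := by
    rw [sum_Kc psi hsupp]
    exact hsum
  -- `s` is real
  have h2 : ∀ i : Kc L l, (((Bc (l := l) v U *ᵥ fun i => psi i.1) i : ℝ) : ℂ) =
      s * (psi i.1 : ℂ) := by
    intro i
    have h3 := congrFun h1 i
    simp only [mulVec, dotProduct, Pi.smul_apply, smul_eq_mul, Matrix.map_apply] at h3
    rw [← h3]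
    simp only [mulVec, dotProduct]
    push_cast
    rfl
  have h4 : ((∑ i, (Bc (l := l) v U *ᵥ fun i => psi i.1) i : ℝ) : ℂ) = s := by
    rw [Complex.ofReal_sum, Finset.sum_congr rfl fun i _ => h2 i, ← Finset.mul_sum,
      ← Complex.ofReal_sum, hsum', Complex.ofReal_one, mul_one]
  obtain ⟨r, hr⟩ : ∃ r : ℝ, r = ∑ i, (Bc (l := l) v U *ᵥ fun i => psi i.1) i := ⟨_, rfl⟩
  rw [← hr] at h4
  have h5 : Bc (l := l) v U *ᵥ (fun i => psi i.1) = r • fun i : Kc L l => psi i.1 := by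
    funext i
    have h6 := h2 i
    rw [← h4, ← Complex.ofReal_mul] at h6
    exact Complex.ofReal_injective h6
  obtain ⟨h7, h8⟩ := eq_pfVec hR.prim (fun i : Kc L l => hnn i.1) hsum' h5
  refine ⟨funext fun m => ?_, ?_⟩
  · by_cases hm : Cls m
    · rw [psiOf_of hm]
      exact congrFun h7 ⟨m, hm⟩
    · rw [hsupp m hm, psiOf_not hm]
  · rw [← h4, h8]

/-- weak uniqueness without normalisation -/
theorem psiOf_unique' (hpl : Pla L l) {v s : ℂ} {U : Fin L → ℂ} (hR : RealPrim l v U)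
    {y : Sts L l → ℝ} (hnn : ∀ m, 0 ≤ y m) (hsupp : ∀ m, ¬ Cls m → y m = 0) (hne : y ≠ 0)
    (he : ∀ F : Sts L l → ℂ, Sup F →
      ∑ m, (y m : ℂ) * Tf v U F m = s * ∑ m, (y m : ℂ) * F m) :
    0 < ∑ m, y m ∧ (∀ m, y m = (∑ m, y m) * psiOf v U m) ∧
      s = (pfVal (Bc (l := l) v U) : ℂ) := by
  obtain ⟨T, hT⟩ : ∃ T : ℝ, T = ∑ m, y m := ⟨_, rfl⟩
  have hT0 : 0 < T := by
    obtain ⟨m, hm⟩ : ∃ m, y m ≠ 0 := by
      by_contra h
      push Not at h
      exact hne (funext h)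
    rw [hT]
    exact Finset.sum_pos' (fun m _ => hnn m) ⟨m, Finset.mem_univ m,
      lt_of_le_of_ne (hnn m) (Ne.symm hm)⟩
  have h1 := psiOf_unique hpl hR (psi := fun m => T⁻¹ * y m) (s := s)
    (fun m => mul_nonneg (inv_nonneg.2 hT0.le) (hnn m)) (fun m hm => by rw [hsupp m hm, mul_zero])
    (by rw [← Finset.mul_sum, ← hT, inv_mul_cancel₀ hT0.ne'])
    (by
      intro F hF
      have h2 := he F hF
      have h3 : ∀ G : Sts L l → ℂ, ∑ m, ((T⁻¹ * y m : ℝ) : ℂ) * G m =
          ((T⁻¹ : ℝ) : ℂ) * ∑ m, (y m : ℂ) * G m := by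
        intro G
        rw [Finset.mul_sum]
        exact Finset.sum_congr rfl fun m _ => by push_cast; ring
      rw [h3, h3, h2]
      ring)
  rw [← hT]
  refine ⟨hT0, fun m => ?_, h1.2⟩
  rw [← congrFun h1.1 m, ← mul_assoc, mul_inv_cancel₀ hT0.ne', one_mul]

/-- uniqueness of the joint nonnegative eigenvector -/
theorem IsPsi.eq_psiOf (hpl : Pla L l) {v : ℂ} {U : Fin L → ℂ} (hR : RealPrim l v U)
    {psi : Sts L l → ℝ} {t : ℂ → ℂ} (h : IsPsi U psi t) :
    psi = psiOf v U ∧ t v = (pfVal (Bc (l := l) v U) : ℂ) :=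
  psiOf_unique hpl hR h.nonneg h.supp h.sum (h.eig v)

theorem IsPsi.unique (hpl : Pla L l) {v : ℂ} {U : Fin L → ℂ} (hR : RealPrim l v U)
    {psi psi' : Sts L l → ℝ} {t t' : ℂ → ℂ} (h : IsPsi U psi t) (h' : IsPsi U psi' t') :
    psi = psi' ∧ t = t' := by
  have h1 : psi = psi' := ((h.eq_psiOf hpl hR).1).trans ((h'.eq_psiOf hpl hR).1).symm
  refine ⟨h1, ?_⟩
  rw [h.t_eq, h'.t_eq, h1]

theorem IsPsi.pos (hpl : Pla L l) {v : ℂ} {U : Fin L → ℂ} (hR : RealPrim l v U)
    {psi : Sts L l → ℝ} {t : ℂ → ℂ} (h : IsPsi U psi t) {m : Sts L l} (hm : Cls m) :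
    0 < psi m := by
  rw [(h.eq_psiOf hpl hR).1]
  exact psiOf_pos hR hm

theorem IsPsi.t_pos (hpl : Pla L l) {v : ℂ} {U : Fin L → ℂ} (hR : RealPrim l v U)
    {psi : Sts L l → ℝ} {t : ℂ → ℂ} (h : IsPsi U psi t) : 0 < (t v).re ∧ (t v).im = 0 := by
  rw [(h.eq_psiOf hpl hR).2]
  exact ⟨by simpa using pfVal_pos hR.prim, by simp⟩

end Main

section Cont

variable {L l : ℕ}

theorem continuous_Tt_param {ι X : Type*} [DecidableEq ι] [Fintype ι] [TopologicalSpace X]
    (li : List ι) {v : X → ℂ} {U : X → ι → ℂ} (hv : Continuous v) (hU : Continuous U)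
    (F : St ι → ℂ) (m : St ι) : Continuous fun x => Tt li (v x) (U x) F m := by
  have h1 : ∀ m, Continuous fun x => Fo li (v x) (U x) (capF F) m := by
    induction li with
    | nil => exact fun m => continuous_const
    | cons i li ih =>
      intro m
      simp only [Fo_cons]
      exact continuous_Rt _ _ (fun x => v x - U x i)
        (hv.sub ((continuous_apply i).comp hU)) _ (fun m => ih m) m
  simp only [Tt_eq, cupF]
  exact (h1 _).add (h1 _)

theorem continuous_Tf_param {X : Type*} [TopologicalSpace X] {v : X → ℂ} {U : X → Fin L → ℂ}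
    (hv : Continuous v) (hU : Continuous U) (F : Sts L l → ℂ) (m : Sts L l) :
    Continuous fun x => Tf (v x) (U x) F m := by
  refine continuous_Tt_param _ hv ?_ F m
  rw [continuous_pi_iff]
  rintro (i | j)
  · exact (continuous_apply i).comp hU
  · exact continuous_const

theorem continuous_Bc_param {X : Type*} [TopologicalSpace X] {v : X → ℂ} {U : X → Fin L → ℂ}
    (hv : Continuous v) (hU : Continuous U) : Continuous fun x => Bc (l := l) (v x) (U x) := by
  refine continuous_matrix fun i j => ?_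
  exact Complex.continuous_re.comp (continuous_Tf_param hv hU _ _)

theorem continuous_Uw (L : ℕ) : Continuous (Uw L) := by
  rw [continuous_pi_iff]
  intro i
  unfold Uw
  split_ifs
  · exact Complex.continuous_ofReal
  · exact Complex.continuous_ofReal.neg

theorem continuousOn_psiOf [Nonempty (Kc L l)] {X : Type*} [TopologicalSpace X] {s : Set X}
    {v : X → ℂ} {U : X → Fin L → ℂ} (hv : Continuous v) (hU : Continuous U)
    (hR : ∀ x ∈ s, RealPrim l (v x) (U x)) (m : Sts L l) :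
    ContinuousOn (fun x => psiOf (v x) (U x) m) s := by
  by_cases hm : Cls m
  · have h1 := continuousOn_pfVec (s := s) (continuous_Bc_param (l := l) hv hU).continuousOn
      fun x hx => (hR x hx).prim
    have h2 : (fun x => psiOf (v x) (U x) m) = fun x => pfVec (Bc (v x) (U x)) ⟨m, hm⟩ := by
      funext x
      exact psiOf_of hm
    rw [h2]
    exact (continuous_apply (⟨m, hm⟩ : Kc L l)).comp_continuousOn h1
  · have h2 : (fun x => psiOf (v x) (U x) m) = fun _ => (0 : ℝ) := by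
      funext x
      exact psiOf_not hm
    rw [h2]
    exact continuousOn_const

end Cont

section Family

variable {L l : ℕ}

/-- the parameter at which `T(.; U_w)` is nonnegative -/
noncomputable def vW (w : ℝ) : ℝ := if w ≤ Real.pi / 16 then 3 * Real.pi / 16 else w

/-- the eigenvector for `U = (w, -w, ..)` -/
noncomputable def psiW (L l : ℕ) (w : ℝ) : Sts L l → ℝ := psiOf (vW w : ℂ) (Uw L w)

/-- the eigenvalues for `U = (w, -w, ..)` -/
noncomputable def tW (L l : ℕ) (w : ℝ) : ℂ → ℂ := tv (Uw L w) (psiW L l w)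

/-- the hypotheses of P1, P3 for the family -/
structure FamPrim (L l : ℕ) : Prop where
  lo : ∀ w : ℝ, 0 ≤ w → w ≤ Real.pi / 16 → RealPrim l ((3 * Real.pi / 16 : ℝ) : ℂ) (Uw L w)
  hi : ∀ w : ℝ, Real.pi / 16 ≤ w → w < Real.pi / 8 → RealPrim l (w : ℂ) (Uw L w)

theorem FamPrim.vW (h : FamPrim L l) {w : ℝ} (h0 : 0 ≤ w) (h1 : w < Real.pi / 8) :
    RealPrim l (vW w : ℂ) (Uw L w) := by
  unfold CYL.vW
  split_ifs with h2
  · exact h.lo w h0 h2
  · exact h.hi w (not_le.1 h2).le h1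

variable [Nonempty (Kc L l)]

theorem isPsi_psiW (hpl : Pla L l) (hc : Comm L l) (h : FamPrim L l) {w : ℝ} (h0 : 0 ≤ w)
    (h1 : w < Real.pi / 8) : IsPsi (Uw L w) (psiW L l w) (tW L l w) :=
  (isPsi_psiOf hpl hc (h.vW h0 h1)).1

theorem psiW_pos (h : FamPrim L l) {w : ℝ} (h0 : 0 ≤ w) (h1 : w < Real.pi / 8) {m : Sts L l}
    (hm : Cls m) : 0 < psiW L l w m := psiOf_pos (h.vW h0 h1) hm

/-- uniqueness for the family -/
theorem eq_psiW (hpl : Pla L l) (h : FamPrim L l) {w : ℝ} (h0 : 0 ≤ w)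
    (h1 : w < Real.pi / 8) {psi : Sts L l → ℝ} {t : ℂ → ℂ} (hP : IsPsi (Uw L w) psi t) :
    psi = psiW L l w ∧ t = tW L l w := by
  have h2 := (hP.eq_psiOf hpl (h.vW h0 h1)).1
  refine ⟨h2, ?_⟩
  rw [hP.t_eq, h2]
  rfl

theorem continuousOn_psiW (hpl : Pla L l) (hc : Comm L l) (h : FamPrim L l) (m : Sts L l) :
    ContinuousOn (fun w => psiW L l w m) (Set.Ico 0 (Real.pi / 8)) := by
  have hpi : Real.pi / 16 < Real.pi / 8 := by
    have := Real.pi_pos
    linarith
  have hpi0 : 0 < Real.pi / 16 := by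
    have := Real.pi_pos
    linarith
  have h1 : ContinuousOn (fun w : ℝ => psiW L l w m) (Set.Icc 0 (Real.pi / 16)) := by
    have h2 := continuousOn_psiOf (l := l) (s := Set.Icc 0 (Real.pi / 16))
      (v := fun _ : ℝ => ((3 * Real.pi / 16 : ℝ) : ℂ)) continuous_const (continuous_Uw L)
      (fun w hw => h.lo w hw.1 hw.2) m
    refine h2.congr fun w hw => ?_
    have : vW w = 3 * Real.pi / 16 := if_pos hw.2
    simp only [psiW, this]
  have h3 : ContinuousOn (fun w : ℝ => psiW L l w m) (Set.Ico (Real.pi / 16) (Real.pi / 8)) := by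
    have h2 := continuousOn_psiOf (l := l) (s := Set.Ico (Real.pi / 16) (Real.pi / 8))
      (v := fun w : ℝ => (w : ℂ)) Complex.continuous_ofReal (continuous_Uw L)
      (fun w hw => h.hi w hw.1 hw.2) m
    refine h2.congr fun w hw => ?_
    rcases hw.1.lt_or_eq with hlt | heq
    · have : vW w = w := if_neg (not_le.2 hlt)
      simp only [psiW, this]
    · -- the two definitions agree at `π / 16`
      have h4 := isPsi_psiW hpl hc h (w := w) (by linarith [hw.1]) hw.2
      exact congrFun (h4.eq_psiOf hpl (h.hi w hw.1 hw.2)).1 m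
  intro w hw
  rcases lt_trichotomy w (Real.pi / 16) with hlt | heq | hgt
  · have h5 : ContinuousWithinAt (fun w : ℝ => psiW L l w m) (Set.Icc 0 (Real.pi / 16)) w :=
      h1 w ⟨hw.1, hlt.le⟩
    refine h5.mono_of_mem_nhdsWithin ?_
    have h6 : Set.Iio (Real.pi / 16) ∈ nhdsWithin w (Set.Ico 0 (Real.pi / 8)) :=
      mem_nhdsWithin_of_mem_nhds (Iio_mem_nhds hlt)
    filter_upwards [h6, self_mem_nhdsWithin] with x hx hx'
    exact ⟨hx'.1, le_of_lt hx⟩
  · subst heq
    have h5 := (h1 (Real.pi / 16) ⟨hpi0.le, le_refl _⟩).union (h3 (Real.pi / 16) ⟨le_refl _, hpi⟩)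
    refine h5.mono_of_mem_nhdsWithin ?_
    filter_upwards [self_mem_nhdsWithin] with x hx
    rcases le_or_gt x (Real.pi / 16) with hx' | hx'
    · exact Or.inl ⟨hx.1, hx'⟩
    · exact Or.inr ⟨hx'.le, hx.2⟩
  · have h5 : ContinuousWithinAt (fun w : ℝ => psiW L l w m)
      (Set.Ico (Real.pi / 16) (Real.pi / 8)) w := h3 w ⟨hgt.le, hw.2⟩
    refine h5.mono_of_mem_nhdsWithin ?_
    have h6 : Set.Ioi (Real.pi / 16) ∈ nhdsWithin w (Set.Ico 0 (Real.pi / 8)) :=
      mem_nhdsWithin_of_mem_nhds (Ioi_mem_nhds hgt)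
    filter_upwards [h6, self_mem_nhdsWithin] with x hx hx'
    exact ⟨le_of_lt hx, hx'.2⟩

/-- the eigenvalue is jointly continuous: for continuous `v(x)`, `w(x)` -/
theorem continuousOn_tW (hpl : Pla L l) (hc : Comm L l) (h : FamPrim L l) (v : ℂ) :
    ContinuousOn (fun w => tW L l w v) (Set.Ico 0 (Real.pi / 8)) := by
  unfold tW tv
  refine continuousOn_finsetSum _ fun m _ => ContinuousOn.mul ?_ ?_
  · exact Complex.continuous_ofReal.comp_continuousOn (continuousOn_psiW hpl hc h m)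
  · exact (continuous_Tf_param continuous_const (continuous_Uw L) _ _).continuousOn

end Family

end Pool.Agent.CYL
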