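import Pool.Agent.CYG.P.FusL

/-!
# CYL, part P (P8): `T(λ; U_λ)` is: merge all pairs, split them, shift
-/

namespace Pool.Agent.CYL

open Pool.Agent.BEX Pool.Agent.BEX.Far Complex

section loc

variable {ι : Type*} [DecidableEq ι]

/-- all labels of `E` are empty -/
def Emp (E : Set ι) (m : St ι) : Prop := ∀ e ∈ E, m e = e

theorem Sp_congrE {q r : ι} {E : Set ι} (hqE : q ∉ E) (hrE : r ∉ E) {G H : St ι → ℂ} {m : St ι}
    (hr : m r = r) (hE : Emp E m) (h : ∀ n : St ι, Emp E n → G n = H n) : Sp q r G m = Sp q r H m := by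
  have hne : ∀ e ∈ E, e ≠ q ∧ e ≠ r := fun e he => ⟨fun h => hqE (h ▸ he), fun h => hrE (h ▸ he)⟩
  unfold Sp
  by_cases hq : m q = q
  · rw [if_pos hq, if_pos hq, h m hE, h _ fun e he => (jn_fix hq hr (hne e he).1 (hne e he).2).2 (hE e he)]
  · rw [if_neg hq, if_neg hq, h m hE, h _ fun e he => (sw_fix (hne e he).1 (hne e he).2).2 (hE e he)]

theorem Mg_congrE {q r : ι} (hqr : q ≠ r) {E : Set ι} (hqE : q ∉ E) (hrE : r ∉ E) {G H : St ι → ℂ} {m : St ι}
    (hE : Emp E m) (h : ∀ n : St ι, n r = r → Emp E n → G n = H n) : Mg q r G m = Mg q r H m := by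
  have hne : ∀ e ∈ E, e ≠ q ∧ e ≠ r := fun e he => ⟨fun h => hqE (h ▸ he), fun h => hrE (h ▸ he)⟩
  unfold Mg
  by_cases hq : m q = q
  · by_cases hr : m r = r
    · rw [if_pos hq, if_pos hr, if_pos hq, if_pos hr, h m hr hE]
    · rw [if_pos hq, if_neg hr, if_pos hq, if_neg hr, h]
      · rw [sw_ap']
        grind
      · exact fun e he => (sw_fix (hne e he).1 (hne e he).2).2 (hE e he)
  · by_cases hr : m r = r
    · rw [if_neg hq, if_pos hr, if_neg hq, if_pos hr, h m hr hE]
    · by_cases hj : m q = r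
      · rw [if_neg hq, if_neg hr, if_pos hj, if_neg hq, if_neg hr, if_pos hj]
      · rw [if_neg hq, if_neg hr, if_neg hj, if_neg hq, if_neg hr, if_neg hj, h _ (cp_q hq hr)]
        exact fun e he => (cp_fix hq hr hqr hj (hne e he).1 (hne e he).2).2 (hE e he)

end loc

section glob

variable {p l : ℕ}

theorem sL_ne_sR (k j : Fin p) : sL l k ≠ sR l j := by
  intro h
  simp only [sL, sR, Sum.inl.injEq, Fin.mk.injEq] at h
  omega

theorem sL_inj {k j : Fin p} (h : sL l k = sL l j) : k = j := by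
  simp only [sL, Sum.inl.injEq, Fin.mk.injEq] at h
  exact Fin.ext (by omega)

theorem sR_inj {k j : Fin p} (h : sR l k = sR l j) : k = j := by
  simp only [sR, Sum.inl.injEq, Fin.mk.injEq] at h
  exact Fin.ext (by omega)

/-- all splittings -/
noncomputable def SpF (ks : List (Fin p)) (G : Sts (2 * p) l → ℂ) : Sts (2 * p) l → ℂ :=
  ks.foldr (fun k H => Sp (sL l k) (sR l k) H) G

/-- all mergings -/
noncomputable def MgF (ks : List (Fin p)) (G : Sts (2 * p) l → ℂ) : Sts (2 * p) l → ℂ :=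
  ks.foldr (fun k H => Mg (sL l k) (sR l k) H) G

@[simp] theorem SpF_nil (G : Sts (2 * p) l → ℂ) : SpF [] G = G := rfl
@[simp] theorem MgF_nil (G : Sts (2 * p) l → ℂ) : MgF [] G = G := rfl
@[simp] theorem SpF_cons (k : Fin p) (ks : List (Fin p)) (G : Sts (2 * p) l → ℂ) :
    SpF (k :: ks) G = Sp (sL l k) (sR l k) (SpF ks G) := rfl
@[simp] theorem MgF_cons (k : Fin p) (ks : List (Fin p)) (G : Sts (2 * p) l → ℂ) :
    MgF (k :: ks) G = Mg (sL l k) (sR l k) (MgF ks G) := rfl

theorem Sp_MgF {k : Fin p} (ks : List (Fin p)) (hk : k ∉ ks) (H : Sts (2 * p) l → ℂ) (n : Sts (2 * p) l)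
    (hn : n (sR l k) = sR l k) :
    Sp (sL l k) (sR l k) (MgF ks H) n = MgF ks (Sp (sL l k) (sR l k) H) n := by
  induction ks generalizing n with
  | nil => rfl
  | cons j ks ih =>
    rw [List.mem_cons, not_or] at hk
    have hLj : sL l k ≠ sL l j := fun h => hk.1 (sL_inj h)
    have hRj : sR l k ≠ sR l j := fun h => hk.1 (sR_inj h)
    rw [MgF_cons, MgF_cons, Sp_Mg (sL_ne_sR k k) (sL_ne_sR j j) hLj (sL_ne_sR k j) (sL_ne_sR j k).symm hRj _ n hn]
    refine Mg_congrE (E := {sR l k}) (sL_ne_sR j j) ?_ ?_ ?_ ?_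
    · rw [Set.mem_singleton_iff]; exact sL_ne_sR j k
    · rw [Set.mem_singleton_iff]; exact hRj.symm
    · rintro e rfl; exact hn
    · intro n' _ h'
      exact ih hk.2 n' (h' _ rfl)

theorem Lay_two (ks : List (Fin p)) (hks : ks.Nodup) (G : Sts (2 * p) l → ℂ) :
    Lay (ks.map fun k => (sL l k, sR l k)) (2 * lam) G = kk (2 * lam) ^ ks.length • MgF ks (SpF ks G) := by
  induction ks with
  | nil => simp
  | cons k ks ih =>
    rw [List.nodup_cons] at hks
    rw [List.map_cons, Lay_cons, ih hks.2]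
    funext m
    rw [Rt_smul, Pi.smul_apply, Pi.smul_apply, Rt_2lam (sL_ne_sR k k), List.length_cons, pow_succ, smul_eq_mul,
      smul_eq_mul, mul_assoc]
    congr 2
    rw [MgF_cons, SpF_cons]
    exact Mg_congr (sL_ne_sR k k) fun n hn => Sp_MgF ks hks.1 _ n hn

/-- the odd sites of the pairs of `ks` are empty -/
def EmR (ks : List (Fin p)) (m : Sts (2 * p) l) : Prop := ∀ k ∈ ks, m (sR l k) = sR l k

theorem MgF_congr (ks : List (Fin p)) (hks : ks.Nodup) (E : Set (Lb (2 * p) l))
    (hE : ∀ k ∈ ks, sL l k ∉ E ∧ sR l k ∉ E) {G H : Sts (2 * p) l → ℂ}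
    (h : ∀ n, Emp E n → EmR ks n → G n = H n) (m : Sts (2 * p) l) (hm : Emp E m) :
    MgF ks G m = MgF ks H m := by
  induction ks generalizing E m with
  | nil => exact h m hm (fun k hk => by simp at hk)
  | cons k ks ih =>
    rw [List.nodup_cons] at hks
    rw [MgF_cons, MgF_cons]
    refine Mg_congrE (sL_ne_sR k k) (hE k List.mem_cons_self).1 (hE k List.mem_cons_self).2 hm fun n hr hn => ?_
    refine ih hks.2 (insert (sR l k) E) ?_ ?_ n ?_
    · intro j hj
      have h1 := hE j (List.mem_cons_of_mem _ hj)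
      have h2 : j ≠ k := fun h => hks.1 (h ▸ hj)
      simp only [Set.mem_insert_iff, not_or]
      exact ⟨⟨sL_ne_sR j k, h1.1⟩, ⟨fun h => h2 (sR_inj h), h1.2⟩⟩
    · intro n' h3 h4
      refine h n' (fun e he => h3 e (Set.mem_insert_of_mem _ he)) fun j hj => ?_
      rcases List.mem_cons.1 hj with rfl | hj
      · exact h3 _ (Set.mem_insert _ _)
      · exact h4 j hj
    · intro e he
      rcases Set.mem_insert_iff.1 he with rfl | he
      · exact hr
      · exact hn e he

theorem SpF_rl (e : Equiv.Perm (Lb (2 * p) l)) (ks : List (Fin p)) (he : ∀ k ∈ ks, e (sL l k) = sL l k ∧ e (sR l k) = sR l k)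
    (G : Sts (2 * p) l → ℂ) (m : Sts (2 * p) l) : SpF ks G (rl e m) = SpF ks (fun n => G (rl e n)) m := by
  induction ks generalizing m with
  | nil => rfl
  | cons k ks ih =>
    have h1 := he k List.mem_cons_self
    rw [SpF_cons, SpF_cons, Sp_rl e h1.1 h1.2]
    congr 1
    funext n
    exact ih (fun j hj => he j (List.mem_cons_of_mem _ hj)) n

/-- exchange of the two sites of all pairs of `ks` -/
def swP (ks : List (Fin p)) : Equiv.Perm (Lb (2 * p) l) :=
  ks.foldr (fun k e => Equiv.swap (sL l k) (sR l k) * e) 1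

theorem swP_cons (k : Fin p) (ks : List (Fin p)) :
    (swP (k :: ks) : Equiv.Perm (Lb (2 * p) l)) = Equiv.swap (sL l k) (sR l k) * swP ks := rfl

theorem SpF_swap (ks : List (Fin p)) (hks : ks.Nodup) (G : Sts (2 * p) l → ℂ) (m : Sts (2 * p) l) (hm : EmR ks m) :
    SpF ks (fun n => G (rl (swP ks) n)) m = SpF ks G m := by
  induction ks generalizing G m with
  | nil =>
    change G (rl (Equiv.refl _) m) = G m
    rw [rl_refl]
  | cons k ks ih =>
    rw [List.nodup_cons] at hks
    rw [SpF_cons, SpF_cons, ← Sp_swap (SpF ks G) m (hm k List.mem_cons_self)]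
    refine Sp_congrE (E := {x | ∃ j ∈ ks, x = sR l j}) ?_ ?_ (hm k List.mem_cons_self) ?_ ?_
    · rintro ⟨j, _, h⟩; exact sL_ne_sR k j h
    · rintro ⟨j, hj, h⟩; exact hks.1 ((sR_inj h) ▸ hj)
    · rintro e ⟨j, hj, rfl⟩; exact hm j (List.mem_cons_of_mem _ hj)
    · intro n hn
      have h1 : ∀ n' : Sts (2 * p) l, G (rl (swP (k :: ks)) n') =
          (fun n'' => G (rl (Equiv.swap (sL l k) (sR l k)) n'')) (rl (swP ks) n') := by
        intro n'
        simp only [rl_trans]
        rfl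
      rw [show (fun n' => G (rl (swP (k :: ks)) n')) = fun n' =>
        (fun n'' => G (rl (Equiv.swap (sL l k) (sR l k)) n'')) (rl (swP ks) n') from funext h1]
      refine (ih hks.2 (fun n'' => G (rl (Equiv.swap (sL l k) (sR l k)) n'')) n
        (fun j hj => hn _ ⟨j, hj, rfl⟩)).trans ?_
      rw [sw_eq_rl, SpF_rl]
      intro j hj
      have h2 : j ≠ k := fun h => hks.1 (h ▸ hj)
      exact ⟨Equiv.swap_apply_of_ne_of_ne (fun h => h2 (sL_inj h)) (sL_ne_sR j k),
        Equiv.swap_apply_of_ne_of_ne (sL_ne_sR k j).symm (fun h => h2 (sR_inj h))⟩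

theorem swP_out (ks : List (Fin p)) (x : Lb (2 * p) l) (h : ∀ k ∈ ks, x ≠ sL l k ∧ x ≠ sR l k) : swP ks x = x := by
  induction ks with
  | nil => rfl
  | cons k ks ih =>
    rw [swP_cons, Equiv.Perm.mul_apply, ih fun j hj => h j (List.mem_cons_of_mem _ hj)]
    exact Equiv.swap_apply_of_ne_of_ne (h k List.mem_cons_self).1 (h k List.mem_cons_self).2

theorem swP_in (ks : List (Fin p)) (hks : ks.Nodup) (k : Fin p) (hk : k ∈ ks) :
    (swP ks : Equiv.Perm (Lb (2 * p) l)) (sL l k) = sR l k ∧ swP ks (sR l k) = sL l k := by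
  induction ks with
  | nil => simp at hk
  | cons j ks ih =>
    rw [List.nodup_cons] at hks
    rw [swP_cons, Equiv.Perm.mul_apply, Equiv.Perm.mul_apply]
    by_cases h : k = j
    · subst h
      have h1 : ∀ i ∈ ks, i ≠ k := fun i hi h => hks.1 (h ▸ hi)
      rw [swP_out ks, swP_out ks, Equiv.swap_apply_left, Equiv.swap_apply_right]
      · exact ⟨rfl, rfl⟩
      · exact fun i hi => ⟨(sL_ne_sR i k).symm, fun h => h1 i hi (sR_inj h).symm⟩
      · exact fun i hi => ⟨fun h => h1 i hi (sL_inj h).symm, sL_ne_sR k i⟩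
    · have hk' : k ∈ ks := (List.mem_cons.1 hk).resolve_left h
      rw [(ih hks.2 hk').1, (ih hks.2 hk').2]
      exact ⟨Equiv.swap_apply_of_ne_of_ne (sL_ne_sR j k).symm (fun h' => h (sR_inj h')),
        Equiv.swap_apply_of_ne_of_ne (fun h' => h (sL_inj h')) (sL_ne_sR k j)⟩

theorem val_finRotate {n : ℕ} (i : Fin n) : ((finRotate n i : Fin n) : ℕ) = ((i : ℕ) + 1) % n := by
  cases n with
  | zero => exact i.elim0
  | succ n =>
    rw [finRotate_apply, Fin.val_add, Fin.val_one']
    simp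

/-- the pairs of sites -/
def prs (p l : ℕ) : List (Lb (2 * p) l × Lb (2 * p) l) := (List.finRange p).map fun k => (sL l k, sR l k)

theorem fl_get? {ι : Type*} (ps : List (ι × ι)) (k : ℕ) :
    (fl ps)[2 * k]? = (ps[k]?).map Prod.fst ∧ (fl ps)[2 * k + 1]? = (ps[k]?).map Prod.snd := by
  induction ps generalizing k with
  | nil => simp [fl]
  | cons pr ps ih =>
    cases k with
    | zero => simp [fl]
    | succ k =>
      have := ih k
      rw [show 2 * (k + 1) = 2 * k + 1 + 1 by ring]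
      simpa [fl] using this

theorem lns_eq (p l : ℕ) : lns (2 * p) l = fl (prs p l) := by
  apply List.ext_getElem?
  intro n
  obtain ⟨k, hk | hk⟩ := Nat.even_or_odd' n
  · subst hk
    rw [(fl_get? _ k).1]
    unfold lns prs
    rw [List.getElem?_map, List.getElem?_map, Option.map_map]
    by_cases h : k < p
    · rw [List.getElem?_eq_getElem (by simp; omega), List.getElem?_eq_getElem (by simpa using h)]
      simp [sL]
    · rw [List.getElem?_eq_none (by simp; omega), List.getElem?_eq_none (by simp; omega)]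
      rfl
  · subst hk
    rw [(fl_get? _ k).2]
    unfold lns prs
    rw [List.getElem?_map, List.getElem?_map, Option.map_map]
    by_cases h : k < p
    · rw [List.getElem?_eq_getElem (by simp; omega), List.getElem?_eq_getElem (by simpa using h)]
      simp [sR]
    · rw [List.getElem?_eq_none (by simp; omega), List.getElem?_eq_none (by simp; omega)]
      rfl

theorem nodup_lns (L l : ℕ) : (lns L l).Nodup :=
  (List.nodup_finRange L).map fun _ _ h => Sum.inl.inj h

/-- the cycle of the even sites -/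
def evP (p l : ℕ) : Equiv.Perm (Lb (2 * p) l) := List.formPerm ((List.finRange p).map (sL l))

theorem evP_sL (k : Fin p) : evP p l (sL l k) = sL l (finRotate p k) := by
  have hn : ((List.finRange p).map (sL l)).Nodup := (List.nodup_finRange p).map fun _ _ h => sL_inj h
  have h := List.formPerm_apply_getElem _ hn (k : ℕ) (by simp)
  unfold evP
  simp only [List.getElem_map, List.getElem_finRange, List.length_map, List.length_finRange] at h
  have h1 : (Fin.cast (by simp) (⟨(k : ℕ), by simp⟩ : Fin (List.finRange p).length) : Fin p) = k := rfl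
  rw [h1] at h
  rw [h]
  congr 1
  apply Fin.ext
  rw [val_finRotate]
  rfl

theorem evP_out (x : Lb (2 * p) l) (h : ∀ k, x ≠ sL l k) : evP p l x = x := by
  refine List.formPerm_apply_of_notMem fun hx => ?_
  obtain ⟨k, _, rfl⟩ := List.mem_map.1 hx
  exact h k rfl

theorem lb_cases (x : Lb (2 * p) l) : (∃ k, x = sL l k) ∨ (∃ k, x = sR l k) ∨ ∃ j, x = Sum.inr j := by
  rcases x with ⟨i, hi⟩ | j
  · rcases Nat.even_or_odd' i with ⟨k, hk | hk⟩
    · exact Or.inl ⟨⟨k, by omega⟩, by simp [sL, hk]⟩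
    · exact Or.inr (Or.inl ⟨⟨k, by omega⟩, by simp [sR, hk]⟩)
  · exact Or.inr (Or.inr ⟨j, rfl⟩)

theorem evP_eq (p l : ℕ) : evP p l = shE (2 * p) l * swP (List.finRange p) := by
  ext1 x
  rw [Equiv.Perm.mul_apply]
  rcases lb_cases x with ⟨k, rfl⟩ | ⟨k, rfl⟩ | ⟨j, rfl⟩
  · rw [(swP_in _ (List.nodup_finRange p) k (List.mem_finRange k)).1, evP_sL]
    have hp : 0 < p := k.pos
    simp only [sL, sR, shE, Equiv.sumCongr_apply, Sum.map_inl, Sum.inl.injEq]
    apply Fin.ext
    change 2 * ((finRotate p k : Fin p) : ℕ) = _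
    rw [val_finRotate, val_finRotate]
    rcases Nat.lt_or_ge ((k : ℕ) + 1) p with h | h
    · change 2 * (((k : ℕ) + 1) % p) = (2 * (k : ℕ) + 1 + 1) % (2 * p)
      rw [Nat.mod_eq_of_lt h, Nat.mod_eq_of_lt (by omega)]
      ring
    · have h1 : (k : ℕ) + 1 = p := by omega
      change 2 * (((k : ℕ) + 1) % p) = (2 * (k : ℕ) + 1 + 1) % (2 * p)
      rw [h1, Nat.mod_self, show 2 * (k : ℕ) + 1 + 1 = 2 * p by omega, Nat.mod_self]
  · rw [(swP_in _ (List.nodup_finRange p) k (List.mem_finRange k)).2, evP_out _ fun j => (sL_ne_sR j k).symm]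
    simp only [sL, sR, shE, Equiv.sumCongr_apply, Sum.map_inl, Sum.inl.injEq]
    apply Fin.ext
    rw [val_finRotate]
    simp only []
    rw [Nat.mod_eq_of_lt (by omega)]
  · rw [swP_out, evP_out]
    · rfl
    · simp [sL]
    · simp [sL, sR]

/-- The factorisation of `T(w; U_w)`. -/
theorem Tf_fac (hp : 0 < p) (w : ℝ) (F : Sts (2 * p) l → ℂ) :
    Tf (w : ℂ) (Uw (2 * p) w) F = (sin (2 * lam) * sin (3 * lam)) ^ p •
      Lay (prs p l) (2 * w) (fun m => F (rl (evP p l) m)) := by
  have hn := nodup_lns (2 * p) l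
  rw [lns_eq] at hn
  obtain ⟨⟨q, r⟩, ps, hps⟩ : ∃ pr ps, prs p l = pr :: ps := by
    rcases h : prs p l with _ | ⟨pr, ps⟩
    · exfalso
      have := congrArg List.length h
      simp [prs] at this
      omega
    · exact ⟨pr, ps, rfl⟩
  have hlen : ps.length + 1 = p := by
    have := congrArg List.length hps
    simp [prs] at this
    omega
  have hev : evP p l = List.formPerm (((q, r) :: ps).map Prod.fst) := by
    rw [← hps]
    unfold evP prs
    rw [List.map_map]
    rfl
  unfold Tf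
  rw [lns_eq, hps, hev]
  rw [hps] at hn
  have h := Tt_pairs q r ps hn (w : ℂ) (rap (Uw (2 * p) w)) (2 * w) ?_ ?_ F
  · rw [h, hlen]
  · intro pr hpr
    rw [← hps] at hpr
    obtain ⟨k, _, rfl⟩ := List.mem_map.1 hpr
    simp [rap, sL, Uw]
  · intro pr hpr
    rw [← hps] at hpr
    obtain ⟨k, _, rfl⟩ := List.mem_map.1 hpr
    have : (2 * (k : ℕ) + 1) % 2 = 1 := by omega
    simp only [rap, sR, Uw, Sum.elim_inl, this]
    rw [if_neg (by norm_num)]
    ring

theorem up_dn (M : Sts (2 * p) l) (h : EmR (List.finRange p) M) : up (dn M) = M := by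
  have hcl : ∀ x : Lb p l, ∃ y : Lb p l, M (i2 x) = i2 y := by
    intro x
    rcases lb_cases (M (i2 x)) with ⟨k, hk⟩ | ⟨k, hk⟩ | ⟨j, hj⟩
    · exact ⟨Sum.inl k, hk⟩
    · exfalso
      have h1 := h k (List.mem_finRange k)
      rw [← hk, M.inv, hk] at h1
      rcases x with x | x
      · exact sL_ne_sR x k h1
      · simp [i2, sR] at h1
    · exact ⟨Sum.inr j, hj⟩
  apply St.ext'
  intro x
  by_cases hx : ∃ y, i2 y = x
  · obtain ⟨y, rfl⟩ := hx
    obtain ⟨z, hz⟩ := hcl y
    unfold up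
    rw [Phi_apply, hz]
    congr 1
    exact dnf_eq hz
  · unfold up
    rw [Phi_out (hx := hx)]
    rcases lb_cases x with ⟨k, rfl⟩ | ⟨k, rfl⟩ | ⟨j, rfl⟩
    · exact absurd ⟨Sum.inl k, rfl⟩ hx
    · exact (h k (List.mem_finRange k)).symm
    · exact absurd ⟨Sum.inr j, rfl⟩ hx

theorem EmR_up (m : Sts p l) (ks : List (Fin p)) : EmR ks (up m) := by
  intro k _
  have hx : ¬ ∃ y : Lb p l, i2 y = sR l k := by
    rintro ⟨y | y, hy⟩
    · exact sL_ne_sR y k hy
    · simp [i2, sR] at hy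
  unfold up
  rw [Phi_out (hx := hx)]
  rfl

/-- `T(λ; U_λ)`: merge, split, shift. -/
theorem Tf_fus (hp : 0 < p) (F : Sts (2 * p) l → ℂ) (M : Sts (2 * p) l) :
    Tf lam (Uw (2 * p) (Real.pi / 8)) F M =
      (sin (2 * lam) * sin (3 * lam) * kk (2 * lam)) ^ p * Dt (Dd (Shf F)) M := by
  have hl : lam = ((Real.pi / 8 : ℝ) : ℂ) := by unfold lam; push_cast; ring
  have h1 := Tf_fac hp (Real.pi / 8) F (l := l)
  rw [← hl] at h1
  rw [h1]
  unfold prs
  rw [Lay_two _ (List.nodup_finRange p), Pi.smul_apply, Pi.smul_apply, smul_eq_mul, smul_eq_mul,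
    List.length_finRange, ← mul_assoc, ← mul_pow]
  congr 1
  unfold Dt
  refine MgF_congr _ (List.nodup_finRange p) ∅ (fun k _ => ⟨fun h => h, fun h => h⟩) ?_ M (fun e he => absurd he (fun h => h))
  intro N _ hN
  have h2 : (fun m => F (rl (evP p l) m)) = fun m => (Shf F) (rl (swP (List.finRange p)) m) := by
    funext m
    unfold Shf
    rw [evP_eq, rl_trans]
    rfl
  rw [h2]
  change SpF _ _ N = SpF (List.finRange p) (Shf F) (up (dn N))
  rw [up_dn N hN]
  exact SpF_swap _ (List.nodup_finRange p) (Shf F) N hN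

end glob

end Pool.Agent.CYL
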