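import Pool.Agent.CYG.P.Dbl
import Pool.Agent.CYL.P.Fac
import Pool.Agent.BEX.AFar
import Pool.Agent.BEX.LinkKM
import Pool.Agent.BEX.AProp

/-!
# CYL, part P: `R(2λ)` is merging and splitting; splitting and merging of different pairs commute
-/

set_option linter.unusedVariables false

namespace Pool.Agent.CYL

open Pool.Agent.BEX Pool.Agent.BEX.Far Complex

theorem xc_eq : xc = 2 * sin (2 * lam) * sin lam := by
  have h : lam = ((Real.pi / 8 : ℝ) : ℂ) := by unfold lam; push_cast; ring
  rw [sin_2lam, xc, h, ← ofReal_sin]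
  push_cast
  ring

theorem two_sq : (2 : ℂ) * sin (2 * lam) ^ 2 = 1 := by
  rw [sin_2lam_sq]; norm_num

theorem xc_cos : 2 * xc * cos lam = 1 := by
  have h : sin (2 * lam) = 2 * sin lam * cos lam := sin_two_mul lam
  have h2 := two_sq
  rw [xc_eq]
  linear_combination (-2 * sin (2 * lam)) * h + h2

theorem xc_ne : xc ≠ 0 := by
  intro h
  have := xc_cos
  rw [h] at this
  simp at this

theorem kk_2lam : kk (2 * lam) = cos lam := by
  have h1 : sin (2 * lam + 2 * lam) = 1 := by
    rw [show 2 * lam + 2 * lam = 4 * lam by ring]; exact sin_4lam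
  have h2 : sin (3 * lam + 2 * lam) = cos lam := by
    rw [show 3 * lam + 2 * lam = (Real.pi : ℂ) - 3 * lam by unfold lam; ring, sin_pi_sub]; exact sin3_eq_cos
  unfold kk
  rw [h1, h2, one_mul]

theorem w4_2lam : w4 (2 * lam) = kk (2 * lam) * xc := by
  rw [kk_2lam]
  unfold w4
  have h1 := two_sq
  have h2 := xc_cos
  linear_combination (1 / 2 : ℂ) * h1 - (1 / 2 : ℂ) * h2

theorem w2_2lam : w2 (2 * lam) = kk (2 * lam) * xc ^ 2 := by
  rw [kk_2lam]
  unfold w2
  have h2 := xc_cos
  have h3 := xc_eq
  rw [show 3 * lam - 2 * lam = lam by ring]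
  linear_combination (-(1 / 2 : ℂ) * xc) * h2 - (1 / 2 : ℂ) * h3

theorem w6_2lam : w6 (2 * lam) = kk (2 * lam) * xc ^ 2 := by
  rw [← w2_2lam]
  unfold w6 w2
  rw [show 3 * lam - 2 * lam = lam by ring]

theorem w8_2lam : w8 (2 * lam) = 0 := by
  unfold w8
  rw [sub_self, sin_zero, zero_mul]

theorem w9_2lam : w9 (2 * lam) = kk (2 * lam) * xc ^ 2 := by
  rw [← w2_2lam]
  unfold w9 w2
  rw [show 3 * lam - 2 * lam = lam by ring, show lam - 2 * lam = -lam by ring, sin_neg]
  ring

section

variable {ι : Type*} [DecidableEq ι]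

/-- `R(2λ)`: the two lines are merged and split again. -/
theorem Rt_2lam {q r : ι} (hqr : q ≠ r) (F : St ι → ℂ) (m : St ι) :
    Rt q r (2 * lam) F m = kk (2 * lam) * Mg q r (Sp q r F) m := by
  unfold Rt Mg
  rw [w4_2lam, w2_2lam, w6_2lam, w8_2lam, w9_2lam]
  by_cases hq : m q = q
  · by_cases hr : m r = r
    · rw [if_pos hq, if_pos hr, if_pos hq, if_pos hr]
      unfold Sp
      rw [if_pos hq]
      ring
    · rw [if_pos hq, if_neg hr, if_pos hq, if_neg hr]
      unfold Sp
      have h1 : (m.sw q r) q ≠ q := by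
        rw [sw_ap']
        have := m.inv r
        grind
      have h2 : (m.sw q r).sw q r = m := by
        apply St.ext'
        intro x
        rw [sw_ap, sw_ap]
        simp
      rw [if_neg h1, h2]
      ring
  · by_cases hr : m r = r
    · rw [if_neg hq, if_pos hr, if_neg hq, if_pos hr]
      unfold Sp
      rw [if_neg hq]
      ring
    · by_cases hj : m q = r
      · rw [if_neg hq, if_neg hr, if_pos hj, if_neg hq, if_neg hr, if_pos hj]
        ring
      · rw [if_neg hq, if_neg hr, if_neg hj, if_neg hq, if_neg hr, if_neg hj]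
        unfold Sp
        rw [if_pos (cp_p hq hr)]
        ring

theorem jn_off {q r j s : ι} {m : St ι} (hq : m q = q) (hr : m r = r) (h1 : j ≠ q) (h2 : j ≠ r) :
    (m.jn q r) j = m j := by
  rw [jn_ap hq hr, if_neg h1, if_neg h2]

/-- Splitting commutes with merging of another pair (on states where the new line is empty). -/
theorem Sp_Mg {q r a b : ι} (hqr : q ≠ r) (hab : a ≠ b) (hqa : q ≠ a) (hqb : q ≠ b) (hra : r ≠ a) (hrb : r ≠ b)
    (G : St ι → ℂ) (m : St ι) (hr : m r = r) : Sp q r (Mg a b G) m = Mg a b (Sp q r G) m := by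
  unfold Sp Mg
  by_cases hq : m q = q
  · rw [if_pos hq]
    have j1 : (m.jn q r) a = a ↔ m a = a := jn_fix hq hr hqa.symm hra.symm
    have j2 : (m.jn q r) b = b ↔ m b = b := jn_fix hq hr hqb.symm hrb.symm
    have j3 : (m.jn q r) a = b ↔ m a = b := jn_lnk hq hr hqa.symm hra.symm
    simp only [j1, j2, j3]
    by_cases ha : m a = a
    · by_cases hb : m b = b
      · simp only [if_pos ha, if_pos hb, if_pos hq]
      · simp only [if_pos ha, if_neg hb]
        rw [if_pos ((sw_fix hqa hqb).2 hq), jn_sw hqa hqb hra hrb]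
        ring
    · by_cases hb : m b = b
      · simp only [if_neg ha, if_pos hb, if_pos hq]
        ring
      · by_cases hj : m a = b
        · simp only [if_neg ha, if_neg hb, if_pos hj]
          ring
        · simp only [if_neg ha, if_neg hb, if_neg hj]
          rw [if_pos ((cp_fix ha hb hab hj hqa hqb).2 hq), jn_cp hqa hqb hra hrb hq hr ha hb hab hj]
          ring
  · rw [if_neg hq]
    have j1 : (m.sw q r) a = a ↔ m a = a := sw_fix hqa.symm hra.symm
    have j2 : (m.sw q r) b = b ↔ m b = b := sw_fix hqb.symm hrb.symm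
    have j3 : (m.sw q r) a = b ↔ m a = b := sw_lnk hqa.symm hra.symm hqb.symm hrb.symm
    simp only [j1, j2, j3]
    by_cases ha : m a = a
    · by_cases hb : m b = b
      · simp only [if_pos ha, if_pos hb, if_neg hq]
      · simp only [if_pos ha, if_neg hb]
        rw [if_neg (fun h => hq ((sw_fix hqa hqb).1 h)), sw_sw hqa hqb hra hrb]
        ring
    · by_cases hb : m b = b
      · simp only [if_neg ha, if_pos hb, if_neg hq]
        ring
      · by_cases hj : m a = b
        · simp only [if_neg ha, if_neg hb, if_pos hj]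
          ring
        · simp only [if_neg ha, if_neg hb, if_neg hj]
          rw [if_neg (fun h => hq ((cp_fix ha hb hab hj hqa hqb).1 h)),
            cp_sw hqa.symm hra.symm hqb.symm hrb.symm ha hb]
          ring

/-- Splitting does not see the exchange of the two lines. -/
theorem Sp_swap {q r : ι} (G : St ι → ℂ) (m : St ι) (hr : m r = r) :
    Sp q r (fun n => G (n.sw q r)) m = Sp q r G m := by
  unfold Sp
  by_cases hq : m q = q
  · rw [if_pos hq, if_pos hq]
    have h1 : m.sw q r = m := by
      apply St.ext'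
      intro x
      have := m.inv x
      rw [sw_ap']
      grind
    have h2 : (m.jn q r).sw q r = m.jn q r := by
      apply St.ext'
      intro x
      have := m.inv x
      rw [sw_ap', jn_ap hq hr, jn_ap hq hr]
      grind
    simp only [h1, h2]
  · rw [if_neg hq, if_neg hq]
    have h2 : (m.sw q r).sw q r = m := by
      apply St.ext'
      intro x
      rw [sw_ap, sw_ap]
      simp
    simp only [h2]
    ring

/-- Relabelling of the other lines. -/
theorem Sp_rl (e : Equiv.Perm ι) {q r : ι} (hq : e q = q) (hr : e r = r) (G : St ι → ℂ) (m : St ι) :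
    Sp q r G (rl e m) = Sp q r (fun n => G (rl e n)) m := by
  have h1 : ((rl e m) q = q) = (m q = q) := by
    conv_lhs => rw [rl_apply, ← hq]
    simp
  have h2 : (rl e m).jn q r = rl e (m.jn q r) := by rw [rl_jn, hq, hr]
  have h3 : (rl e m).sw q r = rl e (m.sw q r) := by rw [rl_sw, hq, hr]
  unfold Sp
  simp only [h1, h2, h3]

theorem Sp_smul (q r : ι) (c : ℂ) (G : St ι → ℂ) (m : St ι) :
    Sp q r (fun n => c * G n) m = c * Sp q r G m := by
  unfold Sp
  split_ifs <;> ring

theorem Mg_smul (q r : ι) (c : ℂ) (G : St ι → ℂ) (m : St ι) :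
    Mg q r (fun n => c * G n) m = c * Mg q r G m := by
  unfold Mg
  split_ifs <;> ring

/-- `Sp` depends only on the values at the states where the other lines look the same. -/
theorem Sp_congr {q r b : ι} (hbq : b ≠ q) (hbr : b ≠ r) {G H : St ι → ℂ} {m : St ι} (hr : m r = r) (hb : m b = b)
    (h : ∀ n : St ι, n b = b → G n = H n) : Sp q r G m = Sp q r H m := by
  unfold Sp
  by_cases hq : m q = q
  · rw [if_pos hq, if_pos hq, h m hb, h _ ((jn_fix hq hr hbq hbr).2 hb)]
  · rw [if_neg hq, if_neg hq, h m hb, h _ ((sw_fix hbq hbr).2 hb)]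

/-- `Mg q r G` depends only on the values of `G` at the states where `r` is empty. -/
theorem Mg_congr {q r : ι} (hqr : q ≠ r) {G H : St ι → ℂ} {m : St ι}
    (h : ∀ n : St ι, n r = r → G n = H n) : Mg q r G m = Mg q r H m := by
  unfold Mg
  by_cases hq : m q = q
  · by_cases hr : m r = r
    · rw [if_pos hq, if_pos hr, if_pos hq, if_pos hr, h m hr]
    · rw [if_pos hq, if_neg hr, if_pos hq, if_neg hr, h]
      rw [sw_ap']
      grind
  · by_cases hr : m r = r
    · rw [if_neg hq, if_pos hr, if_neg hq, if_pos hr, h m hr]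
    · by_cases hj : m q = r
      · rw [if_neg hq, if_neg hr, if_pos hj, if_neg hq, if_neg hr, if_pos hj]
      · rw [if_neg hq, if_neg hr, if_neg hj, if_neg hq, if_neg hr, if_neg hj, h _ (cp_q hq hr)]

end

end Pool.Agent.CYL
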