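import Pool.Agent.CYG.P.FusF

/-!
# CYL, part P (P8): splitting and merging preserve the sector, planarity and positivity
-/

namespace Pool.Agent.CYL

open Pool.Agent.BEX Pool.Agent.BEX.Far Complex
open scoped ComplexOrder

section chi

variable {L l : ℕ} {m : Sts L l}

theorem chi_jn {a b : Fin L} (h : Chi (m.jn (Sum.inl a) (Sum.inl b))) : Chi m := by
  intro j
  obtain ⟨i, hi⟩ := h j
  by_cases hab : m (Sum.inl a) = Sum.inl a ∧ m (Sum.inl b) = Sum.inl b
  · rw [jn_ap hab.1 hab.2, if_neg (by simp), if_neg (by simp)] at hi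
    exact ⟨i, hi⟩
  · rw [jn_neg hab] at hi
    exact ⟨i, hi⟩

theorem chi_sw {a b : Fin L} (h : Chi (m.sw (Sum.inl a) (Sum.inl b))) : Chi m := by
  intro j
  obtain ⟨i, hi⟩ := h j
  have e : Equiv.swap (Sum.inl a : Lb L l) (Sum.inl b) (Sum.inr j) = Sum.inr j :=
    Equiv.swap_apply_of_ne_of_ne (by simp) (by simp)
  rw [sw_ap, e, Equiv.swap_apply_eq_iff] at hi
  rw [hi, Equiv.swap_apply_def]
  split_ifs
  · exact ⟨b, rfl⟩
  · exact ⟨a, rfl⟩
  · exact ⟨i, rfl⟩

theorem chi_cp {a b : Fin L} (ha : m (Sum.inl a) ≠ Sum.inl a) (hb : m (Sum.inl b) ≠ Sum.inl b)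
    (h : Chi (m.cp (Sum.inl a) (Sum.inl b))) : Chi m := by
  intro j
  obtain ⟨i, hi⟩ := h j
  rw [cp_ap ha hb, if_neg (by simp), if_neg (by simp)] at hi
  by_cases h1 : Sum.inr j = m (Sum.inl a)
  · exact ⟨a, by rw [h1, m.inv]⟩
  · by_cases h2 : Sum.inr j = m (Sum.inl b)
    · exact ⟨b, by rw [h2, m.inv]⟩
    · rw [if_neg h1, if_neg h2] at hi
      exact ⟨i, hi⟩

theorem Sup_Sp {a b : Fin L} {F : Sts L l → ℂ} (h : Sup F) : Sup (Sp (Sum.inl a) (Sum.inl b) F) := by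
  intro m hm
  unfold Sp
  split_ifs
  · rw [h m hm, h _ (fun h' => hm (chi_jn h'))]
    ring
  · rw [h m hm, h _ (fun h' => hm (chi_sw h'))]
    ring

theorem Sup_Mg {a b : Fin L} {F : Sts L l → ℂ} (h : Sup F) : Sup (Mg (Sum.inl a) (Sum.inl b) F) := by
  intro m hm
  unfold Mg
  split_ifs with h1 h2 h3 h4
  · exact h m hm
  · rw [h _ (fun h' => hm (chi_sw h')), mul_zero]
  · rw [h m hm, mul_zero]
  · rfl
  · rw [h _ (fun h' => hm (chi_cp h1 h3 h')), mul_zero]

end chi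

section glob

variable {p l : ℕ}

theorem Sup_SpF (ks : List (Fin p)) {G : Sts (2 * p) l → ℂ} (h : Sup G) : Sup (SpF ks G) := by
  induction ks with
  | nil => exact h
  | cons k ks ih => exact Sup_Sp ih

theorem Sup_MgF (ks : List (Fin p)) {G : Sts (2 * p) l → ℂ} (h : Sup G) : Sup (MgF ks G) := by
  induction ks with
  | nil => exact h
  | cons k ks ih => exact Sup_Mg ih

theorem up_inr (m : Sts p l) (j : Fin l) : up m (Sum.inr j) = i2 (m (Sum.inr j)) :=
  Phi_apply i2_inj (fun a => ⟨a, rfl⟩) m (Sum.inr j)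

theorem up_sL (m : Sts p l) (k : Fin p) : up m (sL l k) = i2 (m (Sum.inl k)) :=
  Phi_apply i2_inj (fun a => ⟨a, rfl⟩) m (Sum.inl k)

theorem chi_up {m : Sts p l} : Chi (up m) ↔ Chi m := by
  constructor
  · intro h j
    obtain ⟨i, hi⟩ := h j
    rw [up_inr] at hi
    rcases hx : m (Sum.inr j) with k | j'
    · exact ⟨k, rfl⟩
    · rw [hx] at hi
      simp [i2] at hi
  · intro h j
    obtain ⟨i, hi⟩ := h j
    exact ⟨⟨2 * (i : ℕ), by omega⟩, by rw [up_inr, hi]; rfl⟩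

theorem Sup_Dd {G : Sts (2 * p) l → ℂ} (h : Sup G) : Sup (Dd G) := by
  intro m hm
  exact Sup_SpF _ h _ fun h' => hm (chi_up.1 h')

theorem Sup_Dt {F : Sts p l → ℂ} (h : Sup F) : Sup (Dt F) := by
  classical
  intro M hM
  have h1 : MgF (List.finRange p) (fun N => F (dn N)) M =
      MgF (List.finRange p) (fun N => if Chi N then F (dn N) else 0) M := by
    refine MgF_congr _ (List.nodup_finRange p) ∅ (fun k _ => ⟨fun h => h, fun h => h⟩) ?_ M
      (fun e he => absurd he (fun h => h))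
    intro N _ hN
    by_cases hc : Chi N
    · simp only [if_pos hc]
    · simp only [if_neg hc]
      refine h _ fun h' => hc ?_
      rw [← up_dn N hN]
      exact chi_up.2 h'
  have h2 : Sup (fun N : Sts (2 * p) l => if Chi N then F (dn N) else 0) := fun N hN => if_neg hN
  exact h1.trans (Sup_MgF _ h2 M hM)

theorem shE_inr {L l : ℕ} (j : Fin l) : shE L l (Sum.inr j) = Sum.inr j := rfl

theorem shE_inl {L l : ℕ} (i : Fin L) : shE L l (Sum.inl i) = Sum.inl (finRotate L i) := rfl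

theorem shE_symm_inr {L l : ℕ} (j : Fin l) : (shE L l).symm (Sum.inr j) = Sum.inr j := rfl

theorem shE_symm_inl {L l : ℕ} (i : Fin L) : (shE L l).symm (Sum.inl i) = Sum.inl ((finRotate L).symm i) := rfl

theorem chi_shE {L l : ℕ} {m : Sts L l} (h : Chi (rl (shE L l) m)) : Chi m := by
  intro j
  obtain ⟨i, hi⟩ := h j
  rw [rl_apply, shE_symm_inr, ← Equiv.eq_symm_apply, shE_symm_inl] at hi
  exact ⟨_, hi⟩

theorem Sup_Shf {L l : ℕ} {G : Sts L l → ℂ} (h : Sup G) : Sup (Shf G) := by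
  intro m hm
  exact h _ fun h' => hm (chi_shE h')

theorem shE_sL (k : Fin p) : shE (2 * p) l (sL l k) = sR l k := by
  simp only [sL, sR, shE_inl, Sum.inl.injEq]
  apply Fin.ext
  rw [val_finRotate]
  exact Nat.mod_eq_of_lt (by simp only []; omega)

/-- the embedding of the labels with odd sites -/
def jj (p l : ℕ) : Lb p l → Lb (2 * p) l := Sum.elim (sR l) Sum.inr

theorem shE_i2 (x : Lb p l) : shE (2 * p) l (i2 x) = jj p l x := by
  rcases x with k | j
  · exact shE_sL k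
  · rfl

theorem shup_sR (m : Sts p l) (k : Fin p) : (rl (shE (2 * p) l) (up m)) (sR l k) = jj p l (m (Sum.inl k)) := by
  rw [rl_apply, ← shE_sL, Equiv.symm_apply_apply, up_sL, shE_i2]

theorem shup_inr (m : Sts p l) (j : Fin l) : (rl (shE (2 * p) l) (up m)) (Sum.inr j) = jj p l (m (Sum.inr j)) := by
  rw [rl_apply, shE_symm_inr, up_inr, shE_i2]

/-- pull back of planarity along a monotone embedding of the sites -/
theorem nc_pull {L L' l : ℕ} {m : Sts L l} {m' : Sts L' l} {φ : Fin L → Fin L'} (hφ : StrictMono φ)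
    (h1 : ∀ i k : Fin L, m (Sum.inl i) = Sum.inl k → m' (Sum.inl (φ i)) = Sum.inl (φ k))
    (h2 : ∀ (i : Fin L) (j : Fin l), m (Sum.inl i) = Sum.inr j → m' (Sum.inl (φ i)) = Sum.inr j)
    (h : NC m') : NC m := by
  obtain ⟨g1, g2, g3⟩ := h
  refine ⟨?_, ?_, ?_⟩
  · intro i j k n hij hjk hkn e1 e2
    exact g1 _ _ _ _ (hφ hij) (hφ hjk) (hφ hkn) (h1 _ _ e1) (h1 _ _ e2)
  · rintro i k e1 a b ⟨ja, ha⟩ ⟨jb, hb⟩ hia hak
    have := g2 _ _ (h1 _ _ e1) (φ a) (φ b) ⟨ja, h2 _ _ ha⟩ ⟨jb, h2 _ _ hb⟩ (hφ hia) (hφ hak)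
    exact ⟨hφ.lt_iff_lt.1 this.1, hφ.lt_iff_lt.1 this.2⟩
  · intro j₁ j₂ j₃ h12 h23 a b c ha hb hc
    have := g3 j₁ j₂ j₃ h12 h23 _ _ _ (h2 _ _ ha) (h2 _ _ hb) (h2 _ _ hc)
    simpa only [hφ.lt_iff_lt] using this

/-- planarity of the state carried by the odd sites -/
theorem cls_shup {m : Sts p l} (h : Cls (rl (shE (2 * p) l) (up m))) : Cls m := by
  refine ⟨chi_up.1 (chi_shE h.1), ?_⟩
  refine nc_pull (φ := fun i : Fin p => (⟨2 * (i : ℕ) + 1, by omega⟩ : Fin (2 * p))) ?_ ?_ ?_ h.2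
  · intro i k hik
    have h3 : (i : ℕ) < k := hik
    show 2 * (i : ℕ) + 1 < 2 * (k : ℕ) + 1
    omega
  · intro i k e
    have e1 := shup_sR m i
    rw [e] at e1
    exact e1
  · intro i j e
    have e1 := shup_sR m i
    rw [e] at e1
    exact e1

end glob

section pos

theorem xc_pos' : (0 : ℂ) < xc := by
  have h : 0 < Real.sqrt 2 * Real.sin (Real.pi / 8) := by
    have := Real.sin_pos_of_pos_of_lt_pi (x := Real.pi / 8) (by positivity) (by linarith [Real.pi_pos])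
    positivity
  unfold xc
  exact_mod_cast h

variable {ι : Type*} [DecidableEq ι]

theorem Sp_nn {q r : ι} {F : St ι → ℂ} (h : ∀ m, 0 ≤ F m) (m : St ι) : 0 ≤ Sp q r F m := by
  have hx := xc_pos'.le
  unfold Sp
  split_ifs
  · exact add_nonneg (h _) (mul_nonneg hx (h _))
  · exact mul_nonneg hx (add_nonneg (h _) (h _))

theorem Mg_nn {q r : ι} {F : St ι → ℂ} (h : ∀ m, 0 ≤ F m) (m : St ι) : 0 ≤ Mg q r F m := by
  have hx := xc_pos'.le
  unfold Mg
  split_ifs
  · exact h _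
  · exact mul_nonneg hx (h _)
  · exact mul_nonneg hx (h _)
  · exact le_refl _
  · exact mul_nonneg hx (h _)

theorem Sp_pos {q r : ι} {F : St ι → ℂ} (h : ∀ m, 0 ≤ F m) {m : St ι} (hm : 0 < F m) : 0 < Sp q r F m := by
  have hx := xc_pos'
  unfold Sp
  split_ifs
  · exact add_pos_of_pos_of_nonneg hm (mul_nonneg hx.le (h _))
  · exact mul_pos hx (add_pos_of_pos_of_nonneg hm (h _))

variable {p l : ℕ}

theorem SpF_nn (ks : List (Fin p)) {G : Sts (2 * p) l → ℂ} (h : ∀ m, 0 ≤ G m) (m : Sts (2 * p) l) :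
    0 ≤ SpF ks G m := by
  induction ks generalizing m with
  | nil => exact h m
  | cons k ks ih => exact Sp_nn ih m

theorem MgF_nn (ks : List (Fin p)) {G : Sts (2 * p) l → ℂ} (h : ∀ m, 0 ≤ G m) (m : Sts (2 * p) l) :
    0 ≤ MgF ks G m := by
  induction ks generalizing m with
  | nil => exact h m
  | cons k ks ih => exact Mg_nn ih m

theorem SpF_pos (ks : List (Fin p)) {G : Sts (2 * p) l → ℂ} (h : ∀ m, 0 ≤ G m) {m : Sts (2 * p) l} (hm : 0 < G m) :
    0 < SpF ks G m := by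
  induction ks with
  | nil => exact hm
  | cons k ks ih => exact Sp_pos (fun n => SpF_nn ks h n) ih

theorem Dd_nn {G : Sts (2 * p) l → ℂ} (h : ∀ m, 0 ≤ G m) (m : Sts p l) : 0 ≤ Dd G m := SpF_nn _ h _

theorem Dt_nn {F : Sts p l → ℂ} (h : ∀ m, 0 ≤ F m) (m : Sts (2 * p) l) : 0 ≤ Dt F m := MgF_nn _ (fun _ => h _) _

theorem Dd_Shf_pos {F : Sts (2 * p) l → ℂ} (h : ∀ m, 0 ≤ F m) {m : Sts p l}
    (hm : 0 < F (rl (shE (2 * p) l) (up m))) : 0 < Dd (Shf F) m :=
  SpF_pos _ (fun _ => h _) hm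

end pos

section lin

variable {p l : ℕ}

theorem Mg_add {ι : Type*} [DecidableEq ι] (q r : ι) (F G : St ι → ℂ) (m : St ι) :
    Mg q r (fun n => F n + G n) m = Mg q r F m + Mg q r G m := by
  unfold Mg
  split_ifs <;> ring

theorem MgF_add (ks : List (Fin p)) (F G : Sts (2 * p) l → ℂ) :
    MgF ks (fun n => F n + G n) = fun n => MgF ks F n + MgF ks G n := by
  induction ks with
  | nil => rfl
  | cons k ks ih =>
    funext m
    rw [MgF_cons, ih, Mg_add]
    rfl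

theorem MgF_smul (ks : List (Fin p)) (c : ℂ) (F : Sts (2 * p) l → ℂ) :
    MgF ks (fun n => c * F n) = fun n => c * MgF ks F n := by
  induction ks with
  | nil => rfl
  | cons k ks ih =>
    funext m
    rw [MgF_cons, ih, Mg_smul]
    rfl

/-- `Dt` as a linear map -/
noncomputable def DtL (p l : ℕ) : (Sts p l → ℂ) →ₗ[ℂ] (Sts (2 * p) l → ℂ) where
  toFun := Dt
  map_add' F G := MgF_add (List.finRange p) (fun N => F (dn N)) (fun N => G (dn N))
  map_smul' c F := MgF_smul (List.finRange p) c (fun N => F (dn N))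

theorem Dt_eq_sum (F : Sts p l → ℂ) (m : Sts (2 * p) l) :
    Dt F m = ∑ m', F m' * Dt (Pi.single m' 1) m := by
  have h1 : F = ∑ m', F m' • (Pi.single m' 1 : Sts p l → ℂ) := by
    funext n
    rw [Finset.sum_apply]
    simp [Pi.single_apply]
  have h2 : DtL p l F = ∑ m', F m' • DtL p l (Pi.single m' 1) := by
    conv_lhs => rw [h1]
    rw [map_sum]
    exact Finset.sum_congr rfl fun m' _ => map_smul _ _ _
  have h3 := congrFun h2 m
  rw [Finset.sum_apply] at h3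
  exact h3

end lin

end Pool.Agent.CYL
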