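import Pool.Agent.CYG.P.Mv

/-!
# CYL, part P, item P3: the states of the class are connected by the moves
-/

namespace Pool.Agent.CYL

open Pool.Agent.BEX Finset

section Ap

variable {κ : Type*} [DecidableEq κ]

theorem rch_jn_ap {p q : κ} {m : St κ} (hp : m p = p) (hq : m q = q) (i : κ) :
    (m.jn p q) i = if i = p then q else if i = q then p else m i := by
  unfold St.jn
  rw [dif_pos ⟨hp, hq⟩]
  rfl

theorem rch_cp_ap {p q : κ} {m : St κ} (hp : m p ≠ p) (hq : m q ≠ q) (i : κ) :
    (m.cp p q) i = if i = p then p else if i = q then q else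
    if i = m p then m q else if i = m q then m p else m i := by
  unfold St.cp
  rw [dif_pos ⟨hp, hq⟩]
  rfl

end Ap

variable {L l : ℕ}

/-- the sites which are ends of arcs between two sites -/
def AE (m : Sts L l) : Finset (Fin L) := univ.filter fun x => ∃ y, y ≠ x ∧ m (Sum.inl x) = Sum.inl y

theorem mem_AE {m : Sts L l} {x : Fin L} : x ∈ AE m ↔ ∃ y, y ≠ x ∧ m (Sum.inl x) = Sum.inl y := by
  simp [AE]

theorem tri (m : Sts L l) (x : Fin L) :
    m (Sum.inl x) = Sum.inl x ∨ (∃ j, m (Sum.inl x) = Sum.inr j) ∨ x ∈ AE m := by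
  rcases h : m (Sum.inl x) with y | j
  · by_cases hy : y = x
    · left; rw [hy]
    · right; right; exact mem_AE.2 ⟨y, hy, h⟩
  · right; left; exact ⟨j, rfl⟩

theorem arcless_of_AE {m : Sts L l} (hC : Chi m) (h : AE m = ∅) : Arcless m := by
  refine ⟨hC, fun i k hik => ?_⟩
  by_contra hne
  have : i ∈ AE m := mem_AE.2 ⟨k, fun e => hne e.symm, hik⟩
  rw [h] at this
  simp at this

section Slide

variable {m : Sts L l} {p q : Lb L l} {j1 : Fin l}

theorem sl_q (hp : m p = Sum.inr j1) (hpl : p ≠ Sum.inr j1) (hq : q = p ∨ m q = q) :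
    (m.sw p q) q = Sum.inr j1 := by
  rcases hq with rfl | hq
  · rw [sw_self, hp]
  · rw [sw_at_right (by rw [hp]; exact hpl.symm) hq, hp]

theorem sl_other (hq : q = p ∨ m q = q) {z : Lb L l} (h1 : z ≠ p) (h2 : z ≠ q) (h3 : m z ≠ p) :
    (m.sw p q) z = m z := by
  rcases hq with rfl | hq
  · rw [sw_self]
  · refine sw_at_ne' h1 h2 h3 ?_
    intro h
    exact h2 (m.inj (h.trans hq.symm))

end Slide

/-- Step 1: every `Chi`-state can be connected to an arcless state. -/
theorem to_arcless (hl : 0 < l) (m : Sts L l) (hC : Chi m) :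
    ∃ a, Arcless a ∧ Relation.ReflTransGen Stp m a := by
  classical
  induction hn : (AE m).card using Nat.strong_induction_on generalizing m with
  | _ n ih =>
  by_cases h0 : AE m = ∅
  · exact ⟨m, arcless_of_AE hC h0, Relation.ReflTransGen.refl⟩
  obtain ⟨x, hx⟩ := Finset.nonempty_iff_ne_empty.2 h0
  obtain ⟨t, ht⟩ := hC ⟨0, hl⟩
  have ht' : m (Sum.inl t) = Sum.inr ⟨0, hl⟩ := by rw [← ht]; simp
  obtain ⟨d0, hd0L, hd0⟩ := exists_ad t x
  have hex : ∃ d, ∃ k, (∃ j, m (Sum.inl k) = Sum.inr j) ∧ ad k d ∈ AE m :=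
    ⟨d0, t, ⟨_, ht'⟩, by rw [hd0]; exact hx⟩
  obtain ⟨k, ⟨j1, hk⟩, hd⟩ := Nat.find_spec hex
  have hmin : ∀ d' < Nat.find hex, ∀ k', (∃ j, m (Sum.inl k') = Sum.inr j) → ad k' d' ∉ AE m := by
    intro d' hd' k' hk' hmem
    exact Nat.find_min hex hd' ⟨k', hk', hmem⟩
  have hdL : Nat.find hex < L := lt_of_le_of_lt
    (Nat.find_min' hex ⟨t, ⟨_, ht'⟩, by rw [hd0]; exact hx⟩) hd0L
  generalize Nat.find hex = d at hd hmin hdL
  have hdpos : 0 < d := by
    rcases Nat.eq_zero_or_pos d with h | h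
    · subst h
      rw [ad_zero] at hd
      obtain ⟨y, -, hy⟩ := mem_AE.1 hd
      rw [hk] at hy
      exact absurd hy (by simp)
    · exact h
  have hemp : ∀ e : ℕ, 0 < e → e < d → m (Sum.inl (ad k e)) = Sum.inl (ad k e) := by
    intro e he hed
    rcases tri m (ad k e) with h | h | h
    · exact h
    · exfalso
      refine hmin (d - e) (by omega) (ad k e) h ?_
      rw [ad_ad, show e + (d - e) = d by omega]
      exact hd
    · exact absurd h (hmin e hed k ⟨j1, hk⟩)
  -- slide
  have hkocc : m (Sum.inl k) ≠ Sum.inl k := by rw [hk]; simp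
  have hsl := slide m k hkocc (d - 1) (by omega) fun e he he' => hemp e he (by omega)
  set s : Fin L := ad k (d - 1) with hs
  have hj : ad s 1 = ad k d := by rw [hs, ad_ad, show d - 1 + 1 = d by omega]
  set j : Fin L := ad k d with hjd
  have hq : (Sum.inl s : Lb L l) = Sum.inl k ∨ m (Sum.inl s) = Sum.inl s := by
    rcases Nat.eq_zero_or_pos (d - 1) with h | h
    · left; rw [hs, h, ad_zero]
    · right; exact hemp (d - 1) h (by omega)
  set m1 : Sts L l := m.sw (Sum.inl k) (Sum.inl s) with hm1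
  have f1 : m1 (Sum.inl s) = Sum.inr j1 := sl_q hk (by simp) hq
  have hkj : k ≠ j := (ad_ne_self hdL hdpos).symm
  have hsj : s ≠ j := ad_ne (by omega) hdL (by omega)
  obtain ⟨k', hk'j, hjk'⟩ := mem_AE.1 hd
  have f2 : m1 (Sum.inl j) = Sum.inl k' := by
    rw [hm1, sl_other hq (inl_ne hkj.symm) (inl_ne hsj.symm), hjk']
    intro h
    have := congrArg m.1 h
    rw [show m.1 (m (Sum.inl j)) = Sum.inl j from m.inv _, show m.1 (Sum.inl k) = m (Sum.inl k) from rfl, hk] at this
    exact absurd this (by simp)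
  have hL2 : 1 < L := by omega
  have hne1 : ad s 1 ≠ s := ad_ne_self hL2 (by omega)
  have g1 : m1 (Sum.inl s) ≠ Sum.inl s := by rw [f1]; simp
  have g2 : m1 (Sum.inl j) ≠ Sum.inl j := by rw [f2]; exact inl_ne hk'j
  have g3 : m1 (Sum.inl s) ≠ Sum.inl j := by rw [f1]; simp
  have hst : Stp m1 (m1.cp (Sum.inl s) (Sum.inl j)) := by
    have := Stp.cap (m := m1) s hne1 g1 (by rw [hj]; exact g2) (by rw [hj]; exact g3)
    rwa [hj] at this
  set m2 : Sts L l := m1.cp (Sum.inl s) (Sum.inl j) with hm2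
  -- arcs
  have hsub1 : ∀ x, x ∈ AE m1 → x ∈ AE m := by
    intro x hx
    obtain ⟨y, hy, hxy⟩ := mem_AE.1 hx
    have n1 : (Sum.inl x : Lb L l) ≠ Sum.inl s := by
      intro h; rw [h, f1] at hxy; exact absurd hxy (by simp)
    have n2 : (Sum.inl x : Lb L l) ≠ Sum.inl k := by
      intro h
      rcases hq with h' | h'
      · exact n1 (h.trans h'.symm)
      · rw [h, hm1, sw_at_left h'] at hxy
        apply hy
        rw [← Sum.inl_injective hxy, Sum.inl_injective h]
    have n3 : m (Sum.inl x) ≠ Sum.inl k := by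
      intro h
      have := congrArg m.1 h
      rw [show m.1 (m (Sum.inl x)) = Sum.inl x from m.inv _, show m.1 (Sum.inl k) = m (Sum.inl k) from rfl, hk] at this
      exact absurd this (by simp)
    rw [hm1, sl_other hq n2 n1 n3] at hxy
    exact mem_AE.2 ⟨y, hy, hxy⟩
  have hap2 : ∀ z, m2 z = if z = Sum.inl s then Sum.inl s else if z = Sum.inl j then Sum.inl j else
      if z = Sum.inr j1 then Sum.inl k' else if z = Sum.inl k' then Sum.inr j1 else m1 z := by
    intro z
    rw [hm2, rch_cp_ap g1 g2, f1, f2]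
  have hsub2 : AE m2 ⊂ AE m := by
    rw [Finset.ssubset_iff_of_subset]
    · refine ⟨j, hd, fun h => ?_⟩
      obtain ⟨y, hy, hjy⟩ := mem_AE.1 h
      rw [hap2, if_neg (inl_ne hsj.symm), if_pos rfl] at hjy
      exact hy (Sum.inl_injective hjy).symm
    · intro x hx
      obtain ⟨y, hy, hxy⟩ := mem_AE.1 hx
      apply hsub1
      rw [hap2] at hxy
      split_ifs at hxy with h1 h2 h3 h4
      · exfalso
        exact hy ((Sum.inl_injective hxy).symm.trans (Sum.inl_injective h1).symm)
      · exfalso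
        exact hy ((Sum.inl_injective hxy).symm.trans (Sum.inl_injective h2).symm)
      · exact absurd h3 (by simp)
      · exact mem_AE.2 ⟨y, hy, hxy⟩
  have hC1 : ∀ j', ∃ i', m1 (Sum.inr j') = Sum.inl i' := by
    intro j'
    obtain ⟨i', hi'⟩ := hC j'
    by_cases h : i' = k
    · subst h
      refine ⟨s, ?_⟩
      have e : (Sum.inr j' : Lb L l) = m (Sum.inl i') := by rw [← hi']; simp
      rw [e, hk, ← f1]
      simp
    · refine ⟨i', ?_⟩
      rw [hm1, sl_other hq (by simp) (by simp) (by rw [hi']; exact inl_ne h), hi']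
  have hC2 : Chi m2 := by
    intro j'
    obtain ⟨i', hi'⟩ := hC1 j'
    rw [hap2, if_neg (by simp), if_neg (by simp)]
    by_cases h : (Sum.inr j' : Lb L l) = Sum.inr j1
    · rw [if_pos h]; exact ⟨k', rfl⟩
    · rw [if_neg h, if_neg (by simp)]; exact ⟨i', hi'⟩
  obtain ⟨a, ha, hra⟩ := ih _ (by rw [← hn]; exact Finset.card_lt_card hsub2) m2 hC2 rfl
  exact ⟨a, ha, (hsl.tail hst).trans hra⟩

/-! ### Step 2: arcless states -/

theorem arcless_ext {a b : Sts L l} (ha : Arcless a) (hb : Arcless b)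
    (h : ∀ j, a (Sum.inr j) = b (Sum.inr j)) : a = b := by
  have key : ∀ {a b : Sts L l}, Arcless a → Arcless b → (∀ j, a (Sum.inr j) = b (Sum.inr j)) →
      ∀ x j, a (Sum.inl x) = Sum.inr j → b (Sum.inl x) = Sum.inr j := by
    intro a b _ _ h x j hx
    have : a (Sum.inr j) = Sum.inl x := by rw [← hx]; simp
    rw [h] at this
    rw [← this]; simp
  refine St.ext' fun z => ?_
  rcases z with x | j
  · rcases h1 : a (Sum.inl x) with y | j
    · have e1 := ha.2 x y h1
      subst e1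
      rcases h2 : b (Sum.inl x) with y' | j'
      · rw [hb.2 x y' h2]
      · have := key hb ha (fun j => (h j).symm) x j' h2
        rw [h1] at this
        exact absurd this (by simp)
    · exact (key ha hb h x j h1).symm
  · exact h j

theorem arcless_emp {a : Sts L l} (ha : Arcless a) {x : Fin L} (h : ∀ j, a (Sum.inr j) ≠ Sum.inl x) :
    a (Sum.inl x) = Sum.inl x := by
  rcases h1 : a (Sum.inl x) with y | j
  · rw [ha.2 x y h1]
  · exfalso
    apply h j
    rw [← h1]; simp

theorem hopA {a : Sts L l} (ha : Arcless a) {j0 : Fin l} {i : Fin L} (hi : a (Sum.inr j0) = Sum.inl i)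
    (n : ℕ) (hL : n < L) (hn : ∀ e : ℕ, 0 < e → e ≤ n → a (Sum.inl (ad i e)) = Sum.inl (ad i e)) :
    ∃ a', Arcless a' ∧ Relation.ReflTransGen Stp a a' ∧ a' (Sum.inr j0) = Sum.inl (ad i n) ∧
      ∀ j', j' ≠ j0 → a' (Sum.inr j') = a (Sum.inr j') := by
  have hi' : a (Sum.inl i) = Sum.inr j0 := by rw [← hi]; simp
  have hocc : a (Sum.inl i) ≠ Sum.inl i := by rw [hi']; simp
  have hq : (Sum.inl (ad i n) : Lb L l) = Sum.inl i ∨ a (Sum.inl (ad i n)) = Sum.inl (ad i n) := by
    rcases Nat.eq_zero_or_pos n with h | h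
    · left; rw [h, ad_zero]
    · right; exact hn n h le_rfl
  have h1 : (a.sw (Sum.inl i) (Sum.inl (ad i n))) (Sum.inl (ad i n)) = Sum.inr j0 := sl_q hi' (by simp) hq
  have h2 : (a.sw (Sum.inl i) (Sum.inl (ad i n))) (Sum.inr j0) = Sum.inl (ad i n) := by
    rw [← h1]; simp
  have h3 : ∀ j', j' ≠ j0 → (a.sw (Sum.inl i) (Sum.inl (ad i n))) (Sum.inr j') = a (Sum.inr j') := by
    intro j' hj'
    refine sl_other hq (by simp) (by simp) ?_
    intro h
    have := congrArg a.1 h
    rw [show a.1 (a (Sum.inr j')) = Sum.inr j' from a.inv _, show a.1 (Sum.inl i) = a (Sum.inl i) from rfl, hi'] at this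
    exact hj' (Sum.inr_injective this)
  refine ⟨_, ⟨?_, ?_⟩, slide a i hocc n hL hn, h2, h3⟩
  · intro j'
    by_cases hj' : j' = j0
    · subst hj'; exact ⟨_, h2⟩
    · obtain ⟨i', hi'⟩ := ha.1 j'
      exact ⟨i', by rw [h3 j' hj', hi']⟩
  · intro x y hxy
    by_cases e1 : (Sum.inl x : Lb L l) = Sum.inl (ad i n)
    · rw [e1, h1] at hxy
      exact absurd hxy (by simp)
    by_cases e2 : (Sum.inl x : Lb L l) = Sum.inl i
    · rcases hq with h' | h'
      · exact absurd (e2.trans h'.symm) e1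
      · rw [e2, sw_at_left h'] at hxy
        rw [← Sum.inl_injective hxy, Sum.inl_injective e2]
    · rw [sl_other hq e2 e1] at hxy
      · exact ha.2 x y hxy
      · intro h
        have := congrArg a.1 h
        rw [show a.1 (a (Sum.inl x)) = Sum.inl x from a.inv _, show a.1 (Sum.inl i) = a (Sum.inl i) from rfl, hi'] at this
        exact absurd this (by simp)

end Pool.Agent.CYL
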