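import Pool.Agent.CYG.P.RchA

set_option autoImplicit false

/-!
# CYL, part P, item P3: arcless states, any number of legs (general `l < L`)

An arcless state of the class is lifted to a strictly increasing `x : ℤ → ℤ` with `x (j + l) = x j + L` (`x j` modulo `L` is
the site of the leg `j`). If `x ≤ y` then `y` is reached from `x` by right hops (`l < L`: some leg that must move can
move).
-/

namespace Pool.Agent.CYL

open Pool.Agent.BEX

namespace Lift

variable {L l : ℕ}

/-- the site `z` modulo `L` -/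
def site (hL : 0 < L) (z : ℤ) : Fin L := ⟨(z % (L : ℤ)).toNat, by
  have h1 : (0 : ℤ) < L := by exact_mod_cast hL
  have h2 := Int.emod_nonneg z h1.ne'
  have h3 := Int.emod_lt_of_pos z h1
  omega⟩

theorem site_val (hL : 0 < L) (z : ℤ) : (((site hL z : Fin L) : ℕ) : ℤ) = z % L := by
  have h1 : (0 : ℤ) < L := by exact_mod_cast hL
  exact Int.toNat_of_nonneg (Int.emod_nonneg z h1.ne')

theorem site_eq (hL : 0 < L) {z z' : ℤ} : site hL z = site hL z' ↔ (L : ℤ) ∣ z - z' := by
  rw [Fin.ext_iff]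
  have h1 := site_val hL z
  have h2 := site_val hL z'
  constructor
  · intro h
    rw [h] at h1
    have : z % L = z' % L := by rw [← h1, h2]
    exact Int.dvd_of_emod_eq_zero (Int.emod_eq_emod_iff_emod_sub_eq_zero.1 this)
  · intro h
    have : z % L = z' % L := Int.emod_eq_emod_iff_emod_sub_eq_zero.2 (Int.emod_eq_zero_of_dvd h)
    rw [this, ← h2] at h1
    exact_mod_cast h1

theorem site_add (hL : 0 < L) (z k : ℤ) : site hL (z + k * L) = site hL z := by
  rw [site_eq]
  exact ⟨k, by ring⟩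

theorem site_fin (hL : 0 < L) (i : Fin L) : site hL (i : ℤ) = i := by
  apply Fin.ext
  have h := site_val hL (i : ℤ)
  rw [Int.emod_eq_of_lt (by positivity) (by exact_mod_cast i.isLt)] at h
  exact_mod_cast h

theorem ad_site (hL : 0 < L) (z : ℤ) : ad (site hL z) 1 = site hL (z + 1) := by
  apply Fin.ext
  rw [ad_val]
  have h1 := site_val hL z
  have h2 := site_val hL (z + 1)
  have h3 : ((((site hL z : Fin L) : ℕ) + 1) % L : ℕ) = (((site hL (z + 1) : Fin L) : ℕ)) := by
    zify
    rw [h1, h2, Int.emod_add_emod]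
  exact h3

/-- lifts -/
structure Lft (L l : ℕ) (x : ℤ → ℤ) : Prop where
  mono : ∀ j, x j < x (j + 1)
  per : ∀ j, x (j + l) = x j + L

theorem Lft.sm {x : ℤ → ℤ} (h : Lft L l x) : StrictMono x := strictMono_int_of_lt_succ h.mono

theorem Lft.per_mul {x : ℤ → ℤ} (h : Lft L l x) (j k : ℤ) : x (j + k * l) = x j + k * L := by
  induction k using Int.induction_on with
  | zero => simp
  | succ n ih =>
    have e : j + ((n : ℤ) + 1) * l = (j + n * l) + l := by ring
    rw [e, h.per, ih]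
    ring
  | pred n ih =>
    have e : j + (-(n : ℤ)) * l = (j + (-(n : ℤ) - 1) * l) + l := by ring
    rw [e, h.per] at ih
    linarith

theorem Lft.red {x : ℤ → ℤ} (h : Lft L l x) (j : ℤ) : x j = x (j % l) + j / l * L := by
  have e : j = j % l + j / l * l := by rw [mul_comm]; exact (Int.emod_add_mul_ediv j l).symm
  conv_lhs => rw [e]
  exact h.per_mul _ _

/-- `x` is a lift of the arcless state `a` -/
def Rep (hL : 0 < L) (a : Sts L l) (x : ℤ → ℤ) : Prop :=
  Arcless a ∧ ∀ j : Fin l, a (Sum.inr j) = Sum.inl (site hL (x (j : ℤ)))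

/-- the lift after a hop of the leg `i` -/
def up1x (l : ℕ) (i : ℤ) (x : ℤ → ℤ) (j : ℤ) : ℤ := if (l : ℤ) ∣ j - i then x j + 1 else x j

theorem up1x_lft {x : ℤ → ℤ} (h : Lft L l x) {i : ℤ} (hi : x i + 1 < x (i + 1)) : Lft L l (up1x l i x) := by
  have hge : ∀ j, x j ≤ up1x l i x j := by
    intro j
    unfold up1x
    split_ifs <;> omega
  constructor
  · intro j
    by_cases hj : (l : ℤ) ∣ j - i
    · obtain ⟨k, hk⟩ := hj
      have e1 : j = i + k * l := by linarith
      have h1 : x j = x i + k * L := by rw [e1, h.per_mul]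
      have h2 : x (j + 1) = x (i + 1) + k * L := by
        rw [e1, show i + k * (l : ℤ) + 1 = (i + 1) + k * l by ring, h.per_mul]
      have h3 : up1x l i x j = x j + 1 := if_pos ⟨k, hk⟩
      have h4 := hge (j + 1)
      rw [h3]
      linarith
    · have h3 : up1x l i x j = x j := if_neg hj
      rw [h3]
      exact lt_of_lt_of_le (h.mono j) (hge _)
  · intro j
    unfold up1x
    have e : (l : ℤ) ∣ j + l - i ↔ (l : ℤ) ∣ j - i := by
      rw [show j + (l : ℤ) - i = (j - i) + l by ring]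
      exact dvd_add_self_right
    rw [h.per]
    by_cases hj : (l : ℤ) ∣ j - i
    · rw [if_pos (e.2 hj), if_pos hj]
      ring
    · rw [if_neg (fun h' => hj (e.1 h')), if_neg hj]

theorem fin_dvd {j i : Fin l} (h : (l : ℤ) ∣ (j : ℤ) - i) : j = i := by
  obtain ⟨k, hk⟩ := h
  have h1 : ((j : ℕ) : ℤ) < l := by exact_mod_cast j.isLt
  have h2 : ((i : ℕ) : ℤ) < l := by exact_mod_cast i.isLt
  have h3 : (0 : ℤ) ≤ ((j : ℕ) : ℤ) := by positivity
  have h4 : (0 : ℤ) ≤ ((i : ℕ) : ℤ) := by positivity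
  have h5 : k = 0 := by
    by_contra hk0
    rcases lt_or_gt_of_ne hk0 with h | h
    · have : (l : ℤ) * k ≤ (l : ℤ) * (-1) := mul_le_mul_of_nonneg_left (by omega) (by positivity)
      linarith
    · have : (l : ℤ) * 1 ≤ (l : ℤ) * k := mul_le_mul_of_nonneg_left (by omega) (by positivity)
      linarith
  rw [h5, mul_zero] at hk
  apply Fin.ext
  omega

theorem rep_step (hL : 1 < L) {x : ℤ → ℤ} (h : Lft L l x) {a : Sts L l} (ha : Rep (by omega) a x) (i : Fin l)
    (hi : x (i : ℤ) + 1 < x ((i : ℤ) + 1)) :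
    ∃ a', Rep (by omega) a' (up1x l (i : ℤ) x) ∧ Relation.ReflTransGen Stp a a' := by
  have hL0 : 0 < L := by omega
  obtain ⟨a', h1, h2, h3, h4⟩ := hopA ha.1 (ha.2 i) 1 hL (by
    intro e he he'
    have e1 : e = 1 := by omega
    subst e1
    rw [ad_site hL0]
    refine arcless_emp ha.1 fun j hj => ?_
    rw [ha.2 j] at hj
    have h5 := (site_eq hL0).1 (Sum.inl_injective hj)
    obtain ⟨k, hk⟩ := h5
    have h6 : x ((j : ℤ) + (-k) * l) = x (i : ℤ) + 1 := by
      rw [h.per_mul]
      linarith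
    have h7 : x (i : ℤ) < x ((j : ℤ) + (-k) * l) := by omega
    have h8 : x ((j : ℤ) + (-k) * l) < x ((i : ℤ) + 1) := by omega
    have h9 := h.sm.lt_iff_lt.1 h7
    have h10 := h.sm.lt_iff_lt.1 h8
    omega)
  refine ⟨a', ⟨h1, fun j => ?_⟩, h2⟩
  by_cases hj : j = i
  · subst hj
    rw [h3, ad_site hL0]
    congr 2
    unfold up1x
    rw [if_pos (by simp)]
  · rw [h4 j hj, ha.2 j]
    congr 2
    unfold up1x
    rw [if_neg fun h' => hj (fin_dvd h')]

/-- some leg that must move can move -/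
theorem exists_mov (hl : 0 < l) (hL : l < L) {x y : ℤ → ℤ} (hx : Lft L l x) (hy : Lft L l y) {j0 : Fin l}
    (hj : x (j0 : ℤ) < y (j0 : ℤ)) : ∃ i : Fin l, x (i : ℤ) < y (i : ℤ) ∧ x (i : ℤ) + 1 < x ((i : ℤ) + 1) := by
  by_contra hcon
  push Not at hcon
  have hl0 : (0 : ℤ) < l := by exact_mod_cast hl
  -- all integers
  have hall : ∀ i : ℤ, x i < y i → x (i + 1) = x i + 1 := by
    intro i hi
    have h1 : 0 ≤ i % l := Int.emod_nonneg _ hl0.ne'
    have h2 : i % l < l := Int.emod_lt_of_pos _ hl0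
    obtain ⟨r, hr⟩ : ∃ r : Fin l, ((r : ℕ) : ℤ) = i % l :=
      ⟨⟨(i % l).toNat, by omega⟩, Int.toNat_of_nonneg h1⟩
    have e : i = (r : ℤ) + i / l * l := by
      rw [hr, mul_comm]
      exact (Int.emod_add_mul_ediv i l).symm
    have a1 : x i = x (r : ℤ) + i / l * L := by
      conv_lhs => rw [e]
      exact hx.per_mul _ _
    have a2 : y i = y (r : ℤ) + i / l * L := by
      conv_lhs => rw [e]
      exact hy.per_mul _ _
    have a3 : x (i + 1) = x ((r : ℤ) + 1) + i / l * L := by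
      have e' : i + 1 = ((r : ℤ) + 1) + i / l * l := by rw [add_right_comm, ← e]
      conv_lhs => rw [e']
      exact hx.per_mul _ _
    have h3 := hcon r (by linarith)
    have h4 := hx.mono (r : ℤ)
    linarith [show x ((r : ℤ) + 1) = x (r : ℤ) + 1 by omega]
  have hrun : ∀ k : ℕ, x ((j0 : ℤ) + k) = x (j0 : ℤ) + k ∧ x ((j0 : ℤ) + k) < y ((j0 : ℤ) + k) := by
    intro k
    induction k with
    | zero => simpa using hj
    | succ k ih =>
      have h1 := hall _ ih.2
      have h2 := hy.mono ((j0 : ℤ) + k)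
      push_cast
      rw [← add_assoc]
      constructor
      · rw [h1, ih.1]
        ring
      · omega
  have h1 := (hrun l).1
  rw [hx.per] at h1
  have : (l : ℤ) < L := by exact_mod_cast hL
  omega

theorem rep_reach (hl : 0 < l) (hL : l < L) (n : ℕ) : ∀ (x y : ℤ → ℤ) (a b : Sts L l), Lft L l x → Lft L l y →
    Rep (by omega) a x → Rep (by omega) b y → (∀ j, x j ≤ y j) → ∑ j : Fin l, (y (j : ℤ) - x (j : ℤ)) = n →
    Relation.ReflTransGen Stp a b := by
  induction n with
  | zero =>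
    intro x y a b hx hy ha hb hxy hs
    have hs0 : ∑ j : Fin l, (y (j : ℤ) - x (j : ℤ)) = 0 := hs
    have h0 : ∀ j : Fin l, y (j : ℤ) - x (j : ℤ) = 0 := fun j =>
      (Finset.sum_eq_zero_iff_of_nonneg (f := fun j : Fin l => y (j : ℤ) - x (j : ℤ))
        fun j _ => sub_nonneg.2 (hxy _)).1 hs0 j (Finset.mem_univ j)
    have : a = b := arcless_ext ha.1 hb.1 fun j => by
      rw [ha.2, hb.2, show x (j : ℤ) = y (j : ℤ) by have := h0 j; omega]
    rw [this]
  | succ n ih =>
    intro x y a b hx hy ha hb hxy hs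
    obtain ⟨j0, hj0⟩ : ∃ j0 : Fin l, x (j0 : ℤ) < y (j0 : ℤ) := by
      by_contra hcon
      push Not at hcon
      have : ∑ j : Fin l, (y (j : ℤ) - x (j : ℤ)) ≤ 0 := Finset.sum_nonpos fun j _ => by have := hcon j; omega
      rw [hs] at this
      push_cast at this
      omega
    obtain ⟨i, h1, h2⟩ := exists_mov hl hL hx hy hj0
    obtain ⟨a', h3, h4⟩ := rep_step (by omega) hx ha i h2
    refine h4.trans (ih _ y a' b (up1x_lft hx h2) hy h3 hb ?_ ?_)
    · intro j
      unfold up1x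
      split_ifs with hj
      · obtain ⟨k, hk⟩ := hj
        have e1 : j = (i : ℤ) + k * l := by linarith
        have h5 : x j = x (i : ℤ) + k * L := by rw [e1, hx.per_mul]
        have h6 : y j = y (i : ℤ) + k * L := by rw [e1, hy.per_mul]
        linarith
      · exact hxy j
    · have e : ∀ j : Fin l, y (j : ℤ) - up1x l (i : ℤ) x (j : ℤ) = (y (j : ℤ) - x (j : ℤ)) - (if j = i then 1 else 0) := by
        intro j
        unfold up1x
        by_cases hj : j = i
        · subst hj
          rw [if_pos (by simp), if_pos rfl]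
          ring
        · rw [if_neg fun h' => hj (fin_dvd h'), if_neg hj]
          ring
      rw [Finset.sum_congr rfl fun j _ => e j, Finset.sum_sub_distrib, hs]
      simp

theorem exists_lift (hl : 0 < l) (hL : 0 < L) {a : Sts L l} (ha : Arcless a) (h3 : G3 a) :
    ∃ x : ℤ → ℤ, Lft L l x ∧ Rep hL a x := by
  choose s hs using ha.1
  have hs' : ∀ j, a (Sum.inl (s j)) = Sum.inr j := fun j => by rw [← hs j]; simp
  have hinj : ∀ j j', s j = s j' → j = j' := by
    intro j j' h
    have h1 := hs' j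
    rw [h, hs' j'] at h1
    exact (Sum.inr_injective h1).symm
  have hL0 : (0 : ℤ) < L := by exact_mod_cast hL
  have hl0 : (0 : ℤ) < l := by exact_mod_cast hl
  set s0 : Fin l := ⟨0, hl⟩ with hs0
  -- the distance from the site of the leg `0`
  set d : Fin l → ℤ := fun j => (((s j : ℕ) : ℤ) - ((s s0 : ℕ) : ℤ)) % L with hd
  have hd0 : ∀ j, 0 ≤ d j := fun j => Int.emod_nonneg _ hL0.ne'
  have hdL : ∀ j, d j < L := fun j => Int.emod_lt_of_pos _ hL0
  have hdv : ∀ j, (((s s0 : ℕ) : ℤ) ≤ ((s j : ℕ) : ℤ) → d j = ((s j : ℕ) : ℤ) - ((s s0 : ℕ) : ℤ)) ∧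
      (((s j : ℕ) : ℤ) < ((s s0 : ℕ) : ℤ) → d j = ((s j : ℕ) : ℤ) - ((s s0 : ℕ) : ℤ) + L) := by
    intro j
    have b1 : ((s j : ℕ) : ℤ) < L := by exact_mod_cast (s j).isLt
    have b2 : ((s s0 : ℕ) : ℤ) < L := by exact_mod_cast (s s0).isLt
    have b3 : (0 : ℤ) ≤ ((s j : ℕ) : ℤ) := by positivity
    have b4 : (0 : ℤ) ≤ ((s s0 : ℕ) : ℤ) := by positivity
    constructor
    · intro h
      exact Int.emod_eq_of_lt (by omega) (by omega)
    · intro h
      have : (((s j : ℕ) : ℤ) - ((s s0 : ℕ) : ℤ)) % L = (((s j : ℕ) : ℤ) - ((s s0 : ℕ) : ℤ) + L) % L := by simp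
      change (((s j : ℕ) : ℤ) - ((s s0 : ℕ) : ℤ)) % L = _
      rw [this]
      exact Int.emod_eq_of_lt (by omega) (by omega)
  have hmono : ∀ j j' : Fin l, j < j' → d j < d j' := by
    intro j j' hjj
    have hne0 : j' ≠ s0 := by
      intro h
      rw [h, Fin.lt_def] at hjj
      exact absurd hjj (Nat.not_lt_zero _)
    have hs1 : s j' ≠ s s0 := fun h => hne0 (hinj _ _ h)
    have hs1' : ((s j' : ℕ) : ℤ) ≠ ((s s0 : ℕ) : ℤ) := fun h => hs1 (Fin.ext (by exact_mod_cast h))
    by_cases hj0 : j = s0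
    · subst hj0
      have e0 : d s0 = 0 := by
        change (((s s0 : ℕ) : ℤ) - ((s s0 : ℕ) : ℤ)) % L = 0
        simp
      rw [e0]
      have b2 : ((s s0 : ℕ) : ℤ) < L := by exact_mod_cast (s s0).isLt
      have b3 : (0 : ℤ) ≤ ((s j' : ℕ) : ℤ) := by positivity
      rcases lt_or_gt_of_ne hs1' with h | h
      · rw [(hdv j').2 h]
        omega
      · rw [(hdv j').1 h.le]
        omega
    · have h0j : s0 < j := by
        rw [Fin.lt_def]
        have : (j : ℕ) ≠ 0 := fun h => hj0 (Fin.ext h)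
        change 0 < (j : ℕ)
        omega
      have g := h3 s0 j j' h0j hjj (s s0) (s j) (s j') (hs' _) (hs' _) (hs' _)
      simp only [Fin.lt_def] at g
      have b1 : ((s j : ℕ) : ℤ) < L := by exact_mod_cast (s j).isLt
      have b2 : ((s s0 : ℕ) : ℤ) < L := by exact_mod_cast (s s0).isLt
      have b3 : ((s j' : ℕ) : ℤ) < L := by exact_mod_cast (s j').isLt
      have c1 := hdv j
      have c2 := hdv j'
      rcases g with ⟨g1, g2⟩ | ⟨g1, g2⟩ | ⟨g1, g2⟩
      · rw [c1.1 (by omega), c2.1 (by omega)]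
        omega
      · rw [c1.2 (by omega), c2.2 (by omega)]
        omega
      · rw [c1.1 (by omega), c2.2 (by omega)]
        omega
  -- the lift
  set rr : ℤ → Fin l := fun j => ⟨(j % l).toNat, by
    have h1 := Int.emod_nonneg j hl0.ne'
    have h2 := Int.emod_lt_of_pos j hl0
    omega⟩ with hrr
  have hrv : ∀ j, (((rr j : Fin l) : ℕ) : ℤ) = j % l := fun j =>
    Int.toNat_of_nonneg (Int.emod_nonneg j hl0.ne')
  refine ⟨fun j => ((s s0 : ℕ) : ℤ) + d (rr j) + j / l * L, ⟨fun j => ?_, fun j => ?_⟩, ha, fun j => ?_⟩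
  · have h1 := Int.emod_nonneg j hl0.ne'
    have h2 := Int.emod_lt_of_pos j hl0
    have h0 := Int.emod_add_mul_ediv j l
    change ((s s0 : ℕ) : ℤ) + d (rr j) + j / l * L < ((s s0 : ℕ) : ℤ) + d (rr (j + 1)) + (j + 1) / l * L
    by_cases hlast : j % l + 1 = l
    · have e1 : (j + 1) % l = 0 := by
        have : j + 1 = (l : ℤ) * (j / l + 1) := by linarith
        rw [this]
        simp
      have e2 : (j + 1) / l = j / l + 1 := by
        have : j + 1 = (l : ℤ) * (j / l + 1) := by linarith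
        rw [this]
        exact Int.mul_ediv_cancel_left _ hl0.ne'
      rw [e2]
      have := hdL (rr j)
      have := hd0 (rr (j + 1))
      linarith
    · have e0 : j + 1 = (j % l + 1) + (l : ℤ) * (j / l) := by linarith
      have e1 : (j + 1) % l = j % l + 1 := by
        rw [e0, Int.add_mul_emod_self_left]
        have : (j % l + 1 + (l : ℤ) * (j / l)) % l = j % l + 1 := by
          rw [Int.add_mul_emod_self_left]
          exact Int.emod_eq_of_lt (by omega) (by omega)
        exact Int.emod_eq_of_lt (by omega) (by omega)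
      have e2 : (j + 1) / l = j / l := by
        have h4 := Int.emod_add_mul_ediv (j + 1) l
        rw [e1] at h4
        have h5 : (l : ℤ) * ((j + 1) / l) = l * (j / l) := by linarith
        exact mul_left_cancel₀ hl0.ne' h5
      rw [e2]
      have := hmono (rr j) (rr (j + 1)) (by
        rw [Fin.lt_def]
        have a1 := hrv j
        have a2 := hrv (j + 1)
        rw [e1] at a2
        omega)
      linarith
  · have e1 : rr (j + l) = rr j := by
      apply Fin.ext
      have a1 := hrv j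
      have a2 := hrv (j + l)
      rw [Int.add_emod_right] at a2
      omega
    have e2 : (j + l) / l = j / l + 1 := by
      rw [Int.add_ediv_of_dvd_right dvd_rfl, Int.ediv_self hl0.ne']
    rw [e1, e2]
    ring
  · change a (Sum.inr j) = Sum.inl (site hL (((s s0 : ℕ) : ℤ) + d (rr (j : ℤ)) + (j : ℤ) / l * L))
    have b1 : ((j : ℕ) : ℤ) < l := by exact_mod_cast j.isLt
    have e1 : rr (j : ℤ) = j := by
      apply Fin.ext
      have a1 := hrv (j : ℤ)
      rw [Int.emod_eq_of_lt (by positivity) b1] at a1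
      omega
    rw [e1, site_add, hs j]
    congr 1
    have e2 : s j = site hL ((s j : ℕ) : ℤ) := (site_fin hL (s j)).symm
    rw [e2, site_eq]
    have h5 : d j = (((s j : ℕ) : ℤ) - ((s s0 : ℕ) : ℤ)) % L := rfl
    have h6 := Int.emod_add_mul_ediv (((s j : ℕ) : ℤ) - ((s s0 : ℕ) : ℤ)) L
    refine ⟨(((s j : ℕ) : ℤ) - ((s s0 : ℕ) : ℤ)) / L, ?_⟩
    have e3 : (((site hL ((s j : ℕ) : ℤ) : Fin L) : ℕ) : ℤ) = ((s j : ℕ) : ℤ) := by rw [site_fin]
    rw [h5]
    linarith

/-- Arcless states of the class are connected. -/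
theorem arcless_reach (hl : 0 < l) (hL : l < L) {a b : Sts L l} (ha : Arcless a) (ha3 : G3 a) (hb : Arcless b)
    (hb3 : G3 b) : Relation.ReflTransGen Stp a b := by
  have hL0 : 0 < L := by omega
  obtain ⟨x, hx, rx⟩ := exists_lift hl hL0 ha ha3
  obtain ⟨y, hy, ry⟩ := exists_lift hl hL0 hb hb3
  obtain ⟨K, hK⟩ : ∃ K : ℤ, ∀ j : Fin l, x (j : ℤ) - y (j : ℤ) ≤ K := by
    refine ⟨∑ j : Fin l, |x (j : ℤ) - y (j : ℤ)|, fun j => ?_⟩
    exact (le_abs_self _).trans (Finset.single_le_sum (f := fun j : Fin l => |x (j : ℤ) - y (j : ℤ)|)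
      (fun i _ => abs_nonneg _) (Finset.mem_univ j))
  have hK0 : ∀ j : Fin l, x (j : ℤ) - y (j : ℤ) ≤ |K| * L := by
    intro j
    have h1 := hK j
    have h2 := le_abs_self K
    have h3 : (1 : ℤ) ≤ L := by exact_mod_cast hL0
    have h4 : |K| * 1 ≤ |K| * L := mul_le_mul_of_nonneg_left h3 (abs_nonneg K)
    linarith
  set y' : ℤ → ℤ := fun j => y j + |K| * L with hy'
  have hy'L : Lft L l y' := ⟨fun j => by have := hy.mono j; simp only [hy']; linarith,
    fun j => by simp only [hy', hy.per]; ring⟩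
  have ry' : Rep hL0 b y' := ⟨hb, fun j => by rw [ry.2 j]; simp only [hy', site_add]⟩
  have hxy : ∀ j, x j ≤ y' j := by
    intro j
    have hl0 : (0 : ℤ) < l := by exact_mod_cast hl
    have h1 : 0 ≤ j % l := Int.emod_nonneg _ hl0.ne'
    have h2 : j % l < l := Int.emod_lt_of_pos _ hl0
    obtain ⟨r, hr⟩ : ∃ r : Fin l, ((r : ℕ) : ℤ) = j % l :=
      ⟨⟨(j % l).toNat, by omega⟩, Int.toNat_of_nonneg h1⟩
    rw [hx.red, hy'L.red, ← hr]
    have := hK0 r
    simp only [hy']
    linarith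
  obtain ⟨n, hn⟩ : ∃ n : ℕ, ∑ j : Fin l, (y' (j : ℤ) - x (j : ℤ)) = n := by
    have h1 : 0 ≤ ∑ j : Fin l, (y' (j : ℤ) - x (j : ℤ)) := Finset.sum_nonneg fun j _ => sub_nonneg.2 (hxy _)
    exact ⟨_, (Int.toNat_of_nonneg h1).symm⟩
  exact rep_reach hl hL n x y' a b hx hy'L rx ry' hxy hn

end Lift

end Pool.Agent.CYL
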